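import Pool.Agent.U591.LV.Mt

set_option autoImplicit false

open MeasureTheory Set Filter Topology Complex InnerProductSpace

namespace Pool.Agent.U591.LV

theorem span_form (p : C(AddCircle (1:ℝ), ℂ))
    (hp : p ∈ Submodule.span ℂ (range (@fourier (1:ℝ)))) :
    ∃ P Q : Polynomial ℂ, ∀ x, p x = P.eval ((AddCircle.toCircle x : Circle) : ℂ)
      + (starRingEnd ℂ) (Q.eval ((AddCircle.toCircle x : Circle) : ℂ)) := by
  have hpow : ∀ (k : ℕ) (x : AddCircle (1:ℝ)), fourier (k : ℤ) x
      = ((AddCircle.toCircle x : Circle) : ℂ) ^ k := by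
    intro k x
    rw [fourier_apply, natCast_zsmul, AddCircle.toCircle_nsmul]
    simp
  induction hp using Submodule.span_induction with
  | mem p hp =>
    obtain ⟨n, rfl⟩ := hp
    rcases Int.eq_nat_or_neg n with ⟨k, hk | hk⟩
    · refine ⟨Polynomial.X ^ k, 0, fun x => ?_⟩
      rw [hk, hpow]; simp
    · refine ⟨0, Polynomial.X ^ k, fun x => ?_⟩
      rw [hk, fourier_neg, hpow]; simp
  | zero => exact ⟨0, 0, fun x => by simp⟩
  | add p q _ _ hp hq =>
    obtain ⟨P, Q, h⟩ := hp
    obtain ⟨P', Q', h'⟩ := hq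
    refine ⟨P + P', Q + Q', fun x => ?_⟩
    rw [ContinuousMap.add_apply, h, h']
    simp only [Polynomial.eval_add, map_add]
    ring
  | smul a p _ hp =>
    obtain ⟨P, Q, h⟩ := hp
    refine ⟨Polynomial.C a * P, Polynomial.C ((starRingEnd ℂ) a) * Q, fun x => ?_⟩
    rw [ContinuousMap.smul_apply, h]
    simp only [Polynomial.eval_mul, Polynomial.eval_C, map_mul, Complex.conj_conj, smul_eq_mul]
    ring

/-- real parts of polynomials are dense on circles -/
theorem approxH {G : ℂ → ℝ} {c : ℂ} {r : ℝ} (hr : 0 < r) (hG : ContinuousOn G (Metric.sphere c r))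
    {ε : ℝ} (hε : 0 < ε) :
    ∃ P : Polynomial ℂ, ∀ z ∈ Metric.sphere c r, |G z - (P.eval ((z - c) / r)).re| < ε := by
  have hrc : (r : ℂ) ≠ 0 := by exact_mod_cast hr.ne'
  have hmem : ∀ x : AddCircle (1:ℝ), c + r * ((AddCircle.toCircle x : Circle) : ℂ) ∈ Metric.sphere c r := by
    intro x
    rw [mem_sphere_iff_norm]
    simp [abs_of_pos hr, Circle.norm_coe]
  have hcont : Continuous (fun x : AddCircle (1:ℝ) =>
      ((G (c + r * ((AddCircle.toCircle x : Circle) : ℂ)) : ℝ) : ℂ)) := by
    apply Complex.continuous_ofReal.comp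
    apply hG.comp_continuous _ hmem
    apply continuous_const.add
    apply continuous_const.mul
    exact continuous_induced_dom.comp AddCircle.continuous_toCircle
  set g : C(AddCircle (1:ℝ), ℂ) := ⟨_, hcont⟩ with hg
  have h1 : g ∈ (Submodule.span ℂ (range (@fourier (1:ℝ)))).topologicalClosure := by
    rw [span_fourier_closure_eq_top]; trivial
  have h2 : g ∈ closure ((Submodule.span ℂ (range (@fourier (1:ℝ))) : Set C(AddCircle (1:ℝ), ℂ))) := h1
  obtain ⟨p, hp, hpd⟩ := Metric.mem_closure_iff.1 h2 ε hε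
  obtain ⟨P, Q, hPQ⟩ := span_form p hp
  refine ⟨P + Q, fun z hz => ?_⟩
  have hzn : ‖(z - c) / r‖ = 1 := by
    rw [norm_div, Complex.norm_real, Real.norm_eq_abs, abs_of_pos hr]
    rw [mem_sphere_iff_norm] at hz
    rw [hz, div_self hr.ne']
  set ζ : Circle := ⟨(z - c) / r, mem_sphere_zero_iff_norm.2 hzn⟩ with hζ
  set x : AddCircle (1:ℝ) := ((Complex.arg (ζ : ℂ) / (2 * Real.pi) : ℝ) : AddCircle (1:ℝ)) with hx
  have hxζ : AddCircle.toCircle x = ζ := by
    rw [hx, AddCircle.toCircle_apply_mk]
    have : 2 * Real.pi / 1 * (Complex.arg (ζ : ℂ) / (2 * Real.pi)) = Complex.arg (ζ : ℂ) := by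
      have := Real.pi_ne_zero; field_simp
    rw [this, Circle.exp_arg]
  have h3 : ‖g x - p x‖ < ε := by
    have := ContinuousMap.dist_lt_iff hε |>.1 hpd x
    rwa [dist_eq_norm] at this
  have hgx : g x = ((G z : ℝ) : ℂ) := by
    show ((G (c + r * ((AddCircle.toCircle x : Circle) : ℂ)) : ℝ) : ℂ) = _
    rw [hxζ]
    have : c + r * ((ζ : Circle) : ℂ) = z := by
      show c + r * ((z - c) / r) = z
      field_simp
      ring
    rw [this]
  rw [hgx, hPQ x, hxζ] at h3
  have h4 := (Complex.abs_re_le_norm _).trans_lt h3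
  have h5 : ((ζ : Circle) : ℂ) = (z - c) / r := rfl
  rw [h5] at h4
  simp only [sub_re, add_re, ofReal_re, Complex.conj_re] at h4
  rw [Polynomial.eval_add, add_re]
  exact h4

theorem poly_harm (P : Polynomial ℂ) (c : ℂ) (r : ℝ) (z : ℂ) :
    HarmonicAt (fun w : ℂ => (P.eval ((w - c) / r)).re) z := by
  have h : AnalyticAt ℂ (fun w : ℂ => P.eval ((w - c) / r)) z := by
    have hd : Differentiable ℂ (fun w : ℂ => P.eval ((w - c) / r)) :=
      P.differentiable.comp (by fun_prop)
    exact hd.analyticAt z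
  exact h.harmonicAt_re

theorem poly_cont (P : Polynomial ℂ) (c : ℂ) (r : ℝ) :
    Continuous (fun w : ℂ => (P.eval ((w - c) / r)).re) :=
  Complex.continuous_re.comp (P.continuous.comp (by fun_prop))

theorem poly_mv (P : Polynomial ℂ) (c : ℂ) (r : ℝ) (z : ℂ) (s : ℝ) :
    Real.circleAverage (fun w : ℂ => (P.eval ((w - c) / r)).re) z s = (P.eval ((z - c) / r)).re := by
  have h : HarmonicOnNhd (fun w : ℂ => (P.eval ((w - c) / r)).re) (Metric.closedBall z |s|) :=
    fun w _ => poly_harm P c r w
  exact h.circleAverage_eq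

/-- comparison of a submean function with a polynomial on a disc -/
theorem sub_le_poly {v : ℂ → ℝ} {c : ℂ} {r : ℝ} (hr : 0 < r)
    (hv : ContinuousOn v (Metric.closedBall c r))
    (hs : ∀ z ∈ Metric.ball c r, ∃ r0 : ℝ, 0 < r0 ∧ ∀ s, 0 < s → s < r0 →
      v z ≤ Real.circleAverage v z s)
    (P : Polynomial ℂ) {ε : ℝ} (hP : ∀ z ∈ Metric.sphere c r, v z ≤ (P.eval ((z - c) / r)).re + ε) :
    ∀ z ∈ Metric.closedBall c r, v z ≤ (P.eval ((z - c) / r)).re + ε := by
  have key := maxP (Metric.closedBall c r) (isCompact_closedBall c r) (Metric.sphere c r)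
    (fun z => v z - 1 * ((P.eval ((z - c) / r)).re + ε))
    (hv.sub (continuousOn_const.mul ((poly_cont P c r).continuousOn.add continuousOn_const))) ?_ ?_
  · intro z hz
    have := key z hz
    linarith
  · intro z _ hz
    have := hP z hz
    linarith
  · intro z hz hzB
    have hzb : z ∈ Metric.ball c r := by
      rw [Metric.mem_ball]
      rw [Metric.mem_closedBall] at hz
      rw [Metric.mem_sphere] at hzB
      exact lt_of_le_of_ne hz hzB
    obtain ⟨r0, hr0, h0⟩ := hs z hzb
    rw [Metric.mem_ball] at hzb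
    set s := min (r0 / 2) (r - dist z c) with hsdef
    have hs0 : 0 < s := lt_min (by linarith) (by linarith)
    have hs1 : s < r0 := by have := min_le_left (r0 / 2) (r - dist z c); linarith
    have hs2 : s ≤ r - dist z c := min_le_right _ _
    have hsub : Metric.sphere z s ⊆ Metric.closedBall c r := by
      intro w hw
      rw [Metric.mem_closedBall]
      rw [Metric.mem_sphere] at hw
      have := dist_triangle w z c
      linarith
    refine ⟨s, hs0, hsub, ?_⟩
    have c1 : CircleIntegrable v z s := ContinuousOn.circleIntegrable hs0.le (hv.mono hsub)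
    have c2 : CircleIntegrable (fun w : ℂ => (P.eval ((w - c) / r)).re) z s :=
      (poly_cont P c r).continuousOn.circleIntegrable hs0.le
    have c3 : CircleIntegrable (fun _ : ℂ => ε) z s := continuousOn_const.circleIntegrable hs0.le
    have c4 : CircleIntegrable (fun w : ℂ => (P.eval ((w - c) / r)).re + ε) z s := c2.add c3
    rw [ca_sub_mul c1 c4, Real.circleAverage_fun_add c2 c3, poly_mv, Real.circleAverage_const]
    have := h0 s hs0 hs1
    linarith

/-- local submean implies submean on every circle -/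
theorem global_sub {v : ℂ → ℝ} {c : ℂ} {r : ℝ} (hr : 0 < r)
    (hv : ContinuousOn v (Metric.closedBall c r))
    (hs : ∀ z ∈ Metric.ball c r, ∃ r0 : ℝ, 0 < r0 ∧ ∀ s, 0 < s → s < r0 →
      v z ≤ Real.circleAverage v z s) : v c ≤ Real.circleAverage v c r := by
  apply le_of_forall_pos_le_add
  intro ε hε
  obtain ⟨P, hP⟩ := approxH hr (hv.mono Metric.sphere_subset_closedBall) (ε := ε / 2) (by linarith)
  have h1 := sub_le_poly hr hv hs P (ε := ε / 2) (fun z hz => by
    have := (abs_lt.1 (hP z hz)).2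
    linarith) c (Metric.mem_closedBall_self hr.le)
  have c1 : CircleIntegrable v c r :=
    ContinuousOn.circleIntegrable hr.le (hv.mono Metric.sphere_subset_closedBall)
  have c2 : CircleIntegrable (fun w : ℂ => (P.eval ((w - c) / r)).re) c r :=
    (poly_cont P c r).continuousOn.circleIntegrable hr.le
  have h2 : Real.circleAverage (fun w : ℂ => (P.eval ((w - c) / r)).re - 1 * v w) c r ≤ ε / 2 := by
    apply Real.circleAverage_mono_on_of_le_circle
    · have c3 : CircleIntegrable (fun w => 1 * v w) c r := by simpa using c1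
      exact c2.sub c3
    · intro z hz
      rw [abs_of_pos hr] at hz
      have := (abs_lt.1 (hP z hz)).1
      linarith
  rw [ca_sub_mul c2 c1, poly_mv] at h2
  linarith

end Pool.Agent.U591.LV
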