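import Pool.Agent.U591.LV.Growth

set_option autoImplicit false

open MeasureTheory Set Filter Topology Complex InnerProductSpace

namespace Pool.Agent.U591.LV

variable {U : ℂ → ℝ} {E : Set ℝ}

theorem rect_bound {v : ℂ → ℝ} (hv : Continuous v)
    (hs : ∀ z r, 0 < r → v z ≤ Real.circleAverage v z r) {A : ℝ} (hA : 0 < A)
    (hg : ∀ c y, v (mkC c y) ≤ A * (1 + |c| + |y|)) {e X T : ℝ} (he : 0 < e) (he1 : e ≤ 1)
    (hX : 1 ≤ X) (hT : 0 ≤ T) (hTb : ∀ c, |c| ≤ (1 + e) * X → v (mkC c 0) ≤ T) :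
    ∀ c y, |c| ≤ X → 0 ≤ y → y ≤ X → v (mkC c y) ≤ T + (4 * A / e ^ 2 + 4 * A) * y := by
  intro c0 y0 hc0 hy0 hyX
  set B : ℝ := 4 * A / e ^ 2 with hB
  have hB0 : 0 < B := by positivity
  have hBe : B * e ^ 2 = 4 * A := by rw [hB]; field_simp
  have hX0 : 0 < X := by linarith
  set P : Polynomial ℂ := Polynomial.C ((T : ℝ) : ℂ)
    + Polynomial.C (((B + 4 * A : ℝ) : ℂ) * (-I)) * Polynomial.X
    + Polynomial.C ((B / X : ℝ) : ℂ) * (Polynomial.X - Polynomial.C (c0 : ℂ)) ^ 2 with hP
  have hPe : ∀ z : ℂ, (P.eval z).re = T + (B + 4 * A) * z.im + B / X * ((z.re - c0) ^ 2 - z.im ^ 2) := by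
    intro z
    simp only [hP, Polynomial.eval_add, Polynomial.eval_mul, Polynomial.eval_C, Polynomial.eval_X,
      Polynomial.eval_pow, Polynomial.eval_sub, add_re, mul_assoc, Complex.re_ofReal_mul, ofReal_re]
    have : (z - (c0:ℂ)) ^ 2 = (z - c0) * (z - c0) := by ring
    rw [this]
    simp only [mul_re, sub_re, sub_im, ofReal_re, ofReal_im, neg_re, neg_im, I_re, I_im]
    ring
  set K : Set ℂ := {z : ℂ | |z.re - c0| ≤ e * X} ∩ ({z : ℂ | 0 ≤ z.im} ∩ {z : ℂ | z.im ≤ X}) with hK
  have hKclosed : IsClosed K := by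
    apply IsClosed.inter (isClosed_le (Complex.continuous_re.sub continuous_const).abs continuous_const)
    exact IsClosed.inter (isClosed_le continuous_const Complex.continuous_im)
      (isClosed_le Complex.continuous_im continuous_const)
  have hKre : ∀ z ∈ K, |z.re| ≤ (1 + e) * X := by
    rintro z ⟨h1, _, _⟩
    have h1' : |z.re - c0| ≤ e * X := h1
    have := abs_add_le (z.re - c0) c0
    rw [sub_add_cancel] at this
    linarith
  have hKb : K ⊆ Metric.closedBall 0 (3 * X) := by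
    intro z hz
    have h0 := hKre z hz
    obtain ⟨h1, h2, h3⟩ := hz
    have h2' : 0 ≤ z.im := h2
    have h3' : z.im ≤ X := h3
    rw [mem_closedBall_zero_iff]
    have := Complex.norm_le_abs_re_add_abs_im z
    rw [abs_of_nonneg h2'] at this
    nlinarith
  have hKc : IsCompact K := (isCompact_closedBall (0:ℂ) (3 * X)).of_isClosed_subset hKclosed hKb
  have key := cmp_poly hv hs K {z : ℂ | |z.re - c0| = e * X ∨ z.im = 0 ∨ z.im = X} hKc P ?_ ?_
    (mkC c0 y0) ?_
  · rw [hPe, mkC_re, mkC_im] at key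
    have h1 : B / X * ((c0 - c0) ^ 2 - y0 ^ 2) ≤ 0 := by
      apply mul_nonpos_of_nonneg_of_nonpos (by positivity)
      nlinarith
    linarith
  · intro z hz hzB
    have h0 := hKre z hz
    obtain ⟨h1, h2, h3⟩ := hz
    have h2' : 0 ≤ z.im := h2
    have h3' : z.im ≤ X := h3
    have hgz := hg z.re z.im
    rw [mkC_eta, abs_of_nonneg h2'] at hgz
    have hgz' : v z ≤ 4 * A * X := by
      have : 1 + |z.re| + z.im ≤ 4 * X := by nlinarith
      nlinarith
    rw [hPe]
    have hyy : B / X * z.im ^ 2 ≤ B * z.im := by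
      rw [div_mul_eq_mul_div, div_le_iff₀ hX0]
      have : z.im ^ 2 ≤ z.im * X := by nlinarith
      calc B * z.im ^ 2 ≤ B * (z.im * X) := mul_le_mul_of_nonneg_left this hB0.le
        _ = B * z.im * X := by ring
    rcases hzB with h | h | h
    · have h4 : B / X * (z.re - c0) ^ 2 = 4 * A * X := by
        rw [← sq_abs, h, ← hBe]; field_simp
      have : B / X * ((z.re - c0) ^ 2 - z.im ^ 2) = B / X * (z.re - c0) ^ 2 - B / X * z.im ^ 2 := by ring
      rw [this, h4]
      have : 0 ≤ 4 * A * z.im := by positivity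
      nlinarith
    · have h4 := hTb z.re h0
      have e1 : mkC z.re 0 = z := by rw [← h, mkC_eta]
      rw [e1] at h4
      rw [h]
      have : 0 ≤ B / X * ((z.re - c0) ^ 2 - 0 ^ 2) := by
        apply mul_nonneg (by positivity); nlinarith [sq_nonneg (z.re - c0)]
      linarith
    · have : 0 ≤ B / X * (z.re - c0) ^ 2 := by positivity
      have e2 : B / X * ((z.re - c0) ^ 2 - z.im ^ 2) = B / X * (z.re - c0) ^ 2 - B / X * z.im ^ 2 := by ring
      rw [e2]
      have h5 : (B + 4 * A) * z.im = B * z.im + 4 * A * X := by rw [h]; ring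
      linarith
  · rintro z ⟨h1, h2, h3⟩ hzB
    have h1' : |z.re - c0| ≤ e * X := h1
    have h2' : 0 ≤ z.im := h2
    have h3' : z.im ≤ X := h3
    have hzB' : ¬(|z.re - c0| = e * X ∨ z.im = 0 ∨ z.im = X) := hzB
    push Not at hzB'
    have g1 : |z.re - c0| < e * X := lt_of_le_of_ne h1' hzB'.1
    have g2 : 0 < z.im := lt_of_le_of_ne h2' (Ne.symm hzB'.2.1)
    have g3 : z.im < X := lt_of_le_of_ne h3' hzB'.2.2
    set r := min (e * X - |z.re - c0|) (min z.im (X - z.im)) with hr
    have hr0 : 0 < r := lt_min (by linarith) (lt_min g2 (by linarith))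
    have hr1 : r ≤ e * X - |z.re - c0| := min_le_left _ _
    have hr2 : r ≤ z.im := (min_le_right _ _).trans (min_le_left _ _)
    have hr3 : r ≤ X - z.im := (min_le_right _ _).trans (min_le_right _ _)
    refine ⟨r, hr0, fun w hw => ?_⟩
    rw [mem_sphere_iff_norm] at hw
    have a1 := Complex.abs_re_le_norm (w - z)
    have a2 := Complex.abs_im_le_norm (w - z)
    rw [hw, sub_re] at a1
    rw [hw, sub_im, abs_le] at a2
    refine ⟨?_, ?_, ?_⟩
    · show |w.re - c0| ≤ e * X
      have := abs_add_le (w.re - z.re) (z.re - c0)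
      have e1 : w.re - z.re + (z.re - c0) = w.re - c0 := by ring
      rw [e1] at this
      linarith
    · show 0 ≤ w.im
      linarith [a2.1]
    · show w.im ≤ X
      linarith [a2.2]
  · refine ⟨?_, ?_, ?_⟩
    · show |(mkC c0 y0).re - c0| ≤ e * X
      rw [mkC_re, sub_self, abs_zero]; positivity
    · show 0 ≤ (mkC c0 y0).im
      rw [mkC_im]; exact hy0
    · show (mkC c0 y0).im ≤ X
      rw [mkC_im]; exact hyX

set_option maxHeartbeats 4000000 in
/-- the local contraction -/
theorem contract (D : Data U E) {g : ℝ} (hg0 : 0 < g) (hg : g < 1 / 2)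
    (hδ : ∀ a : ℝ, ENNReal.ofReal (1 - 2 * g) ≤ volume (E ∩ Icc a (a + 1))) :
    ∃ θ L : ℝ, 0 < θ ∧ θ < 1 ∧ 1 ≤ L ∧ ∀ c0 S : ℝ, 0 < S →
      (∀ c y, |c - c0| ≤ L → |y| ≤ L → fU U (mkC c y) ≤ S) → fU U (mkC c0 0) ≤ θ * S := by
  set A : ℝ := 1 / (1 / 2 - g) with hA
  set η : ℝ := 1 / (1 + A) with hη
  have hA0 : 0 < A := by rw [hA]; apply one_div_pos.2; linarith
  have hη0 : 0 < η := by positivity
  have hη1 : η < 1 := by rw [hη, div_lt_one (by linarith)]; linarith
  set h : ℝ := min (g / 2) ((η * g) ^ 2 / 4) with hh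
  have hh0 : 0 < h := lt_min (by linarith) (by positivity)
  have hh1 : h ≤ g / 2 := min_le_left _ _
  have hh2 : h ≤ (η * g) ^ 2 / 4 := min_le_right _ _
  set x : ℝ := g - h with hx
  have hx0 : 0 < x := by linarith
  have hxg : x ≤ g := by linarith
  set β := b0 g (mkC x 0) with hβ
  have hβ0 : 0 ≤ β := b0_nn _ _
  have hβ1 : β ≤ 1 := b0_le_one hg0.le (by linarith) (by simpa using hx0.le)
  have hβ2 : h / 2 ≤ β ^ 2 := by
    rw [hβ, b0_gap hx0.le hxg, Real.sq_sqrt (div_nonneg (by linarith) (by linarith))]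
    rw [div_le_div_iff₀ (by norm_num) (by linarith)]
    have : g - x = h := by linarith
    rw [this]
    nlinarith
  -- the margin
  have hmar : h < g * (η * β) := by
    by_contra hc
    push Not at hc
    have h1 : (g * (η * β)) ^ 2 ≤ h ^ 2 := pow_le_pow_left₀ (by positivity) hc 2
    have h2 : (g * η) ^ 2 * (h / 2) ≤ (g * (η * β)) ^ 2 := by
      have : (g * (η * β)) ^ 2 = (g * η) ^ 2 * β ^ 2 := by ring
      rw [this]
      exact mul_le_mul_of_nonneg_left hβ2 (by positivity)
    have h3 : h ^ 2 ≤ (η * g) ^ 2 / 4 * h := by nlinarith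
    have h4 : 0 < (g * η) ^ 2 * h := by positivity
    nlinarith
  set μ : ℝ := g * (η * β) - h with hμ
  have hμ0 : 0 < μ := by linarith
  set L : ℝ := 1 + 40 * g / μ with hL
  have hL1 : 1 ≤ L := by have : 0 ≤ 40 * g / μ := by positivity
                         linarith
  have hLμ : 20 * g / L ^ 2 ≤ μ / 2 := by
    have h1 : 40 * g / μ ≤ L ^ 2 := by
      have : L ≤ L ^ 2 := by nlinarith
      linarith
    rw [div_le_iff₀ hμ0] at h1
    rw [div_le_iff₀ (by positivity)]
    linarith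
  set θ : ℝ := g / x * (1 - η * β + 20 / L ^ 2) with hθ
  have hηβ : η * β < 1 := by nlinarith
  refine ⟨θ, L, ?_, ?_, hL1, ?_⟩
  · rw [hθ]
    have : 0 < 20 / L ^ 2 := by positivity
    have : 0 < 1 - η * β + 20 / L ^ 2 := by linarith
    positivity
  · rw [hθ, div_mul_eq_mul_div, div_lt_one hx0]
    have h1 : g * (20 / L ^ 2) = 20 * g / L ^ 2 := by ring
    nlinarith
  · intro c0 S hS hbox
    have hsh : ∀ s y : ℝ, mkC s y + (c0 : ℂ) = mkC (s + c0) y := by
      intro s y; unfold mkC; push_cast; ring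
    have hfUe : ∀ c y, ∫ t in (0:ℝ)..1, U (mkC (c + t) y + (c0 : ℂ)) = fU U (mkC (c + c0) y) := by
      intro c y
      unfold fU
      simp only [hsh, mkC_re, mkC_im]
      congr 1; ext t; congr 2; ring
    have hbox' : ∀ c y, |c| ≤ L → |y| ≤ L → fU U (mkC (c + c0) y) ≤ S := by
      intro c y hc hy
      exact hbox _ _ (by simpa using hc) hy
    obtain ⟨f, hf, hfm, hfe⟩ := dens_supp D hg0 hx0.le hxg c0 (hδ c0)
    have hL0 : 0 < L := by linarith
    have hε : 2 * S / L ^ 2 * L ^ 2 = 2 * S := by field_simp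
    have hmain := star_cmp (D.shift c0) hg0 hg (fun _ => 0) continuous_const (fun _ => le_rfl)
      (fun z _ _ _ => ⟨1, one_pos, fun r _ _ => Real.circleAverage_const _ _ _⟩)
      (fun _ _ _ _ _ => le_rfl)
      (κ := S) (ε := 2 * S / L ^ 2) (L := L) (Y := L) hS.le (by positivity) hL0 hL0
      ?_ ?_ ?_ ?_ hA hη 0 x 0 (by rw [abs_zero]; exact hL0.le) hx0.le (by linarith)
      (by rw [abs_zero]; exact hL0.le) f hf hfm
    · have e1 : (∫ t, f t * U (mkC (0 + t) 0 + (c0 : ℂ))) = x / g * fU U (mkC c0 0) := by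
        rw [← hfe]
        congr 1; ext t
        rw [hsh]; congr 3; ring
      rw [e1] at hmain
      have h1 : x / g * fU U (mkC c0 0) ≤ S * (1 - η * β + 20 / L ^ 2) := by
        have h2 : S * (1 - η * (b0 g (mkC x 0) + A * (g - x))) ≤ S * (1 - η * β) := by
          apply mul_le_mul_of_nonneg_left _ hS.le
          have : 0 ≤ A * (g - x) := mul_nonneg hA0.le (by linarith)
          nlinarith
        have h3 : 2 * S / L ^ 2 * ((0:ℝ) ^ 2 + 10 - 2 * (1 - x) ^ 2) ≤ S * (20 / L ^ 2) := by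
          have : (0:ℝ) ^ 2 + 10 - 2 * (1 - x) ^ 2 ≤ 10 := by nlinarith
          have h4 : 0 ≤ 2 * S / L ^ 2 := by positivity
          calc 2 * S / L ^ 2 * ((0:ℝ) ^ 2 + 10 - 2 * (1 - x) ^ 2) ≤ 2 * S / L ^ 2 * 10 :=
                mul_le_mul_of_nonneg_left this h4
            _ = S * (20 / L ^ 2) := by ring
        have h5 : 2 * S / L ^ 2 / 2 * (0:ℝ) ^ 2 = 0 := by ring
        linarith
      have h2 : fU U (mkC c0 0) = g / x * (x / g * fU U (mkC c0 0)) := by field_simp
      rw [h2, hθ]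
      calc g / x * (x / g * fU U (mkC c0 0)) ≤ g / x * (S * (1 - η * β + 20 / L ^ 2)) :=
            mul_le_mul_of_nonneg_left h1 (by positivity)
        _ = g / x * (1 - η * β + 20 / L ^ 2) * S := by ring
    · intro c y hc hy
      rw [hfUe]
      have := hbox' c y hc hy
      have : 0 ≤ 2 * S / L ^ 2 * y ^ 2 := by positivity
      linarith
    · intro c x hc _ _
      rw [hfUe]
      have := hbox' c 0 hc (by rw [abs_zero]; exact hL0.le)
      linarith
    · intro c x y hc _ _ hy
      rw [hfUe, hε]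
      have := hbox' c y hc hy.le
      linarith
    · intro c x y hc _ _ hy
      rw [hfUe]
      have := hbox' c y hc.le hy
      have e : 2 * S / L ^ 2 / 2 * L ^ 2 = S := by field_simp
      rw [e]
      linarith

theorem axis_bdd (D : Data U E) (hsym : ∀ x y, U (mkC x (-y)) = U (mkC x y)) {g : ℝ}
    (hg0 : 0 < g) (hg : g < 1 / 2)
    (hδ : ∀ a : ℝ, ENNReal.ofReal (1 - 2 * g) ≤ volume (E ∩ Icc a (a + 1)))
    (hlim : Tendsto (fun y : ℝ => U (mkC 0 y) / y) atTop (𝓝 1)) :
    ∃ m : ℝ, 0 ≤ m ∧ ∀ c, fU U (mkC c 0) ≤ m := by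
  obtain ⟨A, hA, hlin⟩ := linear_growth D hsym hlim
  obtain ⟨θ, L, hθ0, hθ1, hL1, hcon⟩ := contract D hg0 hg hδ
  have hc := fU_cont D.cont
  have hs : ∀ z r, 0 < r → fU U z ≤ Real.circleAverage (fU U) z r := fun z r hr => fU_gsub D z hr
  set e : ℝ := min 1 ((1 / θ - 1) / 6) with he
  have hθi : 1 < 1 / θ := by rw [lt_div_iff₀ hθ0]; linarith
  have he0 : 0 < e := lt_min one_pos (by linarith)
  have he1 : e ≤ 1 := min_le_left _ _
  have he2 : e ≤ (1 / θ - 1) / 6 := min_le_right _ _
  set q : ℝ := (1 + e) ^ 2 with hq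
  have hq1 : 1 ≤ q := by rw [hq]; nlinarith
  have hqθ : q * θ < 1 := by
    have h1 : q < 1 / θ := by rw [hq]; nlinarith
    rwa [lt_div_iff₀ hθ0] at h1
  set A' : ℝ := 4 * A / e ^ 2 + 4 * A with hA'
  have hA'0 : 0 < A' := by positivity
  set X0 : ℝ := max 1 (L / e) with hX0
  set K : ℝ := θ * (A' * L + 1) / (1 - θ) with hK
  have hK0 : 0 ≤ K := by
    rw [hK]; apply div_nonneg _ (by linarith); positivity
  have hKe : θ * (K + A' * L + 1) = K := by
    have : (1 - θ) ≠ 0 := by linarith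
    rw [hK]; field_simp; ring
  -- one step
  have step : ∀ X T : ℝ, X0 ≤ X → 0 ≤ T → (∀ c, |c| ≤ q * X → fU U (mkC c 0) ≤ T) →
      ∀ c, |c| ≤ X → fU U (mkC c 0) ≤ θ * (T + A' * L + 1) := by
    intro X T hX hT hb c0 hc0
    have hX1 : 1 ≤ X := (le_max_left _ _).trans hX
    have hXL : L ≤ e * X := by
      have : L / e ≤ X := (le_max_right _ _).trans hX
      rw [div_le_iff₀ he0] at this; linarith
    apply hcon c0 (T + A' * L + 1) (by positivity)
    intro c y hcc hy
    have h1 : |c| ≤ X + L := by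
      have := abs_add_le (c - c0) c0
      rw [sub_add_cancel] at this
      linarith
    have h2 := rect_bound hc hs hA hlin he0 he1 (X := X + L) (by linarith) hT (fun c hc => by
      apply hb
      refine hc.trans ?_
      rw [hq]
      nlinarith) c |y| h1 (abs_nonneg y) (by linarith)
    rw [fU_abs hsym] at h2
    have h3 : A' * |y| ≤ A' * L := mul_le_mul_of_nonneg_left hy hA'0.le
    linarith
  -- iterate
  have iter : ∀ n : ℕ, ∀ X T : ℝ, X0 ≤ X → 0 ≤ T → (∀ c, |c| ≤ q ^ n * X → fU U (mkC c 0) ≤ T) →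
      ∀ c, |c| ≤ X → fU U (mkC c 0) ≤ θ ^ n * T + K := by
    intro n
    induction n with
    | zero =>
      intro X T _ _ hb c hc
      have := hb c (by simpa using hc)
      simp only [pow_zero, one_mul]
      linarith
    | succ n ih =>
      intro X T hX hT hb
      have hX1 : 1 ≤ X := (le_max_left _ _).trans hX
      have hqX : X0 ≤ q * X := by nlinarith
      have h1 := ih (q * X) T hqX hT (fun c hc => by
        apply hb
        refine hc.trans (le_of_eq ?_)
        rw [pow_succ]; ring)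
      have h2 := step X (θ ^ n * T + K) hX (by positivity) h1
      intro c hc
      have h3 := h2 c hc
      have h4 : θ * (θ ^ n * T + K + A' * L + 1) = θ ^ (n + 1) * T + K := by
        have : θ * (θ ^ n * T + K + A' * L + 1) = θ ^ (n + 1) * T + θ * (K + A' * L + 1) := by
          rw [pow_succ]; ring
        rw [this, hKe]
      linarith
  refine ⟨K, hK0, fun c => ?_⟩
  set X : ℝ := max X0 |c| with hX
  have hX0X : X0 ≤ X := le_max_left _ _
  have hcX : |c| ≤ X := le_max_right _ _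
  have hX1 : 1 ≤ X := (le_max_left _ _).trans hX0X
  have hbn : ∀ n : ℕ, fU U (mkC c 0) ≤ A * θ ^ n + A * X * (q * θ) ^ n + K := by
    intro n
    have hqn : 0 ≤ q ^ n * X := by positivity
    have h1 := iter n X (A * (1 + q ^ n * X)) hX0X (by positivity) (fun c' hc' => by
      have := hlin c' 0
      rw [abs_zero, add_zero] at this
      refine this.trans ?_
      apply mul_le_mul_of_nonneg_left _ hA.le
      linarith) c hcX
    refine h1.trans (le_of_eq ?_)
    rw [mul_pow]; ring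
  have hlimn : Tendsto (fun n : ℕ => A * θ ^ n + A * X * (q * θ) ^ n + K) atTop (𝓝 (A * 0 + A * X * 0 + K)) := by
    apply Tendsto.add_const
    apply Tendsto.add
    · exact (tendsto_pow_atTop_nhds_zero_of_lt_one hθ0.le hθ1).const_mul A
    · exact (tendsto_pow_atTop_nhds_zero_of_lt_one (by positivity) hqθ).const_mul (A * X)
  have := ge_of_tendsto' hlimn hbn
  simpa using this

end Pool.Agent.U591.LV
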