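import Mathlib

set_option autoImplicit false

open MeasureTheory Set Filter Topology Complex InnerProductSpace Real

namespace Pool.Agent.U591.LV

theorem cm_re (z : ℂ) (r t : ℝ) : (circleMap z r t).re = z.re + r * Real.cos t := by
  simp [circleMap, Complex.exp_ofReal_mul_I_re]

theorem cm_im (z : ℂ) (r t : ℝ) : (circleMap z r t).im = z.im + r * Real.sin t := by
  simp [circleMap, Complex.exp_ofReal_mul_I_im]

/-- quadratic functions -/
theorem ca_quad (a b p q e : ℝ) (z : ℂ) (r : ℝ) :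
    Real.circleAverage (fun w : ℂ => a * w.re ^ 2 + b * w.im ^ 2 + p * w.re + q * w.im + e) z r
      = (a * z.re ^ 2 + b * z.im ^ 2 + p * z.re + q * z.im + e) + (a + b) * r ^ 2 / 2 := by
  have h : ∀ t : ℝ, a * (circleMap z r t).re ^ 2 + b * (circleMap z r t).im ^ 2
      + p * (circleMap z r t).re + q * (circleMap z r t).im + e
      = (a * z.re ^ 2 + b * z.im ^ 2 + p * z.re + q * z.im + e)
        + (a * r ^ 2) * Real.cos t ^ 2 + (b * r ^ 2) * Real.sin t ^ 2
        + (2 * a * z.re * r + p * r) * Real.cos t + (2 * b * z.im * r + q * r) * Real.sin t := by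
    intro t
    rw [cm_re, cm_im]; ring
  rw [Real.circleAverage_def]
  simp only [h]
  have c1 : ∫ t in (0:ℝ)..2 * π, Real.cos t ^ 2 = π := by
    rw [integral_cos_sq]; simp
  have c2 : ∫ t in (0:ℝ)..2 * π, Real.sin t ^ 2 = π := by
    rw [integral_sin_sq]; simp
  have c3 : ∫ t in (0:ℝ)..2 * π, Real.cos t = 0 := by simp
  have c4 : ∫ t in (0:ℝ)..2 * π, Real.sin t = 0 := by simp
  rw [intervalIntegral.integral_add, intervalIntegral.integral_add, intervalIntegral.integral_add,
    intervalIntegral.integral_add]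
  · simp only [intervalIntegral.integral_const_mul, c1, c2, c3, c4,
      intervalIntegral.integral_const]
    simp only [smul_eq_mul]
    field_simp
    ring
  all_goals (apply Continuous.intervalIntegrable; fun_prop)

theorem ca_normSq (z : ℂ) (r : ℝ) :
    Real.circleAverage (fun w : ℂ => ‖w‖ ^ 2) z r = ‖z‖ ^ 2 + r ^ 2 := by
  have := ca_quad 1 1 0 0 0 z r
  have e : (fun w : ℂ => ‖w‖ ^ 2) = fun w : ℂ => 1 * w.re ^ 2 + 1 * w.im ^ 2 + 0 * w.re + 0 * w.im + 0 := by
    ext w
    rw [Complex.sq_norm, Complex.normSq_apply]; ring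
  rw [e, this, Complex.sq_norm, Complex.normSq_apply]
  ring

/-- maximum principle for functions with the local sub-mean value property -/
theorem maxP (K : Set ℂ) (hK : IsCompact K) (B : Set ℂ) (u : ℂ → ℝ) (hu : ContinuousOn u K)
    (hB : ∀ z ∈ K, z ∈ B → u z ≤ 0)
    (hint : ∀ z ∈ K, z ∉ B → ∃ r : ℝ, 0 < r ∧ Metric.sphere z r ⊆ K ∧
      u z ≤ Real.circleAverage u z r) : ∀ z ∈ K, u z ≤ 0 := by
  intro z1 hz1
  by_contra hcon
  push Not at hcon
  obtain ⟨R, hR0, hR⟩ : ∃ R : ℝ, 0 < R ∧ ∀ z ∈ K, ‖z‖ ≤ R := by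
    obtain ⟨R, hR⟩ := hK.isBounded.exists_norm_le
    exact ⟨max R 1, by positivity, fun z hz => (hR z hz).trans (le_max_left _ _)⟩
  set ε : ℝ := u z1 / (2 * R ^ 2) with hε
  have hε0 : 0 < ε := by positivity
  set v : ℂ → ℝ := fun z => u z + ε * (‖z‖ ^ 2 - R ^ 2) with hv
  have hvc : ContinuousOn v K := hu.add (by fun_prop)
  obtain ⟨z0, hz0, hmax⟩ := hK.exists_isMaxOn ⟨z1, hz1⟩ hvc
  have hmax' : ∀ z ∈ K, v z ≤ v z0 := fun z hz => hmax hz
  have h1 : 0 < v z1 := by
    have : ε * R ^ 2 = u z1 / 2 := by rw [hε]; field_simp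
    have h2 : ε * (‖z1‖ ^ 2 - R ^ 2) = ε * ‖z1‖ ^ 2 - u z1 / 2 := by rw [← this]; ring
    have h3 : 0 ≤ ε * ‖z1‖ ^ 2 := by positivity
    simp only [hv]
    rw [h2]; linarith
  have h2 : 0 < v z0 := lt_of_lt_of_le h1 (hmax' z1 hz1)
  have h3 : v z0 ≤ u z0 := by
    have : ‖z0‖ ^ 2 ≤ R ^ 2 := by
      have := hR z0 hz0
      have h0 := norm_nonneg z0
      nlinarith
    simp only [hv]
    nlinarith
  have h4 : z0 ∉ B := fun h => by have := hB z0 hz0 h; linarith
  obtain ⟨r, hr0, hsub, hle⟩ := hint z0 hz0 h4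
  have hsub' : Metric.sphere z0 |r| ⊆ K := by rw [abs_of_pos hr0]; exact hsub
  have hci : CircleIntegrable u z0 r := ContinuousOn.circleIntegrable hr0.le (hu.mono hsub)
  have hcv : CircleIntegrable v z0 r := ContinuousOn.circleIntegrable hr0.le (hvc.mono hsub)
  have hcn : CircleIntegrable (fun z : ℂ => ε * (‖z‖ ^ 2 - R ^ 2)) z0 r :=
    ContinuousOn.circleIntegrable hr0.le (by fun_prop)
  have e1 : Real.circleAverage v z0 r = Real.circleAverage u z0 r + ε * (‖z0‖ ^ 2 + r ^ 2 - R ^ 2) := by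
    have : Real.circleAverage (fun z : ℂ => ε * (‖z‖ ^ 2 - R ^ 2)) z0 r
        = ε * (‖z0‖ ^ 2 + r ^ 2 - R ^ 2) := by
      have hn : CircleIntegrable (fun z : ℂ => ‖z‖ ^ 2) z0 r :=
        ContinuousOn.circleIntegrable hr0.le (by fun_prop)
      have hk : CircleIntegrable (fun _ : ℂ => R ^ 2) z0 r :=
        ContinuousOn.circleIntegrable hr0.le (by fun_prop)
      have e2 : (fun z : ℂ => ε * (‖z‖ ^ 2 - R ^ 2)) = fun z : ℂ => ε • (‖z‖ ^ 2 - R ^ 2) := by
        ext z; simp
      rw [e2, Real.circleAverage_fun_smul, Real.circleAverage_fun_sub hn hk, ca_normSq,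
        Real.circleAverage_const]
      simp
    rw [← this, ← Real.circleAverage_fun_add hci hcn]
  have e2 : Real.circleAverage v z0 r ≤ v z0 := by
    apply Real.circleAverage_mono_on_of_le_circle hcv
    intro z hz
    exact hmax' z (hsub' hz)
  have : v z0 + ε * r ^ 2 ≤ Real.circleAverage v z0 r := by
    rw [e1]; simp only [hv]
    have : ε * (‖z0‖ ^ 2 + r ^ 2 - R ^ 2) = ε * (‖z0‖ ^ 2 - R ^ 2) + ε * r ^ 2 := by ring
    linarith
  have : 0 < ε * r ^ 2 := by positivity
  linarith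

/-- the horizontal reflection does not change circle averages -/
theorem int_refl (f : ℝ → ℝ → ℝ) (r : ℝ) :
    ∫ t in (0:ℝ)..2 * π, f (-(r * Real.cos t)) (r * Real.sin t)
      = ∫ t in (0:ℝ)..2 * π, f (r * Real.cos t) (r * Real.sin t) := by
  have h1 : ∀ t : ℝ, f (-(r * Real.cos t)) (r * Real.sin t)
      = (fun s => f (r * Real.cos s) (r * Real.sin s)) (π - t) := by
    intro t
    simp [Real.cos_pi_sub, Real.sin_pi_sub]
  simp only [h1]
  rw [intervalIntegral.integral_comp_sub_left (fun s => f (r * Real.cos s) (r * Real.sin s)) π]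
  have hp : Function.Periodic (fun s => f (r * Real.cos s) (r * Real.sin s)) (2 * π) := by
    intro s; simp
  have := hp.intervalIntegral_add_eq (π - 2 * π) 0
  rw [show π - 2 * π + 2 * π = π - 0 by ring, show (0:ℝ) + 2 * π = 2 * π by ring] at this
  exact this

end Pool.Agent.U591.LV
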