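import Pool.Agent.U591.LV.Flat

set_option autoImplicit false

open MeasureTheory Set Filter Topology Complex InnerProductSpace

namespace Pool.Agent.U591.LV

variable {U : ℂ → ℝ} {E : Set ℝ}

theorem swapII {V : ℝ × ℝ → ℝ} (hV : Continuous V) (a b c d : ℝ) :
    ∫ x in a..b, ∫ y in c..d, V (x, y) = ∫ y in c..d, ∫ x in a..b, V (x, y) := by
  apply intervalIntegral_intervalIntegral_swap (F := fun x y => V (x, y))
  have h : IntegrableOn V (uIcc a b ×ˢ uIcc c d) :=
    hV.continuousOn.integrableOn_compact (isCompact_uIcc.prod isCompact_uIcc)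
  exact h.mono_set (prod_mono uIoc_subset_uIcc uIoc_subset_uIcc)

theorem ca_int (v : ℂ → ℝ) (z : ℂ) (r : ℝ) :
    2 * Real.pi * Real.circleAverage v z r
      = ∫ θ in (0:ℝ)..2 * Real.pi, v (mkC (z.re + r * Real.cos θ) (z.im + r * Real.sin θ)) := by
  rw [Real.circleAverage_def, smul_eq_mul]
  have h3 : ∀ θ : ℝ, circleMap z r θ = mkC (z.re + r * Real.cos θ) (z.im + r * Real.sin θ) := by
    intro θ
    apply Complex.ext
    · rw [cm_re, mkC_re]
    · rw [cm_im, mkC_im]
  simp only [h3]
  have := Real.pi_ne_zero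
  field_simp

/-- integral over the centred interval -/
noncomputable def MU (U : ℂ → ℝ) (z : ℂ) : ℝ := ∫ t in (-z.re)..z.re, U (mkC t z.im)

/-- integral over the window of length one -/
noncomputable def fU (U : ℂ → ℝ) (z : ℂ) : ℝ := ∫ t in (0:ℝ)..1, U (mkC (z.re + t) z.im)

theorem cont2 (hU : Continuous U) {α : Type*} [TopologicalSpace α] {f g : α → ℝ}
    (hf : Continuous f) (hg : Continuous g) : Continuous (fun a => U (mkC (f a) (g a))) :=
  hU.comp (mkC_cont.comp (hf.prodMk hg))

theorem MU_cont (hU : Continuous U) : Continuous (MU U) := by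
  have h : ∀ z : ℂ, MU U z = (∫ t in (0:ℝ)..z.re, U (mkC t z.im))
      - ∫ t in (0:ℝ)..(-z.re), U (mkC t z.im) := by
    intro z
    have hi : ∀ a b : ℝ, IntervalIntegrable (fun t => U (mkC t z.im)) volume a b := by
      intro a b
      apply Continuous.intervalIntegrable
      exact cont2 hU continuous_id continuous_const
    unfold MU
    rw [← intervalIntegral.integral_add_adjacent_intervals (hi (-z.re) 0) (hi 0 z.re),
      intervalIntegral.integral_symm (0:ℝ) (-z.re)]
    ring
  have e : MU U = fun z => (∫ t in (0:ℝ)..z.re, U (mkC t z.im))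
      - ∫ t in (0:ℝ)..(-z.re), U (mkC t z.im) := funext h
  rw [e]
  have h2 : Continuous (Function.uncurry fun (z : ℂ) (t : ℝ) => U (mkC t z.im)) :=
    cont2 hU (f := fun p : ℂ × ℝ => p.2) (g := fun p : ℂ × ℝ => p.1.im) (by fun_prop) (by fun_prop)
  exact (intervalIntegral.continuous_parametric_intervalIntegral_of_continuous h2
    Complex.continuous_re).sub
    (intervalIntegral.continuous_parametric_intervalIntegral_of_continuous h2
    Complex.continuous_re.neg)

theorem fU_cont (hU : Continuous U) : Continuous (fU U) := by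
  unfold fU
  have h2 : Continuous (Function.uncurry fun (z : ℂ) (t : ℝ) => U (mkC (z.re + t) z.im)) :=
    cont2 hU (f := fun p : ℂ × ℝ => p.1.re + p.2) (g := fun p : ℂ × ℝ => p.1.im) (by fun_prop)
      (by fun_prop)
  exact intervalIntegral.continuous_parametric_intervalIntegral_of_continuous' h2 0 1

theorem MU_split (hU : Continuous U) (x y ρ : ℝ) :
    MU U (mkC (x + ρ) y) + MU U (mkC (x - ρ) y)
      = ∫ t in (-x)..x, (U (mkC (t - ρ) y) + U (mkC (t + ρ) y)) := by
  have hi : ∀ a b : ℝ, IntervalIntegrable (fun t => U (mkC t y)) volume a b := by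
    intro a b
    apply Continuous.intervalIntegrable
    exact cont2 hU continuous_id continuous_const
  unfold MU
  simp only [mkC_re, mkC_im]
  rw [intervalIntegral.integral_add
    ((cont2 hU (f := fun t : ℝ => t - ρ) (g := fun _ : ℝ => y) (by fun_prop)
      (by fun_prop)).intervalIntegrable _ _)
    ((cont2 hU (f := fun t : ℝ => t + ρ) (g := fun _ : ℝ => y) (by fun_prop)
      (by fun_prop)).intervalIntegrable _ _),
    intervalIntegral.integral_comp_sub_right (fun t => U (mkC t y)) ρ,
    intervalIntegral.integral_comp_add_right (fun t => U (mkC t y)) ρ]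
  have e1 := intervalIntegral.integral_add_adjacent_intervals (hi (-x - ρ) (-x + ρ)) (hi (-x + ρ) (x + ρ))
  have e2 := intervalIntegral.integral_add_adjacent_intervals (hi (-x - ρ) (-x + ρ)) (hi (-x + ρ) (x - ρ))
  rw [show -(x + ρ) = -x - ρ by ring, show -(x - ρ) = -x + ρ by ring]
  linarith

/-- mean value property of the centred integral -/
theorem MU_mv (hU : Continuous U) (z : ℂ) (r : ℝ)
    (h : ∀ t, |t| ≤ |z.re| → ∫ θ in (0:ℝ)..2 * Real.pi, U (mkC (t + r * Real.cos θ)
      (z.im + r * Real.sin θ)) = 2 * Real.pi * U (mkC t z.im)) :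
    Real.circleAverage (MU U) z r = MU U z := by
  have hπ := Real.pi_pos
  have hM := MU_cont hU
  have h1 := ca_int (MU U) z r
  have h2 := int_refl (fun a b => MU U (mkC (z.re + a) (z.im + b))) r
  have h3 : (∫ θ in (0:ℝ)..2 * Real.pi, (MU U (mkC (z.re + r * Real.cos θ) (z.im + r * Real.sin θ))
      + MU U (mkC (z.re - r * Real.cos θ) (z.im + r * Real.sin θ))))
      = 2 * (2 * Real.pi * Real.circleAverage (MU U) z r) := by
    rw [intervalIntegral.integral_add
      ((cont2 hM (f := fun θ : ℝ => z.re + r * Real.cos θ) (g := fun θ : ℝ => z.im + r * Real.sin θ)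
        (by fun_prop) (by fun_prop)).intervalIntegrable _ _)
      ((cont2 hM (f := fun θ : ℝ => z.re - r * Real.cos θ) (g := fun θ : ℝ => z.im + r * Real.sin θ)
        (by fun_prop) (by fun_prop)).intervalIntegrable _ _)]
    simp only [← sub_eq_add_neg] at h2
    rw [h2, ← h1]; ring
  simp only [MU_split hU] at h3
  set V : ℝ × ℝ → ℝ := fun p => U (mkC (p.2 - r * Real.cos p.1) (z.im + r * Real.sin p.1))
    + U (mkC (p.2 + r * Real.cos p.1) (z.im + r * Real.sin p.1)) with hV
  have hVc : Continuous V := by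
    apply Continuous.add
    · exact cont2 hU (f := fun p : ℝ × ℝ => p.2 - r * Real.cos p.1)
        (g := fun p : ℝ × ℝ => z.im + r * Real.sin p.1) (by fun_prop) (by fun_prop)
    · exact cont2 hU (f := fun p : ℝ × ℝ => p.2 + r * Real.cos p.1)
        (g := fun p : ℝ × ℝ => z.im + r * Real.sin p.1) (by fun_prop) (by fun_prop)
  have h4 := swapII hVc 0 (2 * Real.pi) (-z.re) z.re
  simp only [hV] at h4
  rw [h4] at h3
  have h5 : ∫ t in (-z.re)..z.re, ∫ θ in (0:ℝ)..2 * Real.pi,
      (U (mkC (t - r * Real.cos θ) (z.im + r * Real.sin θ))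
        + U (mkC (t + r * Real.cos θ) (z.im + r * Real.sin θ)))
      = ∫ t in (-z.re)..z.re, (4 * Real.pi) * U (mkC t z.im) := by
    apply intervalIntegral.integral_congr
    intro t ht
    have ht' : |t| ≤ |z.re| := by
      rcases le_total 0 z.re with a | a
      · rw [uIcc_of_le (by linarith)] at ht
        rw [abs_of_nonneg a, abs_le]; exact ht
      · rw [uIcc_of_ge (by linarith)] at ht
        rw [abs_of_nonpos a, abs_le, neg_neg]; exact ht
    have e1 := h t ht'
    have e2 := int_refl (fun a b => U (mkC (t + a) (z.im + b))) r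
    simp only [← sub_eq_add_neg] at e2
    show (∫ θ in (0:ℝ)..2 * Real.pi, (U (mkC (t - r * Real.cos θ) (z.im + r * Real.sin θ))
        + U (mkC (t + r * Real.cos θ) (z.im + r * Real.sin θ)))) = (4 * Real.pi) * U (mkC t z.im)
    rw [intervalIntegral.integral_add
      ((cont2 hU (f := fun θ : ℝ => t - r * Real.cos θ) (g := fun θ : ℝ => z.im + r * Real.sin θ)
        (by fun_prop) (by fun_prop)).intervalIntegrable _ _)
      ((cont2 hU (f := fun θ : ℝ => t + r * Real.cos θ) (g := fun θ : ℝ => z.im + r * Real.sin θ)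
        (by fun_prop) (by fun_prop)).intervalIntegrable _ _), e2, e1]
    ring
  rw [h5, intervalIntegral.integral_const_mul] at h3
  have h6 : 4 * Real.pi * MU U z = 2 * (2 * Real.pi * Real.circleAverage (MU U) z r) := h3
  have h7 : (4 * Real.pi) * MU U z = (4 * Real.pi) * Real.circleAverage (MU U) z r := by
    rw [h6]; ring
  exact (mul_left_cancel₀ (by positivity) h7).symm

theorem fU_ca (hU : Continuous U) (z : ℂ) (r : ℝ) :
    Real.circleAverage (fU U) z r
      = ∫ t in (0:ℝ)..1, Real.circleAverage U (mkC (z.re + t) z.im) r := by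
  have hπ := Real.pi_pos
  have h1 := ca_int (fU U) z r
  unfold fU at h1
  simp only [mkC_re, mkC_im] at h1
  have hVc : Continuous (fun p : ℝ × ℝ => U (mkC (z.re + r * Real.cos p.1 + p.2)
      (z.im + r * Real.sin p.1))) :=
    cont2 hU (f := fun p : ℝ × ℝ => z.re + r * Real.cos p.1 + p.2)
      (g := fun p : ℝ × ℝ => z.im + r * Real.sin p.1) (by fun_prop) (by fun_prop)
  have h4 := swapII hVc 0 (2 * Real.pi) 0 1
  simp only at h4
  rw [h4] at h1
  have h5 : ∀ t : ℝ, ∫ θ in (0:ℝ)..2 * Real.pi, U (mkC (z.re + r * Real.cos θ + t)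
      (z.im + r * Real.sin θ)) = 2 * Real.pi * Real.circleAverage U (mkC (z.re + t) z.im) r := by
    intro t
    rw [ca_int]
    congr 1
    ext θ
    rw [mkC_re, mkC_im]
    congr 2
    ring
  simp only [h5] at h1
  rw [intervalIntegral.integral_const_mul] at h1
  exact mul_left_cancel₀ (by positivity) h1

theorem fU_mv (hU : Continuous U) (z : ℂ) (r : ℝ)
    (h : ∀ t ∈ Icc (0:ℝ) 1, Real.circleAverage U (mkC (z.re + t) z.im) r = U (mkC (z.re + t) z.im)) :
    Real.circleAverage (fU U) z r = fU U z := by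
  rw [fU_ca hU]
  unfold fU
  apply intervalIntegral.integral_congr
  intro t ht
  rw [uIcc_of_le zero_le_one] at ht
  exact h t ht

theorem ca_cont (hU : Continuous U) (x y r : ℝ) :
    Continuous (fun t : ℝ => Real.circleAverage U (mkC (x + t) y) r) := by
  have h : (fun t : ℝ => Real.circleAverage U (mkC (x + t) y) r)
      = fun t : ℝ => (2 * Real.pi)⁻¹ * ∫ θ in (0:ℝ)..2 * Real.pi,
        U (mkC (x + t + r * Real.cos θ) (y + r * Real.sin θ)) := by
    ext t
    have := ca_int U (mkC (x + t) y) r
    rw [mkC_re, mkC_im] at this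
    rw [← this]
    have := Real.pi_ne_zero
    field_simp
  rw [h]
  apply continuous_const.mul
  have h2 : Continuous (Function.uncurry fun (t θ : ℝ) =>
      U (mkC (x + t + r * Real.cos θ) (y + r * Real.sin θ))) :=
    cont2 hU (f := fun p : ℝ × ℝ => x + p.1 + r * Real.cos p.2)
      (g := fun p : ℝ × ℝ => y + r * Real.sin p.2) (by fun_prop) (by fun_prop)
  exact intervalIntegral.continuous_parametric_intervalIntegral_of_continuous' h2 _ _

theorem fU_sub (hU : Continuous U) (z : ℂ) (r : ℝ)
    (h : ∀ t ∈ Icc (0:ℝ) 1, U (mkC (z.re + t) z.im) ≤ Real.circleAverage U (mkC (z.re + t) z.im) r) :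
    fU U z ≤ Real.circleAverage (fU U) z r := by
  rw [fU_ca hU]
  unfold fU
  apply intervalIntegral.integral_mono_on zero_le_one
  · exact (cont2 hU (f := fun t : ℝ => z.re + t) (g := fun _ : ℝ => z.im)
      (by fun_prop) (by fun_prop)).intervalIntegrable _ _
  · exact (ca_cont hU _ _ _).intervalIntegrable _ _
  · exact h

theorem ca_add_mul {v u : ℂ → ℝ} {z : ℂ} {r : ℝ} (hv : CircleIntegrable v z r)
    (hu : CircleIntegrable u z r) (c : ℝ) :
    Real.circleAverage (fun z => v z + c * u z) z r
      = Real.circleAverage v z r + c * Real.circleAverage u z r := by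
  rw [Real.circleAverage_def, Real.circleAverage_def, Real.circleAverage_def]
  have h2 : IntervalIntegrable (fun θ => c * u (circleMap z r θ)) volume 0 (2 * Real.pi) :=
    IntervalIntegrable.const_mul hu c
  rw [intervalIntegral.integral_add hv h2, intervalIntegral.integral_const_mul, smul_eq_mul,
    smul_eq_mul, smul_eq_mul]
  ring

theorem ca_sub_mul {v u : ℂ → ℝ} {z : ℂ} {r : ℝ} (hv : CircleIntegrable v z r)
    (hu : CircleIntegrable u z r) (c : ℝ) :
    Real.circleAverage (fun z => v z - c * u z) z r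
      = Real.circleAverage v z r - c * Real.circleAverage u z r := by
  have := ca_add_mul hv hu (-c)
  simp only [neg_mul, ← sub_eq_add_neg] at this
  exact this

/-- Phragmen-Lindelof principle in the half plane for functions bounded above -/
theorem PL_half (v : ℂ → ℝ) (hc : ContinuousOn v {z | 0 ≤ z.im})
    (hs : ∀ z : ℂ, 0 < z.im → ∃ r0 : ℝ, 0 < r0 ∧ ∀ r, 0 < r → r < r0 →
      v z ≤ Real.circleAverage v z r)
    (C : ℝ) (hC : ∀ z : ℂ, 0 ≤ z.im → v z ≤ C) (h0 : ∀ z : ℂ, z.im = 0 → v z ≤ 0) :
    ∀ z : ℂ, 0 ≤ z.im → v z ≤ 0 := by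
  intro z1 hz1
  by_contra hcon
  push Not at hcon
  have hg1 : ∀ z : ℂ, 0 ≤ z.im → 1 ≤ ‖z + I‖ := by
    intro z hz
    have := Complex.abs_im_le_norm (z + I)
    rw [add_im, I_im, abs_of_nonneg (by linarith)] at this
    linarith
  have hL1 : 0 ≤ Real.log ‖z1 + I‖ := Real.log_nonneg (hg1 z1 hz1)
  set ε := v z1 / (2 * (Real.log ‖z1 + I‖ + 1)) with hε
  have hε0 : 0 < ε := by positivity
  have hε1 : ε * Real.log ‖z1 + I‖ < v z1 := by
    have : ε * (2 * (Real.log ‖z1 + I‖ + 1)) = v z1 := by rw [hε]; field_simp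
    nlinarith
  set R : ℝ := Real.exp (|C| / ε) + 1 + ‖z1‖ with hR
  have hR0 : 0 < R := by positivity
  set w : ℂ → ℝ := fun z => v z - ε * Real.log ‖z + I‖ with hw
  have hlogc : ContinuousOn (fun z : ℂ => Real.log ‖z + I‖) {z | 0 ≤ z.im} := by
    apply ContinuousOn.log (by fun_prop)
    intro z hz
    have := hg1 z hz
    positivity
  have hwc : ContinuousOn w {z | 0 ≤ z.im} := hc.sub (continuousOn_const.mul hlogc)
  have hmain := maxP (Metric.closedBall 0 R ∩ {z : ℂ | 0 ≤ z.im})
    ((isCompact_closedBall _ _).inter_right (isClosed_le continuous_const Complex.continuous_im))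
    {z : ℂ | z.im = 0 ∨ R ≤ ‖z‖} w (hwc.mono inter_subset_right) ?_ ?_ z1 ⟨?_, hz1⟩
  · simp only [hw] at hmain; linarith
  · rintro z ⟨hz, hzi⟩ hzB
    have hzi' : 0 ≤ z.im := hzi
    have hl := Real.log_nonneg (hg1 z hzi)
    rcases hzB with h | h
    · have := h0 z h
      simp only [hw]
      have : 0 ≤ ε * Real.log ‖z + I‖ := by positivity
      linarith
    · have h1 := hC z hzi
      have h2 : Real.exp (|C| / ε) ≤ ‖z + I‖ := by
        have h3 : ‖z‖ ≤ ‖z + I‖ + 1 := by
          have := norm_sub_le (z + I) I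
          simpa using this
        have := norm_nonneg z1
        linarith
      have h3 : |C| / ε ≤ Real.log ‖z + I‖ := by
        rw [Real.le_log_iff_exp_le (lt_of_lt_of_le (Real.exp_pos _) h2)]; exact h2
      have h4 : |C| ≤ ε * Real.log ‖z + I‖ := by
        rw [div_le_iff₀ hε0] at h3; linarith
      have := le_abs_self C
      simp only [hw]; linarith
  · rintro z ⟨hz, hzi⟩ hzB
    simp only [mem_ofPred_eq, not_or, not_le] at hzB
    have hzi' : 0 < z.im := lt_of_le_of_ne hzi (Ne.symm hzB.1)
    obtain ⟨r0, hr0, hr⟩ := hs z hzi'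
    set r := min (r0 / 2) (min (z.im / 2) (R - ‖z‖)) with hrdef
    have hr1 : 0 < r := lt_min (by linarith) (lt_min (by linarith) (by linarith [hzB.2]))
    have hr2 : r ≤ r0 / 2 := min_le_left _ _
    have hr3 : r ≤ z.im / 2 := (min_le_right _ _).trans (min_le_left _ _)
    have hr4 : r ≤ R - ‖z‖ := (min_le_right _ _).trans (min_le_right _ _)
    have hin : Metric.closedBall z r ⊆ {w : ℂ | 0 < w.im} := by
      intro w hw
      rw [Metric.mem_closedBall, dist_eq_norm] at hw
      have h1 := Complex.abs_im_le_norm (w - z)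
      rw [sub_im] at h1
      have h2 := neg_abs_le (w.im - z.im)
      show 0 < w.im
      linarith
    refine ⟨r, hr1, ?_, ?_⟩
    · intro w hw
      have hwi : 0 < w.im := hin (Metric.sphere_subset_closedBall hw)
      refine ⟨?_, show 0 ≤ w.im from hwi.le⟩
      rw [mem_closedBall_zero_iff]
      have h1 : ‖w - z‖ = r := by rw [← dist_eq_norm]; exact hw
      have h2 : ‖w‖ ≤ ‖z‖ + ‖w - z‖ := by
        have := norm_add_le z (w - z)
        simpa using this
      linarith
    · have hv := hr r hr1 (by linarith)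
      have hsub : Metric.sphere z r ⊆ {w : ℂ | 0 ≤ w.im} := by
        intro w hw
        have hwi : 0 < w.im := hin (Metric.sphere_subset_closedBall hw)
        exact hwi.le
      have c1 : CircleIntegrable v z r := ContinuousOn.circleIntegrable hr1.le (hc.mono hsub)
      have c2 : CircleIntegrable (fun z : ℂ => Real.log ‖z + I‖) z r :=
        ContinuousOn.circleIntegrable hr1.le (hlogc.mono hsub)
      have hh : HarmonicOnNhd (fun z : ℂ => Real.log ‖z + I‖) (Metric.closedBall z |r|) := by
        rw [abs_of_pos hr1]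
        intro w hw
        apply AnalyticAt.harmonicAt_log_norm (by fun_prop)
        intro h
        have hwi : 0 < w.im := hin hw
        have h1 := hg1 w hwi.le
        rw [h, norm_zero] at h1
        linarith
      have h3 := hh.circleAverage_eq
      have h4 : Real.circleAverage w z r = Real.circleAverage v z r - ε * Real.log ‖z + I‖ := by
        rw [hw, ca_sub_mul c1 c2, h3]
      rw [h4]
      simp only [hw]
      linarith
  · rw [mem_closedBall_zero_iff]
    have := Real.exp_pos (|C| / ε)
    linarith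

end Pool.Agent.U591.LV
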