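import Pool.Agent.U591.LV.Star
import Pool.Agent.U591.LV.Mt

set_option autoImplicit false

open MeasureTheory Set Filter Topology Complex InnerProductSpace

namespace Pool.Agent.U591.LV

variable {U : ℂ → ℝ} {E : Set ℝ}

theorem harm_shift {V : ℂ → ℝ} {z c : ℂ} (h : HarmonicAt V (z + c)) :
    HarmonicAt (fun w => V (w + c)) z := by
  have hop := isOpen_setOfPred_harmonicAt V
  obtain ⟨r, hr, hsub⟩ := Metric.isOpen_iff.1 hop (z + c) h
  obtain ⟨F, hF, hFe⟩ := InnerProductSpace.HarmonicOnNhd.exists_analyticOnNhd_ball_re_eq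
    (f := V) (z := z + c) (R := r) (fun w hw => hsub hw)
  have h1 : AnalyticAt ℂ (fun w => F (w + c)) z :=
    AnalyticAt.fun_comp (hF (z + c) (Metric.mem_ball_self hr)) (by fun_prop)
  refine (harmonicAt_congr_nhds ?_).1 h1.harmonicAt_re
  filter_upwards [Metric.ball_mem_nhds z hr] with w hw
  have : w + c ∈ Metric.ball (z + c) r := by
    rw [Metric.mem_ball, dist_eq_norm] at hw ⊢
    rwa [add_sub_add_right_eq_sub]
  exact hFe this

theorem Data.shift (D : Data U E) (a : ℝ) :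
    Data (fun z => U (z + (a : ℂ))) ((fun x : ℝ => x + a) ⁻¹' E) where
  cont := D.cont.comp (by fun_prop)
  nn := fun z => D.nn _
  zero := by
    intro t ht
    have := D.zero (t + a) ht
    rw [← Complex.ofReal_add]; exact this
  harm := by
    intro z hz
    apply harm_shift
    apply D.harm
    simpa using hz
  closed := D.closed.preimage (by fun_prop)
  meets := by
    intro b
    obtain ⟨e, he, h1, h2⟩ := D.meets (b + a)
    exact ⟨e - a, by show e - a + a ∈ E; rwa [sub_add_cancel], by linarith, by linarith⟩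

/-- square-root barrier -/
noncomputable def b0 (g : ℝ) (z : ℂ) : ℝ :=
  Real.sqrt ((‖((g : ℂ) - z) / (1 + z)‖ + (((g : ℂ) - z) / (1 + z)).re) / 2)

theorem b0_nn (g : ℝ) (z : ℂ) : 0 ≤ b0 g z := Real.sqrt_nonneg _

theorem one_add_ne {z : ℂ} (hz : 0 ≤ z.re) : (1 : ℂ) + z ≠ 0 := by
  intro h
  have := congrArg Complex.re h
  simp at this
  linarith

theorem b0_contOn (g : ℝ) : ContinuousOn (b0 g) {z | 0 ≤ z.re} := by
  have h1 : ContinuousOn (fun z : ℂ => ((g : ℂ) - z) / (1 + z)) {z | 0 ≤ z.re} := by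
    apply ContinuousOn.div (by fun_prop) (by fun_prop)
    intro z hz
    exact one_add_ne hz
  unfold b0
  apply Real.continuous_sqrt.comp_continuousOn
  exact (h1.norm.add (Complex.continuous_re.comp_continuousOn h1)).div_const 2

theorem b0_le_one {g : ℝ} (hg : 0 ≤ g) (hg1 : g ≤ 1) {z : ℂ} (hz : 0 ≤ z.re) : b0 g z ≤ 1 := by
  unfold b0
  rw [Real.sqrt_le_iff]
  refine ⟨zero_le_one, ?_⟩
  have hn : ‖((g : ℂ) - z) / (1 + z)‖ ≤ 1 := by
    rw [norm_div, div_le_one (norm_pos_iff.2 (one_add_ne hz))]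
    have h1 : ‖(g : ℂ) - z‖ ^ 2 ≤ ‖1 + z‖ ^ 2 := by
      rw [Complex.sq_norm, Complex.sq_norm, Complex.normSq_apply, Complex.normSq_apply]
      simp
      nlinarith
    exact (pow_le_pow_iff_left₀ (norm_nonneg _) (norm_nonneg _) two_ne_zero).1 h1
  have h2 := (Complex.re_le_norm (((g : ℂ) - z) / (1 + z))).trans hn
  linarith

theorem b0_real {g x : ℝ} (hx : 0 ≤ x) :
    b0 g (mkC x 0) = Real.sqrt ((|(g - x) / (1 + x)| + (g - x) / (1 + x)) / 2) := by
  unfold b0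
  have : ((g : ℂ) - mkC x 0) / (1 + mkC x 0) = (((g - x) / (1 + x) : ℝ) : ℂ) := by
    rw [mkC_zero]; push_cast; ring
  rw [this, Complex.norm_real, Real.norm_eq_abs, Complex.ofReal_re]

theorem b0_slit {g x : ℝ} (hg : 0 ≤ g) (hx : g ≤ x) : b0 g (mkC x 0) = 0 := by
  rw [b0_real (hg.trans hx)]
  have h1 : (g - x) / (1 + x) ≤ 0 := div_nonpos_of_nonpos_of_nonneg (by linarith) (by linarith)
  rw [abs_of_nonpos h1]
  simp

theorem b0_gap {g x : ℝ} (hx : 0 ≤ x) (hxg : x ≤ g) :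
    b0 g (mkC x 0) = Real.sqrt ((g - x) / (1 + x)) := by
  rw [b0_real hx]
  have h1 : 0 ≤ (g - x) / (1 + x) := div_nonneg (by linarith) (by linarith)
  rw [abs_of_nonneg h1]
  congr 1; ring

theorem b0_mono {g x s : ℝ} (hs : 0 ≤ s) (hsx : s ≤ x) (hxg : x ≤ g) :
    b0 g (mkC x 0) ≤ b0 g (mkC (x - s) 0) := by
  rw [b0_gap (by linarith) hxg, b0_gap (by linarith) (by linarith)]
  apply Real.sqrt_le_sqrt
  rw [div_le_div_iff₀ (by linarith) (by linarith)]
  nlinarith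

theorem sqrt_branch {w : ℂ} (hw : w ∈ Complex.slitPlane) :
    (Complex.exp (Complex.log w / 2)).re = Real.sqrt ((‖w‖ + w.re) / 2) := by
  have hw0 := Complex.slitPlane_ne_zero hw
  set s := Complex.exp (Complex.log w / 2) with hs
  have hs2 : s ^ 2 = w := by
    rw [hs, ← Complex.exp_nat_mul]
    have : ((2:ℕ):ℂ) * (Complex.log w / 2) = Complex.log w := by push_cast; ring
    rw [this, Complex.exp_log hw0]
  have hre : 0 ≤ s.re := by
    rw [hs, Complex.exp_re]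
    apply mul_nonneg (Real.exp_pos _).le
    have e : (Complex.log w / 2).im = Complex.arg w / 2 := by
      have : Complex.log w / 2 = ((1/2 : ℝ) : ℂ) * Complex.log w := by push_cast; ring
      rw [this, Complex.re_ofReal_mul', Complex.log_im]; ring
    rw [e]
    apply Real.cos_nonneg_of_mem_Icc
    have h1 := Complex.neg_pi_lt_arg w
    have h2 := Complex.arg_le_pi w
    constructor <;> linarith
  have h1 : ‖w‖ = s.re ^ 2 + s.im ^ 2 := by
    rw [← hs2, norm_pow, Complex.sq_norm, Complex.normSq_apply]; ring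
  have h2 : w.re = s.re ^ 2 - s.im ^ 2 := by
    rw [← hs2, sq, Complex.mul_re]; ring
  rw [h1, h2]
  have : (s.re ^ 2 + s.im ^ 2 + (s.re ^ 2 - s.im ^ 2)) / 2 = s.re ^ 2 := by ring
  rw [this, Real.sqrt_sq hre]
where
  Complex.re_ofReal_mul' : ∀ {r : ℝ} {z : ℂ}, ((r : ℂ) * z).im = r * z.im := by
    intro r z; simp

theorem b0_harm {g : ℝ} (hg : 0 < g) {z : ℂ} (hz : 0 < z.re) (h : z.im ≠ 0 ∨ z.re < g) :
    HarmonicAt (b0 g) z := by
  have hw : ((g : ℂ) - z) / (1 + z) ∈ Complex.slitPlane := by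
    have h1 := one_add_ne hz.le
    have h2 : ((g : ℂ) - z) / (1 + z) = ((g : ℂ) + 1) / (1 + z) - 1 := by field_simp; ring
    have hns : 0 < Complex.normSq (1 + z) := Complex.normSq_pos.2 h1
    rw [Complex.mem_slitPlane_iff]
    by_cases hi : z.im = 0
    · left
      have h3 : z.re < g := by rcases h with h | h; exact absurd hi h; exact h
      rw [Complex.div_re]
      simp only [sub_re, ofReal_re, add_re, one_re, sub_im, ofReal_im, add_im, one_im, hi]
      have : 0 < (g - z.re) * (1 + z.re) / Complex.normSq (1 + z) := by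
        apply div_pos (mul_pos (by linarith) (by linarith)) hns
      simpa using this
    · right
      rw [Complex.div_im]
      simp only [sub_re, ofReal_re, add_re, one_re, sub_im, ofReal_im, add_im, one_im]
      rw [← sub_div]
      apply div_ne_zero _ hns.ne'
      have : (0 - z.im) * (1 + z.re) - (g - z.re) * (0 + z.im) = -(z.im * (1 + g)) := by ring
      rw [this]
      apply neg_ne_zero.2
      apply mul_ne_zero hi
      linarith
  have han : AnalyticAt ℂ (fun z : ℂ => Complex.exp (Complex.log (((g : ℂ) - z) / (1 + z)) / 2)) z := by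
    apply AnalyticAt.cexp
    apply AnalyticAt.div_const
    apply AnalyticAt.clog
    · exact AnalyticAt.div (by fun_prop) (by fun_prop) (one_add_ne hz.le)
    · exact hw
  have hc : ContinuousAt (fun z : ℂ => ((g : ℂ) - z) / (1 + z)) z :=
    ContinuousAt.div (by fun_prop) (by fun_prop) (one_add_ne hz.le)
  refine (harmonicAt_congr_nhds ?_).1 han.harmonicAt_re
  filter_upwards [hc.eventually_mem (Complex.isOpen_slitPlane.mem_nhds hw)] with y hy
  rw [sqrt_branch hy]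
  rfl

/-- circle averages near a point where the function is harmonic -/
theorem mv_of_open {V : ℂ → ℝ} {S : Set ℂ} (hS : IsOpen S) (hV : ∀ z ∈ S, HarmonicAt V z) {z : ℂ}
    (hz : z ∈ S) : ∃ r0 : ℝ, 0 < r0 ∧ ∀ r, 0 < r → r < r0 → Metric.closedBall z r ⊆ S ∧
      Real.circleAverage V z r = V z := by
  obtain ⟨r0, hr0, hsub⟩ := Metric.isOpen_iff.1 hS z hz
  refine ⟨r0, hr0, fun r hr hrr => ?_⟩
  have h1 : Metric.closedBall z r ⊆ S := (Metric.closedBall_subset_ball hrr).trans hsub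
  refine ⟨h1, ?_⟩
  have h2 : HarmonicOnNhd V (Metric.closedBall z |r|) := by
    rw [abs_of_pos hr]; exact fun w hw => hV w (h1 hw)
  exact h2.circleAverage_eq

theorem slit_open (g : ℝ) : IsOpen {z : ℂ | 0 < z.re ∧ (z.im ≠ 0 ∨ z.re < g)} := by
  apply (isOpen_lt continuous_const Complex.continuous_re).inter
  exact (isOpen_ne_fun Complex.continuous_im continuous_const).union
    (isOpen_lt Complex.continuous_re continuous_const)

/-- comparison with the standard comparison functions -/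
theorem star_cmp (D : Data U E) {g : ℝ} (hg0 : 0 < g) (hg : g < 1 / 2) (P : ℂ → ℝ)
    (hPc : Continuous P) (hP0 : ∀ y, 0 ≤ P (mkC 0 y))
    (hPmv : ∀ z : ℂ, 0 < z.re → z.re < 1 / 2 → (z.im ≠ 0 ∨ z.re < g) →
      ∃ r0 : ℝ, 0 < r0 ∧ ∀ r, 0 < r → r < r0 → Real.circleAverage P z r = P z)
    (hPm : ∀ x s, 0 ≤ s → s ≤ x → x < g → P (mkC (x - s) 0) ≤ P (mkC x 0))
    {κ ε L Y : ℝ} (hκ : 0 ≤ κ) (hε : 0 < ε) (hL : 0 < L) (hY : 0 < Y)
    (H1 : ∀ c y, |c| ≤ L → |y| ≤ Y →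
      ∫ t in (0:ℝ)..1, U (mkC (c + t) y) ≤ P (mkC (1 / 2) y) + κ + ε * y ^ 2)
    (H2 : ∀ c x, |c| ≤ L → g ≤ x → x ≤ 1 / 2 →
      ∫ t in (0:ℝ)..1, U (mkC (c + t) 0) ≤ P (mkC x 0) + κ)
    (H4 : ∀ c x y, |c| ≤ L → 0 ≤ x → x ≤ 1 / 2 → |y| = Y →
      ∫ t in (0:ℝ)..1, U (mkC (c + t) y) ≤ P (mkC x y) + ε * Y ^ 2)
    (H5 : ∀ c x y, |c| = L → 0 ≤ x → x ≤ 1 / 2 → |y| ≤ Y →
      ∫ t in (0:ℝ)..1, U (mkC (c + t) y) ≤ P (mkC x y) + ε / 2 * L ^ 2)
    {A η : ℝ} (hA : A = 1 / (1 / 2 - g)) (hη : η = 1 / (1 + A)) :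
    ∀ c x y, |c| ≤ L → 0 ≤ x → x ≤ 1 / 2 → |y| ≤ Y → ∀ f, Dens f → ∫ t, f t ≤ 2 * x →
      ∫ t, f t * U (mkC (c + t) y) ≤ P (mkC x y) + κ * (1 - η * (b0 g (mkC x y) + A * (g - x)))
        + ε * (y ^ 2 + 10 - 2 * (1 - x) ^ 2) + ε / 2 * c ^ 2 := by
  have hA0 : 0 < A := by rw [hA]; apply one_div_pos.2; linarith
  have hη0 : 0 < η := by rw [hη]; positivity
  have hη1 : η * (1 + A) = 1 := by rw [hη]; field_simp
  have hAg : A * (g - 1 / 2) = -1 := by
    have h1 : (1 / 2 - g) ≠ 0 := by linarith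
    have h2 : A * (1 / 2 - g) = 1 := by rw [hA]; exact one_div_mul_cancel h1
    linarith
  set Θ : ℂ → ℝ := fun z => P z + κ * (1 - η * (b0 g z + A * (g - z.re)))
    + ε * (z.im ^ 2 + 10 - 2 * (1 - z.re) ^ 2) with hΘ
  have hΘe : ∀ x y, Θ (mkC x y) = P (mkC x y) + κ * (1 - η * (b0 g (mkC x y) + A * (g - x)))
    + ε * (y ^ 2 + 10 - 2 * (1 - x) ^ 2) := by
    intro x y; simp only [hΘ, mkC_re, mkC_im]
  have hBnn : ∀ z : ℂ, 0 ≤ z.re → 0 ≤ 1 - η * (b0 g z + A * (g - z.re)) := by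
    intro z hz
    have h1 := b0_le_one hg0.le (by linarith) hz
    have h2 : b0 g z + A * (g - z.re) ≤ 1 + A := by nlinarith
    nlinarith
  have hpen : ∀ x y : ℝ, 0 ≤ x → x ≤ 1 / 2 → y ^ 2 ≤ y ^ 2 + 10 - 2 * (1 - x) ^ 2 := by
    intro x y h1 h2; nlinarith
  have hmain := star D (g0 := g) (L := L) (Y := Y) (k := ε / 2) hL hY (by positivity) Θ ?_ ?_ ?_ ?_ ?_ ?_ ?_ ?_
  · intro c x y hc hx0 hx1 hy f hf hfm
    have := hmain c x y hc hx0 hx1 hy f hf hfm
    rw [hΘe] at this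
    exact this
  · -- continuity
    have hb : ContinuousOn (b0 g) {z | 0 ≤ z.re ∧ z.re ≤ 1 / 2} :=
      (b0_contOn g).mono (fun z hz => hz.1)
    apply ContinuousOn.add
    · apply ContinuousOn.add hPc.continuousOn
      apply continuousOn_const.mul
      apply continuousOn_const.sub
      apply continuousOn_const.mul
      exact hb.add (by fun_prop)
    · fun_prop
  · -- H1
    intro c y hc hy
    have h1 := H1 c y hc hy
    rw [hΘe]
    have h2 := b0_le_one (g := g) hg0.le (by linarith) (z := mkC (1/2) y) (by simp)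
    have h3 : 1 ≤ 1 - η * (b0 g (mkC (1 / 2) y) + A * (g - 1 / 2)) := by
      rw [hAg]; nlinarith
    have h4 : κ ≤ κ * (1 - η * (b0 g (mkC (1 / 2) y) + A * (g - 1 / 2))) := by nlinarith
    have h5 : ε * y ^ 2 ≤ ε * (y ^ 2 + 10 - 2 * (1 - 1 / 2) ^ 2) :=
      mul_le_mul_of_nonneg_left (hpen _ _ (by norm_num) le_rfl) hε.le
    have h6 : 0 ≤ ε / 2 * c ^ 2 := by positivity
    linarith
  · -- H2
    intro c x hc hgx hx0 hx1
    have h1 := H2 c x hc hgx hx1
    rw [hΘe, b0_slit hg0.le hgx]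
    have h3 : 1 ≤ 1 - η * (0 + A * (g - x)) := by
      have : A * (g - x) ≤ 0 := mul_nonpos_of_nonneg_of_nonpos hA0.le (by linarith)
      nlinarith
    have h4 : κ ≤ κ * (1 - η * (0 + A * (g - x))) := by nlinarith
    have h5 : ε * (0:ℝ) ^ 2 ≤ ε * ((0:ℝ) ^ 2 + 10 - 2 * (1 - x) ^ 2) :=
      mul_le_mul_of_nonneg_left (hpen _ _ hx0 hx1) hε.le
    have h6 : 0 ≤ ε / 2 * c ^ 2 := by positivity
    have h7 : ε * (0:ℝ) ^ 2 = 0 := by ring
    linarith
  · -- H3
    intro y hy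
    rw [hΘe]
    have h1 := hP0 y
    have h2 := hBnn (mkC 0 y) (by simp)
    rw [mkC_re] at h2
    have h3 : 0 ≤ κ * (1 - η * (b0 g (mkC 0 y) + A * (g - 0))) := mul_nonneg hκ h2
    have h4 : 0 ≤ ε * (y ^ 2 + 10 - 2 * (1 - 0) ^ 2) := by
      apply mul_nonneg hε.le; nlinarith [sq_nonneg y]
    linarith
  · -- H4
    intro c x y hc hx0 hx1 hy
    have h1 := H4 c x y hc hx0 hx1 hy
    rw [hΘe]
    have h2 := hBnn (mkC x y) (by simpa using hx0)
    rw [mkC_re] at h2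
    have h3 : 0 ≤ κ * (1 - η * (b0 g (mkC x y) + A * (g - x))) := mul_nonneg hκ h2
    have h5 : ε * y ^ 2 ≤ ε * (y ^ 2 + 10 - 2 * (1 - x) ^ 2) :=
      mul_le_mul_of_nonneg_left (hpen _ _ hx0 hx1) hε.le
    have h6 : 0 ≤ ε / 2 * c ^ 2 := by positivity
    have h7 : y ^ 2 = Y ^ 2 := by rw [← hy, sq_abs]
    rw [h7] at h5
    rw [h7]
    linarith
  · -- H5
    intro c x y hc hx0 hx1 hy
    have h1 := H5 c x y hc hx0 hx1 hy
    rw [hΘe]
    have h2 := hBnn (mkC x y) (by simpa using hx0)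
    rw [mkC_re] at h2
    have h3 : 0 ≤ κ * (1 - η * (b0 g (mkC x y) + A * (g - x))) := mul_nonneg hκ h2
    have h5 : ε * y ^ 2 ≤ ε * (y ^ 2 + 10 - 2 * (1 - x) ^ 2) :=
      mul_le_mul_of_nonneg_left (hpen _ _ hx0 hx1) hε.le
    have h6 : 0 ≤ ε * y ^ 2 := by positivity
    have h7 : c ^ 2 = L ^ 2 := by rw [← hc, sq_abs]
    rw [h7]
    linarith
  · -- H6
    intro z hz0 hz1 _ hzD
    obtain ⟨r1, hr1, h1⟩ := hPmv z hz0 hz1 hzD
    obtain ⟨r2, hr2, h2⟩ := mv_of_open (V := b0 g) (slit_open g)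
      (fun w hw => b0_harm hg0 hw.1 hw.2) (z := z) ⟨hz0, hzD⟩
    refine ⟨min r1 r2, lt_min hr1 hr2, fun r hr hrr => ?_⟩
    have hP := h1 r hr (lt_of_lt_of_le hrr (min_le_left _ _))
    obtain ⟨hsub, hb⟩ := h2 r hr (lt_of_lt_of_le hrr (min_le_right _ _))
    have cb : CircleIntegrable (b0 g) z r := by
      apply ContinuousOn.circleIntegrable hr.le
      apply (b0_contOn g).mono
      intro w hw
      have : 0 < w.re := (hsub (Metric.sphere_subset_closedBall hw)).1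
      exact this.le
    have cP : CircleIntegrable P z r := hPc.continuousOn.circleIntegrable hr.le
    set Q : ℂ → ℝ := fun w => (-2 * ε) * w.re ^ 2 + ε * w.im ^ 2 + (κ * η * A + 4 * ε) * w.re
      + 0 * w.im + (κ - κ * η * A * g + 8 * ε) with hQ
    have hQa := ca_quad (-2 * ε) ε (κ * η * A + 4 * ε) 0 (κ - κ * η * A * g + 8 * ε) z r
    have cQ : CircleIntegrable Q z r := by
      apply ContinuousOn.circleIntegrable hr.le
      fun_prop
    have e1 : Θ = fun w => (P w - (κ * η) * b0 g w) + 1 * Q w := by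
      ext w; simp only [hΘ, hQ]; ring
    have c1 : CircleIntegrable (fun w => P w - (κ * η) * b0 g w) z r := by
      have : CircleIntegrable (fun w => (κ * η) * b0 g w) z r := IntervalIntegrable.const_mul cb _
      exact cP.sub this
    have e2 : Real.circleAverage Θ z r = Θ z - ε * r ^ 2 / 2 := by
      rw [e1, ca_add_mul c1 cQ, ca_sub_mul cP cb, hP, hb]
      have : Real.circleAverage Q z r = Q z + (-2 * ε + ε) * r ^ 2 / 2 := hQa
      rw [this]
      ring
    rw [e2]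
    have : 0 < ε * r ^ 2 := by positivity
    nlinarith
  · -- H7
    intro x hx0 hxg hx1
    refine ⟨2 * ε, by positivity, fun s hs0 hsx => ?_⟩
    rw [hΘe, hΘe]
    have h1 := hPm x s hs0 hsx hxg
    have h2 := b0_mono hs0 hsx hxg.le
    have h3 : κ * (1 - η * (b0 g (mkC (x - s) 0) + A * (g - (x - s))))
        ≤ κ * (1 - η * (b0 g (mkC x 0) + A * (g - x))) := by
      apply mul_le_mul_of_nonneg_left _ hκ
      have : b0 g (mkC x 0) + A * (g - x) ≤ b0 g (mkC (x - s) 0) + A * (g - (x - s)) := by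
        nlinarith
      nlinarith
    have h4 : ε * ((0:ℝ) ^ 2 + 10 - 2 * (1 - (x - s)) ^ 2)
        ≤ ε * ((0:ℝ) ^ 2 + 10 - 2 * (1 - x) ^ 2) - 2 * ε * s := by
      have : (0:ℝ) ^ 2 + 10 - 2 * (1 - (x - s)) ^ 2 ≤ (0:ℝ) ^ 2 + 10 - 2 * (1 - x) ^ 2 - 2 * s := by
        nlinarith
      nlinarith
    linarith

end Pool.Agent.U591.LV
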