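import Pool.Agent.U591.LV.Jouk

set_option autoImplicit false

open MeasureTheory Set Filter Topology Complex InnerProductSpace

namespace Pool.Agent.U591.LV

/-- the extremal function -/
noncomputable def Ut (b : ℝ) (z : ℂ) : ℝ := (1 / Real.pi) * hJ (Complex.cos ((Real.pi : ℂ) * z) / (b : ℂ))

/-- the extremal set (shifted by one half) -/
def Et (b : ℝ) : Set ℝ := {x | |Real.cos (Real.pi * x)| ≤ b}

theorem Ut_cont {b : ℝ} : Continuous (Ut b) := by
  unfold Ut
  exact continuous_const.mul (hJ_cont.comp (by fun_prop))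

theorem Ut_nn (b : ℝ) (z : ℂ) : 0 ≤ Ut b z := by
  unfold Ut
  have := hJ_nn (Complex.cos ((Real.pi : ℂ) * z) / (b : ℂ))
  have := Real.pi_pos
  positivity

theorem cos_mkC (x y : ℝ) : Complex.cos ((Real.pi : ℂ) * mkC x y)
    = mkC (Real.cos (Real.pi * x) * Real.cosh (Real.pi * y))
      (-(Real.sin (Real.pi * x) * Real.sinh (Real.pi * y))) := by
  unfold mkC
  have : (Real.pi : ℂ) * ((x : ℂ) + (y : ℂ) * I)
      = ((Real.pi * x : ℝ) : ℂ) + ((Real.pi * y : ℝ) : ℂ) * I := by push_cast; ring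
  rw [this, Complex.cos_add_mul_I]
  push_cast
  ring

theorem norm_cos_le (x y : ℝ) : ‖Complex.cos ((Real.pi : ℂ) * mkC x y)‖ ≤ Real.cosh (Real.pi * y) := by
  have h := Complex.sq_norm (Complex.cos ((Real.pi : ℂ) * mkC x y))
  rw [cos_mkC, Complex.normSq_apply, mkC_re, mkC_im] at h
  rw [cos_mkC]
  have hc : 0 < Real.cosh (Real.pi * y) := Real.cosh_pos _
  have e1 := Real.sin_sq_add_cos_sq (Real.pi * x)
  have e2 := Real.cosh_sq (Real.pi * y)
  have : ‖mkC (Real.cos (Real.pi * x) * Real.cosh (Real.pi * y))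
      (-(Real.sin (Real.pi * x) * Real.sinh (Real.pi * y)))‖ ^ 2 ≤ Real.cosh (Real.pi * y) ^ 2 := by
    rw [h]
    nlinarith [sq_nonneg (Real.sin (Real.pi * x))]
  exact (pow_le_pow_iff_left₀ (norm_nonneg _) hc.le two_ne_zero).1 this

theorem norm_cos_ge (x y : ℝ) : Real.sinh (Real.pi * |y|) ≤ ‖Complex.cos ((Real.pi : ℂ) * mkC x y)‖ := by
  have h := Complex.sq_norm (Complex.cos ((Real.pi : ℂ) * mkC x y))
  rw [cos_mkC, Complex.normSq_apply, mkC_re, mkC_im] at h
  rw [cos_mkC]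
  have e1 := Real.sin_sq_add_cos_sq (Real.pi * x)
  have e2 := Real.cosh_sq (Real.pi * y)
  have e3 : Real.sinh (Real.pi * |y|) ^ 2 = Real.sinh (Real.pi * y) ^ 2 := by
    rcases abs_choice y with h1 | h1 <;> rw [h1]
    rw [mul_neg, Real.sinh_neg]; ring
  have : Real.sinh (Real.pi * |y|) ^ 2 ≤ ‖mkC (Real.cos (Real.pi * x) * Real.cosh (Real.pi * y))
      (-(Real.sin (Real.pi * x) * Real.sinh (Real.pi * y)))‖ ^ 2 := by
    rw [h, e3]
    nlinarith [sq_nonneg (Real.cos (Real.pi * x))]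
  exact le_of_sq_le_sq' this (norm_nonneg _)
where
  le_of_sq_le_sq' {a b : ℝ} (h : a ^ 2 ≤ b ^ 2) (hb : 0 ≤ b) : a ≤ b := by
    by_contra hc
    push Not at hc
    nlinarith

theorem Ut_zero_iff {b : ℝ} (hb : 0 < b) (hb1 : b ≤ 1) (x y : ℝ) :
    Ut b (mkC x y) = 0 ↔ y = 0 ∧ x ∈ Et b := by
  unfold Ut
  have hπ := Real.pi_pos
  rw [mul_eq_zero]
  have h0 : ¬ (1 / Real.pi = 0) := by positivity
  rw [or_iff_right h0, hJ_zero_iff, cos_mkC]
  have e : mkC (Real.cos (Real.pi * x) * Real.cosh (Real.pi * y))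
      (-(Real.sin (Real.pi * x) * Real.sinh (Real.pi * y))) / (b : ℂ)
      = mkC (Real.cos (Real.pi * x) * Real.cosh (Real.pi * y) / b)
      (-(Real.sin (Real.pi * x) * Real.sinh (Real.pi * y)) / b) := by
    unfold mkC; push_cast; ring
  rw [e, mkC_re, mkC_im]
  constructor
  · rintro ⟨h1, h2⟩
    have h3 : Real.sin (Real.pi * x) * Real.sinh (Real.pi * y) = 0 := by
      have := (div_eq_zero_iff.1 h1).resolve_right hb.ne'
      linarith
    rw [abs_div, abs_of_pos hb, div_le_one hb, abs_mul, abs_of_pos (Real.cosh_pos _)] at h2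
    by_cases hy : y = 0
    · refine ⟨hy, ?_⟩
      rw [hy] at h2
      simpa [Et] using h2
    · exfalso
      have h4 : Real.sinh (Real.pi * y) ≠ 0 := by
        rw [Ne, Real.sinh_eq_zero]; positivity
      have h5 : Real.sin (Real.pi * x) = 0 := (mul_eq_zero.1 h3).resolve_right h4
      have h6 : |Real.cos (Real.pi * x)| = 1 := by
        have := Real.sin_sq_add_cos_sq (Real.pi * x)
        rw [h5] at this
        have h7 : |Real.cos (Real.pi * x)| ^ 2 = 1 := by rw [sq_abs]; linarith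
        nlinarith [abs_nonneg (Real.cos (Real.pi * x))]
      rw [h6, one_mul] at h2
      have h7 : 1 < Real.cosh (Real.pi * y) := Real.one_lt_cosh.2 (by positivity)
      linarith
  · rintro ⟨rfl, h2⟩
    simp only [mul_zero, Real.sinh_zero, Real.cosh_zero, mul_one, neg_zero, zero_div, true_and]
    rw [abs_div, abs_of_pos hb, div_le_one hb]
    exact h2

theorem Ut_harm {b : ℝ} (hb : 0 < b) (hb1 : b ≤ 1) (z : ℂ) (h : z.im ≠ 0 ∨ z.re ∉ Et b) :
    HarmonicAt (Ut b) z := by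
  have h1 : ¬ (z.im = 0 ∧ z.re ∈ Et b) := by
    rintro ⟨a, c⟩
    rcases h with h | h
    · exact h a
    · exact h c
  rw [← Ut_zero_iff hb hb1, mkC_eta] at h1
  have h2 : hJ (Complex.cos ((Real.pi : ℂ) * z) / (b : ℂ)) ≠ 0 := by
    intro h3; apply h1; unfold Ut; rw [h3, mul_zero]
  rw [Ne, hJ_zero_iff] at h2
  have hG : AnalyticAt ℂ (fun z : ℂ => Complex.cos ((Real.pi : ℂ) * z) / (b : ℂ)) z := by
    have hd : Differentiable ℂ (fun z : ℂ => Complex.cos ((Real.pi : ℂ) * z) / (b : ℂ)) := by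
      fun_prop
    exact hd.analyticAt z
  have h3 := hJ_harm hG (by
    by_contra hc
    push Not at hc
    exact h2 hc)
  have := h3.const_smul (c := 1 / Real.pi)
  refine (harmonicAt_congr_nhds (Eventually.of_forall fun z => ?_)).1 this
  simp [Ut]

theorem Et_closed (b : ℝ) : IsClosed (Et b) := by
  unfold Et
  exact isClosed_le (by fun_prop) continuous_const

theorem Et_meets {b : ℝ} (hb : 0 < b) (a : ℝ) : ∃ e ∈ Et b, a ≤ e ∧ e ≤ a + 1 := by
  refine ⟨⌈a - 1 / 2⌉ + 1 / 2, ?_, ?_, ?_⟩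
  · show |Real.cos (Real.pi * (⌈a - 1 / 2⌉ + 1 / 2))| ≤ b
    have : Real.cos (Real.pi * (⌈a - 1 / 2⌉ + 1 / 2)) = 0 := by
      rw [Real.cos_eq_zero_iff]
      exact ⟨⌈a - 1 / 2⌉, by ring⟩
    rw [this, abs_zero]; exact hb.le
  · have := Int.le_ceil (a - 1 / 2); linarith
  · have := Int.ceil_lt_add_one (a - 1 / 2); linarith

theorem Ut_data {b : ℝ} (hb : 0 < b) (hb1 : b ≤ 1) : Data (Ut b) (Et b) where
  cont := Ut_cont
  nn := Ut_nn b
  zero := by
    intro t ht
    rw [← mkC_zero, Ut_zero_iff hb hb1]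
    exact ⟨rfl, ht⟩
  harm := Ut_harm hb hb1
  closed := Et_closed b
  meets := Et_meets hb

theorem Ut_per (b x y : ℝ) : Ut b (mkC (x + 1) y) = Ut b (mkC x y) := by
  unfold Ut
  have : Complex.cos ((Real.pi : ℂ) * mkC (x + 1) y) = - Complex.cos ((Real.pi : ℂ) * mkC x y) := by
    rw [← Complex.cos_add_pi]
    congr 1
    unfold mkC; push_cast; ring
  rw [this, neg_div, hJ_neg]

theorem Ut_even (b x y : ℝ) : Ut b (mkC (-x) y) = Ut b (mkC x y) := by
  unfold Ut
  have : Complex.cos ((Real.pi : ℂ) * mkC (-x) y) = (starRingEnd ℂ) (Complex.cos ((Real.pi : ℂ) * mkC x y)) := by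
    rw [cos_mkC, cos_mkC]
    apply Complex.ext
    · simp
    · simp
  rw [this]
  have e2 : (starRingEnd ℂ) (Complex.cos ((Real.pi : ℂ) * mkC x y)) / (b : ℂ)
      = (starRingEnd ℂ) (Complex.cos ((Real.pi : ℂ) * mkC x y) / (b : ℂ)) := by
    rw [map_div₀, Complex.conj_ofReal]
  rw [e2, hJ_conj]

theorem Ut_symm (b x y : ℝ) : Ut b (mkC x (-y)) = Ut b (mkC x y) := by
  unfold Ut
  have : Complex.cos ((Real.pi : ℂ) * mkC x (-y)) = (starRingEnd ℂ) (Complex.cos ((Real.pi : ℂ) * mkC x y)) := by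
    rw [cos_mkC, cos_mkC]
    apply Complex.ext
    · simp
    · simp
  rw [this]
  have e2 : (starRingEnd ℂ) (Complex.cos ((Real.pi : ℂ) * mkC x y)) / (b : ℂ)
      = (starRingEnd ℂ) (Complex.cos ((Real.pi : ℂ) * mkC x y) / (b : ℂ)) := by
    rw [map_div₀, Complex.conj_ofReal]
  rw [e2, hJ_conj]

theorem Ut_real_le {b : ℝ} (hb : 0 < b) (hb1 : b ≤ 1) (x : ℝ) :
    Ut b (x : ℂ) ≤ (1 / Real.pi) * Real.arcosh (1 / b) := by
  unfold Ut
  have hπ := Real.pi_pos
  apply mul_le_mul_of_nonneg_left _ (by positivity)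
  have e : Complex.cos ((Real.pi : ℂ) * (x : ℂ)) / (b : ℂ) = ((Real.cos (Real.pi * x) / b : ℝ) : ℂ) := by
    push_cast; rfl
  rw [e]
  apply hJ_real_le (by rw [one_le_div hb]; exact hb1)
  rw [abs_div, abs_of_pos hb]
  gcongr
  exact Real.abs_cos_le_one _

theorem Ut_origin {b : ℝ} (hb : 0 < b) (hb1 : b ≤ 1) :
    Ut b 0 = (1 / Real.pi) * Real.arcosh (1 / b) := by
  unfold Ut
  rw [mul_zero, Complex.cos_zero, ← Complex.ofReal_one, ← Complex.ofReal_div, hJ_real_eq]
  rw [one_le_div hb]; exact hb1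

/-- size of the extremal function -/
theorem Ut_up {b : ℝ} (hb : 0 < b) (hb1 : b ≤ 1) (x y : ℝ) :
    Ut b (mkC x y) ≤ |y| + (1 / Real.pi) * Real.log (4 / b) := by
  unfold Ut
  have hπ := Real.pi_pos
  have h1 := hJ_up (Complex.cos ((Real.pi : ℂ) * mkC x y) / (b : ℂ))
  have h2 : ‖Complex.cos ((Real.pi : ℂ) * mkC x y) / (b : ℂ)‖ ≤ Real.cosh (Real.pi * y) / b := by
    rw [norm_div, Complex.norm_real, Real.norm_eq_abs, abs_of_pos hb]
    gcongr
    exact norm_cos_le x y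
  have h3 : Real.cosh (Real.pi * y) ≤ Real.exp (Real.pi * |y|) := by
    have := Real.cosh_abs (Real.pi * y)
    rw [abs_mul, abs_of_pos hπ] at this
    rw [← this, Real.cosh_eq]
    have h4 : Real.exp (-(Real.pi * |y|)) ≤ Real.exp (Real.pi * |y|) :=
      Real.exp_le_exp.2 (by have : 0 ≤ Real.pi * |y| := by positivity
                            linarith)
    linarith
  have h4 : 1 ≤ Real.exp (Real.pi * |y|) / b := by
    rw [one_le_div hb]
    exact hb1.trans (Real.one_le_exp (by positivity))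
  have h5 : 2 * (‖Complex.cos ((Real.pi : ℂ) * mkC x y) / (b : ℂ)‖ + 1)
      ≤ Real.exp (Real.pi * |y|) * (4 / b) := by
    have h6 : Real.cosh (Real.pi * y) / b ≤ Real.exp (Real.pi * |y|) / b := by gcongr
    have h7 : Real.exp (Real.pi * |y|) * (4 / b) = 4 * (Real.exp (Real.pi * |y|) / b) := by ring
    rw [h7]; linarith
  have h6 : Real.log (2 * (‖Complex.cos ((Real.pi : ℂ) * mkC x y) / (b : ℂ)‖ + 1))
      ≤ Real.pi * |y| + Real.log (4 / b) := by
    have := Real.log_le_log (by positivity) h5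
    rwa [Real.log_mul (Real.exp_pos _).ne' (by positivity), Real.log_exp] at this
  calc 1 / Real.pi * hJ (Complex.cos ((Real.pi : ℂ) * mkC x y) / (b : ℂ))
      ≤ 1 / Real.pi * (Real.pi * |y| + Real.log (4 / b)) := by
        apply mul_le_mul_of_nonneg_left (h1.trans h6) (by positivity)
    _ = |y| + (1 / Real.pi) * Real.log (4 / b) := by field_simp

theorem Ut_low {b : ℝ} (hb : 0 < b) (hb1 : b ≤ 1) (x y : ℝ) :
    |y| - 1 ≤ Ut b (mkC x y) := by
  rcases le_or_gt |y| 1 with hy | hy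
  · linarith [Ut_nn b (mkC x y)]
  unfold Ut
  have hπ := Real.pi_pos
  have hπ3 := Real.pi_gt_three
  set N := ‖Complex.cos ((Real.pi : ℂ) * mkC x y) / (b : ℂ)‖ with hN
  have h2 : Real.sinh (Real.pi * |y|) ≤ N := by
    rw [hN, norm_div, Complex.norm_real, Real.norm_eq_abs, abs_of_pos hb, le_div_iff₀ hb]
    refine le_trans ?_ (norm_cos_ge x y)
    have : 0 ≤ Real.sinh (Real.pi * |y|) := Real.sinh_nonneg_iff.2 (by positivity)
    nlinarith
  have h3 : Real.exp (Real.pi * (|y| - 1)) ≤ Real.sinh (Real.pi * |y|) := by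
    rw [Real.sinh_eq]
    have e1 : Real.exp (Real.pi * |y|) = Real.exp (Real.pi * (|y| - 1)) * Real.exp Real.pi := by
      rw [← Real.exp_add]; congr 1; ring
    have e2 : Real.exp (-(Real.pi * |y|)) ≤ 1 := Real.exp_le_one_iff.2 (by
      have : 0 ≤ Real.pi * |y| := by positivity
      linarith)
    have e3 : 4 ≤ Real.exp Real.pi := by
      have := Real.add_one_le_exp Real.pi
      linarith
    have e4 : 1 ≤ Real.exp (Real.pi * (|y| - 1)) := Real.one_le_exp (by
      apply mul_nonneg hπ.le; linarith)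
    rw [e1]
    nlinarith
  have h4 : 0 < N := lt_of_lt_of_le (Real.exp_pos _) (h3.trans h2)
  have h5 : Real.pi * (|y| - 1) ≤ Real.log N := by
    rw [Real.le_log_iff_exp_le h4]; exact h3.trans h2
  have h6 := hJ_low (Complex.cos ((Real.pi : ℂ) * mkC x y) / (b : ℂ)) h4
  calc |y| - 1 = 1 / Real.pi * (Real.pi * (|y| - 1)) := by field_simp
    _ ≤ 1 / Real.pi * hJ (Complex.cos ((Real.pi : ℂ) * mkC x y) / (b : ℂ)) := by
        apply mul_le_mul_of_nonneg_left (h5.trans h6) (by positivity)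

end Pool.Agent.U591.LV
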