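import Pool.Agent.U591.LV.Cmp
import Pool.Agent.U591.LV.Tilde

set_option autoImplicit false

open MeasureTheory Set Filter Topology Complex InnerProductSpace

namespace Pool.Agent.U591.LV

variable {U : ℂ → ℝ} {E : Set ℝ}

section tilde

variable {g : ℝ}

theorem bpos (hg0 : 0 < g) (hg : g < 1 / 2) : 0 < Real.cos (Real.pi * g) := by
  have hπ := Real.pi_pos
  apply Real.cos_pos_of_mem_Ioo
  constructor <;> nlinarith

theorem cos_gt (hg : g < 1 / 2) {x : ℝ} (hx : |x| < g) :
    Real.cos (Real.pi * g) < Real.cos (Real.pi * x) := by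
  have hπ := Real.pi_pos
  rw [← Real.cos_abs (Real.pi * x), abs_mul, abs_of_pos hπ]
  have h0 := abs_nonneg x
  apply Real.cos_lt_cos_of_nonneg_of_le_pi
  · positivity
  · nlinarith
  · nlinarith

theorem notMem_Et (hg0 : 0 < g) (hg : g < 1 / 2) {x : ℝ} (hx : |x| < g) :
    x ∉ Et (Real.cos (Real.pi * g)) := by
  intro h
  have h1 : |Real.cos (Real.pi * x)| ≤ Real.cos (Real.pi * g) := h
  have h2 := cos_gt hg hx
  have h3 := le_abs_self (Real.cos (Real.pi * x))
  linarith

theorem mem_Et (hg0 : 0 < g) (hg : g < 1 / 2) {x : ℝ} (hx : g ≤ x) (hx1 : x ≤ 1 - g) :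
    x ∈ Et (Real.cos (Real.pi * g)) := by
  have hπ := Real.pi_pos
  show |Real.cos (Real.pi * x)| ≤ Real.cos (Real.pi * g)
  rw [abs_le]
  constructor
  · have : -Real.cos (Real.pi * g) = Real.cos (Real.pi * (1 - g)) := by
      rw [← Real.cos_pi_sub]; congr 1; ring
    rw [this]
    apply Real.cos_le_cos_of_nonneg_of_le_pi <;> nlinarith
  · apply Real.cos_le_cos_of_nonneg_of_le_pi <;> nlinarith

theorem Ut_zero_gap (hg0 : 0 < g) (hg : g < 1 / 2) {x : ℝ} (hx : g ≤ |x|) (hx1 : |x| ≤ 1 - g) :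
    Ut (Real.cos (Real.pi * g)) (mkC x 0) = 0 := by
  have h1 : Ut (Real.cos (Real.pi * g)) (mkC |x| 0) = 0 := by
    rw [Ut_zero_iff (bpos hg0 hg) (Real.cos_le_one _)]
    exact ⟨rfl, mem_Et hg0 hg hx hx1⟩
  rcases abs_choice x with h | h
  · rwa [h] at h1
  · rwa [h, Ut_even] at h1

theorem MUt_zero (b y : ℝ) : MU (Ut b) (mkC 0 y) = 0 := by
  unfold MU; simp

theorem MUt_nn (b : ℝ) {x : ℝ} (hx : 0 ≤ x) (y : ℝ) : 0 ≤ MU (Ut b) (mkC x y) := by
  unfold MU
  apply intervalIntegral.integral_nonneg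
  · simp; linarith
  · intro t _; exact Ut_nn b _

theorem MUt_mono (b : ℝ) {x x' : ℝ} (y : ℝ) (hx : 0 ≤ x') (h : x' ≤ x) :
    MU (Ut b) (mkC x' y) ≤ MU (Ut b) (mkC x y) := by
  unfold MU
  simp only [mkC_re, mkC_im]
  apply intervalIntegral.integral_mono_interval (by linarith) (by linarith) h
  · exact Eventually.of_forall fun t => Ut_nn b _
  · exact (cont2 Ut_cont (f := fun t : ℝ => t) (g := fun _ : ℝ => y) (by fun_prop)
      (by fun_prop)).intervalIntegrable _ _

theorem MUt_mv (hg0 : 0 < g) (hg : g < 1 / 2) {z : ℂ} (hz : 0 < z.re)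
    (h : z.im ≠ 0 ∨ z.re < g) :
    ∃ r0 : ℝ, 0 < r0 ∧ ∀ r, 0 < r → r < r0 →
      Real.circleAverage (MU (Ut (Real.cos (Real.pi * g)))) z r
        = MU (Ut (Real.cos (Real.pi * g))) z := by
  have D := Ut_data (bpos hg0 hg) (Real.cos_le_one (Real.pi * g))
  by_cases hi : z.im = 0
  · have hzg : z.re < g := by rcases h with h | h; exact absurd hi h; exact h
    refine ⟨g - z.re, by linarith, fun r hr hrr => ?_⟩
    apply MU_mv D.cont
    intro t ht
    rw [abs_of_pos hz] at ht
    have := D.mv (mkC t z.im) r hr (by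
      intro w hw
      right
      apply notMem_Et hg0 hg
      rw [Metric.mem_closedBall, dist_eq_norm] at hw
      have h1 := Complex.abs_re_le_norm (w - mkC t z.im)
      rw [sub_re, mkC_re] at h1
      have h2 : |w.re| ≤ |w.re - t| + |t| := by
        have := abs_add_le (w.re - t) t
        simpa using this
      linarith)
    rwa [mkC_re, mkC_im] at this
  · refine ⟨|z.im|, abs_pos.2 hi, fun r hr hrr => ?_⟩
    apply MU_mv D.cont
    intro t ht
    have := D.mv (mkC t z.im) r hr (by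
      intro w hw
      left
      intro h0
      rw [Metric.mem_closedBall, dist_eq_norm] at hw
      have h1 := Complex.abs_im_le_norm (w - mkC t z.im)
      rw [sub_im, mkC_im, h0, zero_sub, abs_neg] at h1
      linarith)
    rwa [mkC_re, mkC_im] at this

theorem MUt_slit (hg0 : 0 < g) (hg : g < 1 / 2) {x : ℝ} (hx : g ≤ x) (hx1 : x ≤ 1 / 2) :
    MU (Ut (Real.cos (Real.pi * g))) (mkC x 0) = MU (Ut (Real.cos (Real.pi * g))) (mkC (1 / 2) 0) := by
  unfold MU
  simp only [mkC_re, mkC_im]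
  have hi : ∀ a b : ℝ, IntervalIntegrable (fun t => Ut (Real.cos (Real.pi * g)) (mkC t 0)) volume a b := by
    intro a b
    apply Continuous.intervalIntegrable
    exact cont2 Ut_cont continuous_id continuous_const
  have e1 := intervalIntegral.integral_add_adjacent_intervals (hi (-(1/2)) (-x)) (hi (-x) x)
  have e2 := intervalIntegral.integral_add_adjacent_intervals (hi (-(1/2)) x) (hi x (1/2))
  have z1 : ∫ t in (-(1/2))..(-x), Ut (Real.cos (Real.pi * g)) (mkC t 0) = 0 := by
    rw [intervalIntegral.integral_congr (g := fun _ => (0:ℝ))]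
    · simp
    · intro t ht
      rw [uIcc_of_le (by linarith)] at ht
      have h1 : |t| = -t := abs_of_nonpos (by linarith [ht.2])
      exact Ut_zero_gap hg0 hg (by rw [h1]; linarith [ht.2]) (by rw [h1]; linarith [ht.1])
  have z2 : ∫ t in x..(1/2), Ut (Real.cos (Real.pi * g)) (mkC t 0) = 0 := by
    rw [intervalIntegral.integral_congr (g := fun _ => (0:ℝ))]
    · simp
    · intro t ht
      rw [uIcc_of_le (by linarith)] at ht
      have h1 : |t| = t := abs_of_nonneg (by linarith [ht.1])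
      exact Ut_zero_gap hg0 hg (by rw [h1]; linarith [ht.1]) (by rw [h1]; linarith [ht.2])
  rw [← e2, ← e1, z1, z2]; ring

theorem MUt_le (hg0 : 0 < g) (hg : g < 1 / 2) {x : ℝ} (hx : 0 ≤ x) :
    MU (Ut (Real.cos (Real.pi * g))) (mkC x 0) ≤ 2 * x * Ut (Real.cos (Real.pi * g)) 0 := by
  unfold MU
  simp only [mkC_re, mkC_im]
  have h1 : ∫ t in (-x)..x, Ut (Real.cos (Real.pi * g)) (mkC t 0)
      ≤ ∫ t in (-x)..x, Ut (Real.cos (Real.pi * g)) 0 := by
    apply intervalIntegral.integral_mono_on (by linarith)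
    · exact (cont2 Ut_cont (f := fun t : ℝ => t) (g := fun _ : ℝ => (0:ℝ)) (by fun_prop)
        (by fun_prop)).intervalIntegrable _ _
    · simp
    · intro t _
      rw [Ut_origin (bpos hg0 hg) (Real.cos_le_one _), mkC_zero]
      exact Ut_real_le (bpos hg0 hg) (Real.cos_le_one _) t
  refine h1.trans (le_of_eq ?_)
  rw [intervalIntegral.integral_const, smul_eq_mul]; ring

theorem fUt_eq (b c y : ℝ) : fU (Ut b) (mkC c y) = MU (Ut b) (mkC (1 / 2) y) := by
  unfold fU MU
  simp only [mkC_re, mkC_im]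
  have hp : Function.Periodic (fun t : ℝ => Ut b (mkC t y)) 1 := fun t => Ut_per b t y
  have h1 := hp.intervalIntegral_add_eq c (-(1/2))
  have h2 : ∫ t in (0:ℝ)..1, Ut b (mkC (c + t) y) = ∫ t in c..c + 1, Ut b (mkC t y) := by
    rw [intervalIntegral.integral_comp_add_left (fun t => Ut b (mkC t y)) c, add_zero]
  rw [h2, h1]
  norm_num

theorem fUt_low (hg0 : 0 < g) (hg : g < 1 / 2) (c y : ℝ) :
    |y| - 1 ≤ fU (Ut (Real.cos (Real.pi * g))) (mkC c y) := by
  unfold fU
  simp only [mkC_re, mkC_im]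
  have h1 : ∫ t in (0:ℝ)..1, (|y| - 1) ≤ ∫ t in (0:ℝ)..1, Ut (Real.cos (Real.pi * g)) (mkC (c + t) y) := by
    apply intervalIntegral.integral_mono_on zero_le_one
    · simp
    · exact (cont2 Ut_cont (f := fun t : ℝ => c + t) (g := fun _ : ℝ => y) (by fun_prop)
        (by fun_prop)).intervalIntegrable _ _
    · intro t _
      exact Ut_low (bpos hg0 hg) (Real.cos_le_one _) _ _
  simpa using h1

end tilde

/-- mean value property of window averages off the axis -/
theorem fU_mv_up (D : Data U E) {z : ℂ} {r : ℝ} (hr : 0 < r) (hrz : r < |z.im|) :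
    Real.circleAverage (fU U) z r = fU U z := by
  apply fU_mv D.cont
  intro t _
  have h1 : HarmonicOnNhd U (Metric.closedBall (mkC (z.re + t) z.im) |r|) := by
    rw [abs_of_pos hr]
    intro w hw
    apply D.harm
    left
    intro h0
    rw [Metric.mem_closedBall, dist_eq_norm] at hw
    have h1 := Complex.abs_im_le_norm (w - mkC (z.re + t) z.im)
    rw [sub_im, mkC_im, h0, zero_sub, abs_neg] at h1
    linarith
  exact h1.circleAverage_eq

theorem half_bound (D : Data U E) (hsym : ∀ x y, U (mkC x (-y)) = U (mkC x y)) {g : ℝ}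
    (hg0 : 0 < g) (hg : g < 1 / 2) {C : ℝ} (hC : ∀ c y, fU U (mkC c y) ≤ C + |y|) {m : ℝ}
    (hm : ∀ c, fU U (mkC c 0) ≤ m) {κ : ℝ} (hκ0 : 0 ≤ κ)
    (hκ : m - MU (Ut (Real.cos (Real.pi * g))) (mkC (1 / 2) 0) ≤ κ) :
    ∀ c y, fU U (mkC c y) ≤ MU (Ut (Real.cos (Real.pi * g))) (mkC (1 / 2) y) + κ := by
  set b := Real.cos (Real.pi * g) with hb
  have D' : Data (Ut b) (Et b) := Ut_data (bpos hg0 hg) (Real.cos_le_one (Real.pi * g))
  have cU := fU_cont D.cont
  have cT := fU_cont D'.cont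
  set v : ℂ → ℝ := fun z => fU U z - 1 * (fU (Ut b) z + κ) with hv
  have key := PL_half v (by fun_prop) ?_ (C + 1) ?_ ?_
  · have hup : ∀ c y, 0 ≤ y → fU U (mkC c y) ≤ MU (Ut b) (mkC (1 / 2) y) + κ := by
      intro c y hy
      have := key (mkC c y) (by simpa using hy)
      simp only [hv] at this
      rw [fUt_eq] at this
      linarith
    intro c y
    rcases le_total 0 y with h | h
    · exact hup c y h
    · have := hup c (-y) (by linarith)
      have e1 : fU U (mkC c (-y)) = fU U (mkC c y) := by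
        unfold fU; simp only [mkC_re, mkC_im, hsym]
      have e2 : MU (Ut b) (mkC (1/2) (-y)) = MU (Ut b) (mkC (1/2) y) := by
        unfold MU; simp only [mkC_re, mkC_im, Ut_symm]
      rwa [e1, e2] at this
  · intro z hz
    refine ⟨z.im, hz, fun r hr hrz => ?_⟩
    have hz' : r < |z.im| := by rwa [abs_of_pos hz]
    have c1 : CircleIntegrable (fU U) z r := cU.continuousOn.circleIntegrable hr.le
    have c2 : CircleIntegrable (fU (Ut b)) z r := cT.continuousOn.circleIntegrable hr.le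
    have c3 : CircleIntegrable (fun z => fU (Ut b) z + κ) z r :=
      (cT.add continuous_const).continuousOn.circleIntegrable hr.le
    have c4 : CircleIntegrable (fun _ : ℂ => κ) z r := continuousOn_const.circleIntegrable hr.le
    rw [hv, ca_sub_mul c1 c3, Real.circleAverage_fun_add c2 c4, fU_mv_up D hr hz',
      fU_mv_up D' hr hz', Real.circleAverage_const]
  · intro z hz
    have h1 := hC z.re z.im
    have h2 := fUt_low hg0 hg z.re z.im
    rw [mkC_eta] at h1 h2
    simp only [hv]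
    linarith
  · intro z hz
    have h1 := hm z.re
    have e : mkC z.re 0 = z := by rw [← hz, mkC_eta]
    have h2 := fUt_eq b z.re 0
    rw [e] at h1 h2
    simp only [hv]
    rw [h2]; linarith

theorem core_kappa (D : Data U E) (hsym : ∀ x y, U (mkC x (-y)) = U (mkC x y)) {g : ℝ}
    (hg0 : 0 < g) (hg : g < 1 / 2) {C : ℝ} (hC : ∀ c y, fU U (mkC c y) ≤ C + |y|) {m : ℝ}
    (hm : ∀ c, fU U (mkC c 0) ≤ m) {κ : ℝ} (hκ0 : 0 ≤ κ)
    (hκ : m - MU (Ut (Real.cos (Real.pi * g))) (mkC (1 / 2) 0) ≤ κ)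
    {A η : ℝ} (hA : A = 1 / (1 / 2 - g)) (hη : η = 1 / (1 + A)) :
    ∀ c x y, 0 ≤ x → x ≤ 1 / 2 → ∀ f, Dens f → ∫ t, f t ≤ 2 * x →
      ∫ t, f t * U (mkC (c + t) y) ≤ MU (Ut (Real.cos (Real.pi * g))) (mkC x y)
        + κ * (1 - η * (b0 g (mkC x y) + A * (g - x))) := by
  intro c x y hx0 hx1 f hf hfm
  set b := Real.cos (Real.pi * g) with hb
  have hhb := half_bound D hsym hg0 hg hC hm hκ0 hκ
  have hfUe : ∀ c y, ∫ t in (0:ℝ)..1, U (mkC (c + t) y) = fU U (mkC c y) := by
    intro c y; unfold fU; simp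
  set C0 : ℝ := max C 0 with hC0
  have hC0n : 0 ≤ C0 := le_max_right _ _
  have hCC : C ≤ C0 := le_max_left _ _
  apply le_of_forall_pos_le_add
  intro e he
  set Q : ℝ := |y ^ 2 + 10 - 2 * (1 - x) ^ 2| + c ^ 2 + 1 with hQ
  have hQ0 : 0 < Q := by positivity
  set ε : ℝ := e / Q with hε
  have hε0 : 0 < ε := by positivity
  set Y : ℝ := (C0 + 1) / ε + 1 + |y| with hY
  have hY1 : 1 ≤ Y := by have : 0 ≤ (C0 + 1) / ε := by positivity
                         have := abs_nonneg y; linarith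
  have hYy : |y| ≤ Y := by have : 0 ≤ (C0 + 1) / ε := by positivity
                           linarith
  have hYε : C0 + Y ≤ ε * Y ^ 2 := by
    have h1 : C0 + 1 ≤ ε * Y := by
      have h2 : (C0 + 1) / ε ≤ Y := by have := abs_nonneg y; linarith
      rw [div_le_iff₀ hε0] at h2; linarith
    have h2 : (C0 + 1) * Y ≤ ε * Y * Y := by nlinarith
    nlinarith
  set L : ℝ := 2 * (C0 + Y) / ε + 1 + |c| with hL
  have hL1 : 1 ≤ L := by have : 0 ≤ 2 * (C0 + Y) / ε := by positivity
                         have := abs_nonneg c; linarith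
  have hLc : |c| ≤ L := by have : 0 ≤ 2 * (C0 + Y) / ε := by positivity
                           linarith
  have hLε : C0 + Y ≤ ε / 2 * L ^ 2 := by
    have h1 : 2 * (C0 + Y) ≤ ε * L := by
      have h2 : 2 * (C0 + Y) / ε ≤ L := by have := abs_nonneg c; linarith
      rw [div_le_iff₀ hε0] at h2; linarith
    have h2 : 2 * (C0 + Y) * 1 ≤ ε * L * L := by
      apply mul_le_mul h1 hL1 zero_le_one (by positivity)
    nlinarith
  have hmain := star_cmp D hg0 hg (MU (Ut b)) (MU_cont Ut_cont) (fun y => (MUt_zero b y).ge)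
    (fun z hz _ hzD => MUt_mv hg0 hg hz hzD)
    (fun x s hs hsx _ => MUt_mono b 0 (by linarith) (by linarith))
    (κ := κ) (ε := ε) (L := L) (Y := Y) hκ0 hε0 (by linarith) (by linarith)
    ?_ ?_ ?_ ?_ hA hη c x y hLc hx0 hx1 hYy f hf hfm
  · have h1 : ε * (y ^ 2 + 10 - 2 * (1 - x) ^ 2) + ε / 2 * c ^ 2 ≤ e := by
      have h2 : y ^ 2 + 10 - 2 * (1 - x) ^ 2 ≤ |y ^ 2 + 10 - 2 * (1 - x) ^ 2| := le_abs_self _
      have h3 : ε * Q = e := by rw [hε]; field_simp
      have h4 : (y ^ 2 + 10 - 2 * (1 - x) ^ 2) + c ^ 2 / 2 ≤ Q := by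
        have := sq_nonneg c; linarith
      have h5 : ε * ((y ^ 2 + 10 - 2 * (1 - x) ^ 2) + c ^ 2 / 2) ≤ ε * Q :=
        mul_le_mul_of_nonneg_left h4 hε0.le
      linarith
    linarith
  · intro c y _ _
    rw [hfUe]
    have := hhb c y
    have : 0 ≤ ε * y ^ 2 := by positivity
    linarith
  · intro c x _ hgx hx1
    rw [hfUe, MUt_slit hg0 hg hgx hx1]
    have := hm c
    linarith
  · intro c x y _ hx0 _ hy
    rw [hfUe]
    have h1 := hC c y
    rw [hy] at h1
    have h2 := MUt_nn b hx0 y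
    linarith
  · intro c x y _ hx0 _ hy
    rw [hfUe]
    have h1 := hC c y
    have h2 := MUt_nn b hx0 y
    linarith

/-- the density supported where the function is positive -/
theorem dens_supp (D : Data U E) {g x : ℝ} (hg0 : 0 < g) (hx0 : 0 ≤ x) (hx : x ≤ g) (c : ℝ)
    (hδ : ENNReal.ofReal (1 - 2 * g) ≤ volume (E ∩ Icc c (c + 1))) :
    ∃ f, Dens f ∧ ∫ t, f t ≤ 2 * x ∧ ∫ t, f t * U (mkC (c + t) 0) = x / g * fU U (mkC c 0) := by
  set S : Set ℝ := Icc (0:ℝ) 1 ∩ {t | 0 < U (mkC (c + t) 0)} with hS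
  have hUc : Continuous (fun t : ℝ => U (mkC (c + t) 0)) := D.gcont c 0
  have hSm : MeasurableSet S := measurableSet_Icc.inter (isOpen_lt continuous_const hUc).measurableSet
  have hSI : S ⊆ Icc (0:ℝ) 1 := inter_subset_left
  have hxg : x / g ≤ 1 := (div_le_one hg0).2 hx
  have hxg0 : 0 ≤ x / g := by positivity
  have hvol : volume.real S ≤ 2 * g := by
    set T : Set ℝ := (fun t => c + t) ⁻¹' (E ∩ Icc c (c + 1)) with hT
    have hTv : volume T = volume (E ∩ Icc c (c + 1)) := measure_preimage_add volume c _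
    have hTm : MeasurableSet T := by
      apply (measurable_const_add c)
      exact D.closed.measurableSet.inter measurableSet_Icc
    have hTI : T ⊆ Icc (0:ℝ) 1 := by
      rintro t ⟨_, h1, h2⟩
      exact ⟨by linarith, by linarith⟩
    have hdis : Disjoint S T := by
      rw [Set.disjoint_left]
      rintro t ⟨_, h1⟩ ⟨h2, _⟩
      have h3 : 0 < U (mkC (c + t) 0) := h1
      rw [mkC_zero, D.zero _ h2] at h3
      exact lt_irrefl _ h3
    have h1 : volume (S ∪ T) ≤ volume (Icc (0:ℝ) 1) := measure_mono (union_subset hSI hTI)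
    rw [measure_union hdis hTm, Real.volume_Icc, sub_zero, ENNReal.ofReal_one, hTv] at h1
    have h2 : volume S + ENNReal.ofReal (1 - 2 * g) ≤ 1 := (add_le_add_right hδ _).trans h1
    have hSfin : volume S ≠ ⊤ := by
      intro h; rw [h] at h2; simp at h2
    have h3 := ENNReal.toReal_mono (by simp) h2
    rw [ENNReal.toReal_add hSfin ENNReal.ofReal_ne_top, ENNReal.toReal_one] at h3
    have h4 : 1 - 2 * g ≤ (ENNReal.ofReal (1 - 2 * g)).toReal := by
      rw [ENNReal.toReal_ofReal']; exact le_max_left _ _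
    have : volume.real S = (volume S).toReal := rfl
    linarith
  refine ⟨S.indicator (fun _ => x / g), ?_, ?_, ?_⟩
  · refine ⟨measurable_const.indicator hSm, fun t => ?_, fun t => ?_, fun t ht => ?_⟩
    · exact indicator_nonneg (fun _ _ => hxg0) t
    · by_cases h : t ∈ S
      · rw [indicator_of_mem h]; exact hxg
      · rw [indicator_of_notMem h]; exact zero_le_one
    · exact indicator_of_notMem (fun h => ht (hSI h)) _
  · rw [integral_indicator_const _ hSm, smul_eq_mul]
    calc volume.real S * (x / g) ≤ (2 * g) * (x / g) := by gcongr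
      _ = 2 * x := by field_simp
  · have e1 : (fun t => S.indicator (fun _ => x / g) t * U (mkC (c + t) 0))
        = (Icc (0:ℝ) 1).indicator (fun t => x / g * U (mkC (c + t) 0)) := by
      ext t
      by_cases h : t ∈ S
      · rw [indicator_of_mem h, indicator_of_mem (hSI h)]
      · rw [indicator_of_notMem h, zero_mul]
        by_cases h2 : t ∈ Icc (0:ℝ) 1
        · rw [indicator_of_mem h2]
          have h3 : ¬ 0 < U (mkC (c + t) 0) := fun h4 => h ⟨h2, h4⟩
          have h5 := D.nn (mkC (c + t) 0)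
          have h6 : U (mkC (c + t) 0) = 0 := by linarith
          rw [h6, mul_zero]
        · rw [indicator_of_notMem h2]
    rw [e1, integral_indicator measurableSet_Icc, integral_Icc_eq_integral_Ioc,
      ← intervalIntegral.integral_of_le zero_le_one, intervalIntegral.integral_const_mul]
    unfold fU
    simp only [mkC_re, mkC_im]

/-- main comparison theorem -/
theorem core_main (D : Data U E) (hsym : ∀ x y, U (mkC x (-y)) = U (mkC x y)) {g : ℝ}
    (hg0 : 0 < g) (hg : g < 1 / 2) {C : ℝ} (hC : ∀ c y, fU U (mkC c y) ≤ C + |y|)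
    (hδ : ∀ a : ℝ, ENNReal.ofReal (1 - 2 * g) ≤ volume (E ∩ Icc a (a + 1))) :
    ∀ c x y, 0 ≤ x → x ≤ 1 / 2 → ∀ f, Dens f → ∫ t, f t ≤ 2 * x →
      ∫ t, f t * U (mkC (c + t) y) ≤ MU (Ut (Real.cos (Real.pi * g))) (mkC x y) := by
  set b := Real.cos (Real.pi * g) with hb
  set mt := MU (Ut b) (mkC (1 / 2) 0) with hmt
  set m0 : ℝ := sSup (range fun c => fU U (mkC c 0)) with hm0
  have hbdd : BddAbove (range fun c => fU U (mkC c 0)) := by
    refine ⟨C + |0|, ?_⟩
    rintro _ ⟨c, rfl⟩
    exact hC c 0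
  have hm : ∀ c, fU U (mkC c 0) ≤ m0 := fun c => le_csSup hbdd ⟨c, rfl⟩
  have hmt0 : 0 ≤ mt := MUt_nn b (by norm_num) 0
  have hle : m0 ≤ mt := by
    by_contra hcon
    push Not at hcon
    set κ : ℝ := m0 - mt with hκ
    have hκ0 : 0 < κ := by linarith
    have hm00 : 0 < m0 := by linarith
    set A : ℝ := 1 / (1 / 2 - g) with hA
    set η : ℝ := 1 / (1 + A) with hη
    have hA0 : 0 < A := by rw [hA]; apply one_div_pos.2; linarith
    have hη0 : 0 < η := by positivity
    have hmain := core_kappa D hsym hg0 hg hC hm hκ0.le (le_refl _) hA hη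
    set q : ℝ := κ * η * g / (2 * m0) with hq
    have hq0 : 0 < q := by positivity
    set h : ℝ := min (g / 2) (q ^ 2) with hh
    have hh0 : 0 < h := lt_min (by linarith) (by positivity)
    have hh1 : h ≤ g / 2 := min_le_left _ _
    have hh2 : h ≤ q ^ 2 := min_le_right _ _
    set x : ℝ := g - h with hx
    have hx0 : 0 < x := by linarith
    have hxg : x ≤ g := by linarith
    set β := b0 g (mkC x 0) with hβ
    have hβ0 : 0 ≤ β := b0_nn _ _
    have hβ2 : h / 2 ≤ β ^ 2 := by
      rw [hβ, b0_gap hx0.le hxg, Real.sq_sqrt (div_nonneg (by linarith) (by linarith))]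
      rw [div_le_div_iff₀ (by norm_num) (by linarith)]
      have : g - x = h := by linarith
      rw [this]
      nlinarith
    have hstep : ∀ c, x / g * fU U (mkC c 0) ≤ mt + κ * (1 - η * β) := by
      intro c
      obtain ⟨f, hf, hfm, hfe⟩ := dens_supp D hg0 hx0.le hxg c (hδ c)
      have h1 := hmain c x 0 hx0.le (by linarith) f hf hfm
      rw [hfe] at h1
      have h2 : MU (Ut b) (mkC x 0) ≤ mt := MUt_mono b 0 hx0.le (by linarith)
      have h3 : κ * (1 - η * (b0 g (mkC x 0) + A * (g - x))) ≤ κ * (1 - η * β) := by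
        apply mul_le_mul_of_nonneg_left _ hκ0.le
        have : 0 ≤ A * (g - x) := mul_nonneg hA0.le (by linarith)
        have : η * β ≤ η * (b0 g (mkC x 0) + A * (g - x)) := by
          apply mul_le_mul_of_nonneg_left _ hη0.le
          linarith
        linarith
      linarith
    have hsup : x / g * m0 ≤ mt + κ * (1 - η * β) := by
      have hpos : 0 < x / g := by positivity
      have : m0 ≤ (mt + κ * (1 - η * β)) / (x / g) := by
        apply csSup_le (range_nonempty _)
        rintro _ ⟨c, rfl⟩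
        rw [le_div_iff₀ hpos, mul_comm]
        exact hstep c
      rw [le_div_iff₀ hpos] at this
      linarith
    have h1 : κ * η * β ≤ m0 * h / g := by
      have e1 : x / g = 1 - h / g := by rw [hx]; field_simp
      rw [e1] at hsup
      have e2 : m0 * h / g = h / g * m0 := by ring
      rw [e2]
      have : mt = m0 - κ := by rw [hκ]; ring
      rw [this] at hsup
      nlinarith
    have h2 : (κ * η * β) ^ 2 ≤ (m0 * h / g) ^ 2 := by
      apply pow_le_pow_left₀ (by positivity) h1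
    have h3 : (κ * η) ^ 2 * (h / 2) ≤ (m0 * h / g) ^ 2 := by
      have : (κ * η) ^ 2 * (h / 2) ≤ (κ * η) ^ 2 * β ^ 2 := mul_le_mul_of_nonneg_left hβ2 (by positivity)
      have e : (κ * η) ^ 2 * β ^ 2 = (κ * η * β) ^ 2 := by ring
      linarith
    have h4 : m0 ^ 2 * h ≤ (κ * η * g) ^ 2 / 4 := by
      have h5 : m0 ^ 2 * h ≤ m0 ^ 2 * q ^ 2 := mul_le_mul_of_nonneg_left hh2 (by positivity)
      have h6 : m0 ^ 2 * q ^ 2 = (κ * η * g) ^ 2 / 4 := by rw [hq]; field_simp; ring
      linarith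
    have h5 : (κ * η) ^ 2 * (h / 2) * g ^ 2 ≤ m0 ^ 2 * h * h := by
      have e : (m0 * h / g) ^ 2 * g ^ 2 = m0 ^ 2 * h * h := by field_simp
      rw [← e]
      exact mul_le_mul_of_nonneg_right h3 (by positivity)
    have h6 : m0 ^ 2 * h * h ≤ (κ * η * g) ^ 2 / 4 * h := mul_le_mul_of_nonneg_right h4 hh0.le
    have h7 : (κ * η) ^ 2 * (h / 2) * g ^ 2 = (κ * η * g) ^ 2 / 2 * h := by ring
    have h8 : 0 < (κ * η * g) ^ 2 * h := by positivity
    nlinarith
  intro c x y hx0 hx1 f hf hfm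
  have := core_kappa D hsym hg0 hg hC hm (le_refl (0:ℝ)) (by linarith) rfl rfl c x y hx0 hx1 f hf hfm
  simpa using this

end Pool.Agent.U591.LV
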