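import Mathlib

set_option autoImplicit false

open MeasureTheory Set Filter Topology

namespace Pool.Agent.U591.LV

/-- a density with values in `[0,1]`, zero outside `[0,1]` -/
structure Dens (f : ℝ → ℝ) : Prop where
  meas : Measurable f
  nn : ∀ t, 0 ≤ f t
  le1 : ∀ t, f t ≤ 1
  supp : ∀ t, t ∉ Icc (0:ℝ) 1 → f t = 0

theorem Dens.integrable {f : ℝ → ℝ} (h : Dens f) : Integrable f := by
  have h1 : Integrable (indicator (Icc (0:ℝ) 1) (fun _ => (1:ℝ))) := by
    rw [integrable_indicator_iff measurableSet_Icc]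
    exact integrableOn_const (by simp)
  refine Integrable.mono' h1 h.meas.aestronglyMeasurable (Eventually.of_forall fun t => ?_)
  rw [Real.norm_eq_abs, abs_of_nonneg (h.nn t)]
  by_cases ht : t ∈ Icc (0:ℝ) 1
  · rw [indicator_of_mem ht]; exact h.le1 t
  · rw [indicator_of_notMem ht, h.supp t ht]

theorem Dens.integrable_mul {f : ℝ → ℝ} (h : Dens f) {u : ℝ → ℝ} (hu : Continuous u) :
    Integrable (fun t => f t * u t) := by
  obtain ⟨C, hC⟩ := (isCompact_Icc (a := (0:ℝ)) (b := 1)).exists_bound_of_continuousOn hu.continuousOn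
  have h1 : Integrable (indicator (Icc (0:ℝ) 1) (fun _ => C)) := by
    rw [integrable_indicator_iff measurableSet_Icc]
    exact integrableOn_const (by simp)
  refine Integrable.mono' h1 (h.meas.mul hu.measurable).aestronglyMeasurable
    (Eventually.of_forall fun t => ?_)
  by_cases ht : t ∈ Icc (0:ℝ) 1
  · rw [indicator_of_mem ht, norm_mul, Real.norm_eq_abs (f t), abs_of_nonneg (h.nn t)]
    calc f t * ‖u t‖ ≤ 1 * ‖u t‖ := mul_le_mul_of_nonneg_right (h.le1 t) (norm_nonneg _)
      _ ≤ C := by rw [one_mul]; exact hC t ht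
  · rw [indicator_of_notMem ht, h.supp t ht]; simp

theorem Dens.refl {f : ℝ → ℝ} (h : Dens f) : Dens (fun t => f (1 - t)) where
  meas := h.meas.comp (measurable_const.sub measurable_id)
  nn := fun t => h.nn _
  le1 := fun t => h.le1 _
  supp := fun t ht => h.supp _ (fun hh => ht ⟨by linarith [hh.2], by linarith [hh.1]⟩)

/-- splitting a density, first orientation -/
theorem split1 {f : ℝ → ℝ} (hf : Dens f) {a b h0 : ℝ} (h00 : 0 < h0) (ha : 0 ≤ a)
    (hab : a + h0 ≤ b) (hb : b + h0 ≤ 1) (h1 : ∀ t ∈ Ioo a (a + h0), f t = 1)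
    (h2 : ∀ t ∈ Ioo b (b + h0), f t = 0) {ρ : ℝ} (hρ0 : 0 < ρ) (hρ : 4 * ρ ≤ h0) :
    ∃ f1 f2 : ℝ → ℝ, Dens f1 ∧ Dens f2 ∧ (∫ t, f1 t) = (∫ t, f t) + 2 * ρ ∧
      (∫ t, f2 t) = (∫ t, f t) - 2 * ρ ∧
      ∀ u : ℝ → ℝ, Continuous u → (∫ t, f1 t * u (t - ρ)) + (∫ t, f2 t * u (t + ρ))
        = ∫ t, f t * (u (t - ρ) + u (t + ρ)) := by
  set h : ℝ := 2 * ρ with hh
  have hh0 : 0 < h := by positivity
  set d : ℝ → ℝ := indicator (Icc h 1) (fun t => max (f (t - h) - f t) 0) with hd
  have hd0 : ∀ t, 0 ≤ d t := fun t => indicator_nonneg (fun t _ => le_max_right _ _) t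
  have hdm : Measurable d := by
    apply Measurable.indicator _ measurableSet_Icc
    exact ((hf.meas.comp (measurable_id.sub measurable_const)).sub hf.meas).max measurable_const
  have hd1 : ∀ t, d t ≤ 1 - f t := by
    intro t
    by_cases ht : t ∈ Icc h 1
    · rw [hd, indicator_of_mem ht]
      exact max_le (by linarith [hf.le1 (t - h)]) (by linarith [hf.le1 t])
    · rw [hd, indicator_of_notMem ht]; linarith [hf.le1 t]
  have hds : ∀ t, t ∉ Icc (0:ℝ) 1 → d t = 0 := by
    intro t ht
    rw [hd]; apply indicator_of_notMem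
    exact fun hh' => ht ⟨by linarith [hh'.1], hh'.2⟩
  have hdD : Dens d := ⟨hdm, hd0, fun t => by linarith [hd1 t, hf.nn t], hds⟩
  have hdh : ∀ t, d (t + h) ≤ f t := by
    intro t
    by_cases ht : t + h ∈ Icc h 1
    · rw [hd, indicator_of_mem ht]
      have : t + h - h = t := by ring
      rw [this]
      exact max_le (by linarith [hf.nn (t + h)]) (hf.nn t)
    · rw [hd, indicator_of_notMem ht]; exact hf.nn t
  set Δ : ℝ := ∫ t, d t with hΔ
  have hΔh : h ≤ Δ := by
    obtain ⟨N, hN1, hN2⟩ : ∃ N : ℕ, b ≤ a + N * h ∧ a + N * h < b + h := by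
      refine ⟨⌈(b - a) / h⌉₊, ?_, ?_⟩
      · have := Nat.le_ceil ((b - a) / h)
        rw [div_le_iff₀ hh0] at this; linarith
      · have h3 : 0 ≤ (b - a) / h := div_nonneg (by linarith) hh0.le
        have := Nat.ceil_lt_add_one h3
        have h4 : (⌈(b - a) / h⌉₊ : ℝ) * h < ((b - a) / h + 1) * h := by
          exact mul_lt_mul_of_pos_right this hh0
        have h5 : ((b - a) / h + 1) * h = b - a + h := by field_simp
        linarith
    have hI : ∀ p q : ℝ, IntervalIntegrable f volume p q := fun p q =>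
      hf.integrable.intervalIntegrable
    have hIs : ∀ p q : ℝ, IntervalIntegrable (fun s => f (s - h)) volume p q := fun p q =>
      (hf.integrable.comp_sub_right h).intervalIntegrable
    have e1 : a + h ≤ a + (N + 1) * h := by
      have : (0:ℝ) ≤ N * h := by positivity
      linarith
    have step1 : ∫ s in (a + h)..(a + (N + 1) * h), (f (s - h) - f s) ≤ Δ := by
      have h3 : ∫ s in (a + h)..(a + (N + 1) * h), (f (s - h) - f s)
          ≤ ∫ s in (a + h)..(a + (N + 1) * h), d s := by
        apply intervalIntegral.integral_mono_on e1 ((hIs _ _).sub (hI _ _))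
          hdD.integrable.intervalIntegrable
        intro s hs
        have hs' : s ∈ Icc h 1 := ⟨by linarith [hs.1], by nlinarith [hs.2]⟩
        rw [hd, indicator_of_mem hs']
        exact le_max_left _ _
      refine h3.trans ?_
      rw [intervalIntegral.integral_of_le e1]
      exact setIntegral_le_integral hdD.integrable (Eventually.of_forall hd0)
    have step2 : ∫ s in (a + h)..(a + (N + 1) * h), (f (s - h) - f s)
        = (∫ s in a..(a + h), f s) - ∫ s in (a + N * h)..(a + (N + 1) * h), f s := by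
      rw [intervalIntegral.integral_sub (hIs _ _) (hI _ _),
        intervalIntegral.integral_comp_sub_right f h]
      have e2 : a + h - h = a := by ring
      have e3 : a + (N + 1) * h - h = a + N * h := by ring
      rw [e2, e3]
      have e4 := intervalIntegral.integral_add_adjacent_intervals (hI a (a + h)) (hI (a + h) (a + (N + 1) * h))
      have e5 := intervalIntegral.integral_add_adjacent_intervals (hI a (a + N * h)) (hI (a + N * h) (a + (N + 1) * h))
      linarith
    have step3 : ∫ s in a..(a + h), f s = h := by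
      have : ∫ s in a..(a + h), f s = ∫ s in a..(a + h), (1:ℝ) := by
        apply intervalIntegral.integral_congr_ae
        have hne : ∀ᵐ s : ℝ, s ≠ a + h := by
          simp [ae_iff]
        filter_upwards [hne] with s hs hs2
        rw [uIoc_of_le (by linarith)] at hs2
        exact h1 s ⟨hs2.1, by
          have : s < a + h := lt_of_le_of_ne hs2.2 hs
          linarith⟩
      rw [this]; simp
    have step4 : ∫ s in (a + N * h)..(a + (N + 1) * h), f s = 0 := by
      have : ∫ s in (a + N * h)..(a + (N + 1) * h), f s = ∫ s in (a + N * h)..(a + (N + 1) * h), (0:ℝ) := by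
        apply intervalIntegral.integral_congr_ae
        have hne : ∀ᵐ s : ℝ, s ≠ a + (N + 1) * h := by
          simp [ae_iff]
        filter_upwards [hne] with s hs hs2
        rw [uIoc_of_le (by nlinarith)] at hs2
        have h5 : s < a + (N + 1) * h := lt_of_le_of_ne hs2.2 hs
        exact h2 s ⟨by linarith [hs2.1], by nlinarith⟩
      rw [this]; simp
    rw [step2, step3, step4] at step1
    linarith
  have hΔ0 : 0 < Δ := lt_of_lt_of_le hh0 hΔh
  set τ : ℝ := h / Δ with hτ
  have hτ0 : 0 ≤ τ := div_nonneg hh0.le hΔ0.le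
  have hτ1 : τ ≤ 1 := by rw [hτ, div_le_one hΔ0]; exact hΔh
  have hτΔ : τ * Δ = h := by rw [hτ]; field_simp
  have hdhI : Integrable (fun t => d (t + h)) := hdD.integrable.comp_add_right h
  have hdhE : ∫ t, d (t + h) = Δ := by rw [hΔ]; exact integral_add_right_eq_self d h
  refine ⟨fun t => f t + τ * d t, fun t => f t - τ * d (t + h), ?_, ?_, ?_, ?_, ?_⟩
  · refine ⟨hf.meas.add (hdm.const_mul τ), fun t => ?_, fun t => ?_, fun t ht => ?_⟩
    · have := hf.nn t; have := mul_nonneg hτ0 (hd0 t); linarith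
    · have h3 := hd1 t
      have h4 : τ * d t ≤ 1 * d t := mul_le_mul_of_nonneg_right hτ1 (hd0 t)
      linarith
    · rw [hf.supp t ht, hds t ht]; simp
  · refine ⟨hf.meas.sub ((hdm.comp (measurable_id.add measurable_const)).const_mul τ),
      fun t => ?_, fun t => ?_, fun t ht => ?_⟩
    · have h3 := hdh t
      have h4 : τ * d (t + h) ≤ 1 * d (t + h) := mul_le_mul_of_nonneg_right hτ1 (hd0 _)
      linarith
    · have h3 := hf.le1 t
      have h4 := mul_nonneg hτ0 (hd0 (t + h))
      linarith
    · have h3 : d (t + h) = 0 := by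
        have := hdh t
        rw [hf.supp t ht] at this
        exact le_antisymm this (hd0 _)
      rw [hf.supp t ht, h3]; simp
  · rw [integral_add hf.integrable (hdD.integrable.const_mul τ), integral_const_mul, ← hΔ, hτΔ]
  · rw [integral_sub hf.integrable (hdhI.const_mul τ), integral_const_mul, hdhE, hτΔ]
  · intro u hu
    have hu1 : Continuous (fun t => u (t - ρ)) := hu.comp (continuous_id.sub continuous_const)
    have hu2 : Continuous (fun t => u (t + ρ)) := hu.comp (continuous_id.add continuous_const)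
    have i1 := hf.integrable_mul hu1
    have i2 := hf.integrable_mul hu2
    have i3 := hdD.integrable_mul hu1
    have i4 : Integrable (fun t => d (t + h) * u (t + ρ)) := by
      have := i3.comp_add_right h
      have e : (fun t => d (t + h) * u (t + h - ρ)) = fun t => d (t + h) * u (t + ρ) := by
        ext t; congr 2; rw [hh]; ring
      rw [e] at this; exact this
    have e4 : ∫ t, d (t + h) * u (t + ρ) = ∫ t, d t * u (t - ρ) := by
      have := integral_add_right_eq_self (μ := (volume : Measure ℝ)) (fun t => d t * u (t - ρ)) h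
      rw [← this]
      congr 1; ext t; congr 2; rw [hh]; ring
    have e1 : (fun t => (f t + τ * d t) * u (t - ρ)) = fun t => f t * u (t - ρ) + τ * (d t * u (t - ρ)) := by
      ext t; ring
    have e2 : (fun t => (f t - τ * d (t + h)) * u (t + ρ))
        = fun t => f t * u (t + ρ) - τ * (d (t + h) * u (t + ρ)) := by
      ext t; ring
    have e3 : (fun t => f t * (u (t - ρ) + u (t + ρ))) = fun t => f t * u (t - ρ) + f t * u (t + ρ) := by
      ext t; ring
    simp only
    rw [e1, e2, e3, integral_add i1 (i3.const_mul τ), integral_sub i2 (i4.const_mul τ),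
      integral_add i1 i2, integral_const_mul, integral_const_mul, e4]
    ring

/-- splitting a density, both orientations -/
theorem split2 {f : ℝ → ℝ} (hf : Dens f) {a b h0 : ℝ} (h00 : 0 < h0) (ha : 0 ≤ a)
    (hab : a + h0 ≤ b) (hb : b + h0 ≤ 1) (h1 : ∀ t ∈ Ioo a (a + h0), f t = 0)
    (h2 : ∀ t ∈ Ioo b (b + h0), f t = 1) {ρ : ℝ} (hρ0 : 0 < ρ) (hρ : 4 * ρ ≤ h0) :
    ∃ f1 f2 : ℝ → ℝ, Dens f1 ∧ Dens f2 ∧ (∫ t, f1 t) = (∫ t, f t) + 2 * ρ ∧
      (∫ t, f2 t) = (∫ t, f t) - 2 * ρ ∧
      ∀ u : ℝ → ℝ, Continuous u → (∫ t, f1 t * u (t + ρ)) + (∫ t, f2 t * u (t - ρ))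
        = ∫ t, f t * (u (t - ρ) + u (t + ρ)) := by
  have hint : ∀ g : ℝ → ℝ, ∫ t, g (1 - t) = ∫ t, g t := fun g => integral_sub_left_eq_self g volume 1
  obtain ⟨f1, f2, d1, d2, i1, i2, hu⟩ := split1 hf.refl (a := 1 - (b + h0)) (b := 1 - (a + h0)) h00
    (by linarith) (by linarith) (by linarith)
    (fun t ht => h2 (1 - t) ⟨by linarith [ht.2], by linarith [ht.1]⟩)
    (fun t ht => h1 (1 - t) ⟨by linarith [ht.2], by linarith [ht.1]⟩) hρ0 hρ
  refine ⟨fun t => f1 (1 - t), fun t => f2 (1 - t), d1.refl, d2.refl, ?_, ?_, ?_⟩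
  · rw [hint f1, i1, hint f]
  · rw [hint f2, i2, hint f]
  · intro u huc
    have := hu (fun t => u (1 - t)) (huc.comp (continuous_const.sub continuous_id))
    have a1 : ∫ t, f1 (1 - t) * u (t + ρ) = ∫ t, f1 t * u (1 - (t - ρ)) := by
      rw [← hint (fun t => f1 t * u (1 - (t - ρ)))]
      congr 1; ext t; congr 2; ring
    have a2 : ∫ t, f2 (1 - t) * u (t - ρ) = ∫ t, f2 t * u (1 - (t + ρ)) := by
      rw [← hint (fun t => f2 t * u (1 - (t + ρ)))]
      congr 1; ext t; congr 2; ring
    have a3 : ∫ t, f t * (u (t - ρ) + u (t + ρ)) = ∫ t, f (1 - t) * (u (1 - (t - ρ)) + u (1 - (t + ρ))) := by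
      rw [← hint (fun t => f t * (u (t - ρ) + u (t + ρ)))]
      congr 1; ext t
      rw [show 1 - t - ρ = 1 - (t + ρ) by ring, show 1 - t + ρ = 1 - (t - ρ) by ring]; ring
    rw [a1, a2, a3]; exact this

end Pool.Agent.U591.LV
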