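import Pool.Agent.U591.LV.Approx

set_option autoImplicit false

open MeasureTheory Set Filter Topology Complex InnerProductSpace

namespace Pool.Agent.U591.LV

/-- first moment of the real part of a polynomial on circles about the origin -/
theorem poly_moment (Q : Polynomial ℂ) : ∃ c0 : ℝ, ∀ s : ℝ, 0 < s →
    Real.circleAverage (fun z : ℂ => z.re * (Q.eval z).re) 0 s = s ^ 2 * c0 := by
  refine ⟨(Q.divX.eval 0).re / 2, fun s hs => ?_⟩
  set R := Q.divX with hR
  have hQ : ∀ z : ℂ, Q.eval z = z * R.eval z + Q.coeff 0 := by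
    intro z
    have := congrArg (Polynomial.eval z) (Polynomial.X_mul_divX_add Q)
    simp only [Polynomial.eval_add, Polynomial.eval_mul, Polynomial.eval_X,
      Polynomial.eval_C] at this
    exact this.symm
  have hEq : Set.EqOn (fun z : ℂ => z.re * (Q.eval z).re)
      (fun z : ℂ => (((Polynomial.C (1/2) * Polynomial.X * Q
        + Polynomial.C ((starRingEnd ℂ) (Q.coeff 0) / 2) * Polynomial.X
        + Polynomial.C ((s ^ 2 / 2 : ℝ) : ℂ) * R).eval ((z - 0) / (1:ℝ))).re))
      (Metric.sphere (0:ℂ) |s|) := by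
    intro z hz
    rw [abs_of_pos hs, mem_sphere_zero_iff_norm] at hz
    have hzz : z.re * z.re + z.im * z.im = s ^ 2 := by
      rw [← hz, Complex.sq_norm, Complex.normSq_apply]
    have e1 : (z - 0) / ((1:ℝ) : ℂ) = z := by simp
    show z.re * (Q.eval z).re = (Polynomial.eval ((z - 0) / ((1:ℝ) : ℂ)) _).re
    rw [e1]
    simp only [Polynomial.eval_add, Polynomial.eval_mul, Polynomial.eval_C, Polynomial.eval_X]
    rw [hQ z]
    have h12 : ((1:ℂ) / 2) = ((1/2 : ℝ) : ℂ) := by push_cast; ring
    have hc2 : (starRingEnd ℂ) (Q.coeff 0) / 2 = ((1/2 : ℝ) : ℂ) * (starRingEnd ℂ) (Q.coeff 0) := by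
      push_cast; ring
    rw [h12, hc2]
    simp only [add_re, mul_re, add_im, mul_im, ofReal_re, ofReal_im, Complex.conj_re, Complex.conj_im]
    have : s ^ 2 = z.re * z.re + z.im * z.im := hzz.symm
    rw [this]
    ring
  rw [Real.circleAverage_congr_sphere hEq, poly_mv]
  have e0 : ((0:ℂ) - 0) / ((1:ℝ) : ℂ) = 0 := by simp
  rw [e0]
  simp only [Polynomial.eval_add, Polynomial.eval_mul, Polynomial.eval_C, Polynomial.eval_X,
    mul_zero, zero_mul, zero_add, Complex.re_ofReal_mul]
  ring

theorem ca_abs_le {h : ℂ → ℝ} {z : ℂ} {s M : ℝ} (hs : 0 < s)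
    (hb : ∀ w ∈ Metric.sphere z s, |h w| ≤ M) (hi : CircleIntegrable h z s) :
    |Real.circleAverage h z s| ≤ M := by
  rw [abs_le]
  constructor
  · have h1 : Real.circleAverage (fun w => -(h w)) z s ≤ M := by
      apply Real.circleAverage_mono_on_of_le_circle hi.neg
      intro w hw
      rw [abs_of_pos hs] at hw
      have := neg_le_abs (h w)
      exact this.trans (hb w hw)
    have h2 : Real.circleAverage (fun w => -(h w)) z s = - Real.circleAverage h z s := by
      have := Real.circleAverage_fun_smul (f := h) (a := (-1:ℝ)) (c := z) (R := s)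
      simpa using this
    linarith
  · apply Real.circleAverage_mono_on_of_le_circle hi
    intro w hw
    rw [abs_of_pos hs] at hw
    exact (le_abs_self _).trans (hb w hw)

/-- the first moment of a function with the mean value property scales like the square of the
radius -/
theorem moment_const {d : ℂ → ℝ} {ρ : ℝ} (hρ : 0 < ρ) (hd : ContinuousOn d (Metric.closedBall 0 ρ))
    (hm : ∀ z ∈ Metric.ball (0:ℂ) ρ, ∃ r0 : ℝ, 0 < r0 ∧ ∀ s, 0 < s → s < r0 →
      Real.circleAverage d z s = d z) {s : ℝ} (hs : 0 < s) (hsρ : s ≤ ρ) :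
    Real.circleAverage (fun z => z.re * d z) 0 s / s ^ 2
      = Real.circleAverage (fun z => z.re * d z) 0 ρ / ρ ^ 2 := by
  have hci : ∀ t, 0 < t → t ≤ ρ → CircleIntegrable (fun z : ℂ => z.re * d z) 0 t := by
    intro t ht htρ
    apply ContinuousOn.circleIntegrable ht.le
    apply ContinuousOn.mul (by fun_prop)
    exact hd.mono (Metric.sphere_subset_closedBall.trans (Metric.closedBall_subset_closedBall htρ))
  -- approximations
  have key : ∀ ε : ℝ, 0 < ε → ∃ c0 : ℝ, ∀ t, 0 < t → t ≤ ρ →
      |Real.circleAverage (fun z => z.re * d z) 0 t / t ^ 2 - c0| ≤ ε / t := by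
    intro ε hε
    obtain ⟨P, hP⟩ := approxH hρ (hd.mono Metric.sphere_subset_closedBall) hε
    have hup := sub_le_poly hρ hd (fun z hz => by
      obtain ⟨r0, hr0, h⟩ := hm z hz
      exact ⟨r0, hr0, fun s h1 h2 => (h s h1 h2).ge⟩) P (ε := ε) (fun z hz => by
        have := (abs_lt.1 (hP z hz)).2; linarith)
    have hnegP : ∀ z : ℂ, ((-P).eval ((z - 0) / ρ)).re = -(P.eval ((z - 0) / ρ)).re := by
      intro z; simp
    have hlow := sub_le_poly (v := fun z => -(d z)) hρ hd.neg (fun z hz => by
      obtain ⟨r0, hr0, h⟩ := hm z hz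
      refine ⟨r0, hr0, fun s h1 h2 => ?_⟩
      have e : Real.circleAverage (fun w => -(d w)) z s = - Real.circleAverage d z s := by
        have := Real.circleAverage_fun_smul (f := d) (a := (-1:ℝ)) (c := z) (R := s)
        simpa using this
      rw [e, h s h1 h2]) (-P) (ε := ε) (fun z hz => by
        rw [hnegP]
        have := (abs_lt.1 (hP z hz)).1; linarith)
    simp only [hnegP] at hlow
    obtain ⟨c0, hc0⟩ := poly_moment (P.comp (Polynomial.C ((1 / ρ : ℝ) : ℂ) * Polynomial.X))
    have hcomp : ∀ z : ℂ, (P.comp (Polynomial.C ((1 / ρ : ℝ) : ℂ) * Polynomial.X)).eval z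
        = P.eval ((z - 0) / ρ) := by
      intro z
      rw [Polynomial.eval_comp]
      congr 1
      simp
      field_simp
    simp only [hcomp] at hc0
    refine ⟨c0, fun t ht htρ => ?_⟩
    have ci2 : CircleIntegrable (fun z : ℂ => z.re * (P.eval ((z - 0) / ρ)).re) 0 t := by
      apply ContinuousOn.circleIntegrable ht.le
      exact (Complex.continuous_re.mul (poly_cont P 0 ρ)).continuousOn
    have h1 : |Real.circleAverage (fun z => z.re * d z - 1 * (z.re * (P.eval ((z - 0) / ρ)).re)) 0 t|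
        ≤ t * ε := by
      apply ca_abs_le ht _ ((hci t ht htρ).sub (by simpa using ci2))
      intro w hw
      rw [mem_sphere_zero_iff_norm] at hw
      have hwb : w ∈ Metric.closedBall (0:ℂ) ρ := by
        rw [mem_closedBall_zero_iff, hw]; exact htρ
      have a1 := hup w hwb
      have a2 := hlow w hwb
      have e : w.re * d w - 1 * (w.re * (P.eval ((w - 0) / ρ)).re)
          = w.re * (d w - (P.eval ((w - 0) / ρ)).re) := by ring
      show |w.re * d w - 1 * (w.re * (P.eval ((w - 0) / ρ)).re)| ≤ t * ε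
      rw [e, abs_mul]
      apply mul_le_mul
      · rw [← hw]; exact Complex.abs_re_le_norm w
      · rw [abs_le]; constructor <;> linarith
      · exact abs_nonneg _
      · exact ht.le
    rw [ca_sub_mul (hci t ht htρ) ci2, hc0 t ht] at h1
    have h2 : Real.circleAverage (fun z => z.re * d z) 0 t / t ^ 2 - c0
        = (Real.circleAverage (fun z => z.re * d z) 0 t - 1 * (t ^ 2 * c0)) / t ^ 2 := by
      field_simp
    rw [h2, abs_div, abs_of_pos (by positivity : 0 < t ^ 2), div_le_div_iff₀ (by positivity) ht]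
    calc _ ≤ (t * ε) * t := by gcongr
      _ = ε * t ^ 2 := by ring
  set a := Real.circleAverage (fun z => z.re * d z) 0 s / s ^ 2 with ha
  set b := Real.circleAverage (fun z => z.re * d z) 0 ρ / ρ ^ 2 with hb
  by_contra hne
  have hpos : 0 < |a - b| := abs_pos.2 (sub_ne_zero.2 hne)
  obtain ⟨c0, hc0⟩ := key (|a - b| * s / 4) (by positivity)
  have h1 := hc0 s hs hsρ
  have h2 := hc0 ρ hρ le_rfl
  have e1 : |a - b| * s / 4 / s = |a - b| / 4 := by field_simp
  have e2 : |a - b| * s / 4 / ρ ≤ |a - b| / 4 := by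
    rw [div_le_div_iff₀ hρ (by norm_num)]
    have : |a - b| * s ≤ |a - b| * ρ := by gcongr
    linarith
  rw [e1] at h1
  have h3 : |a - b| ≤ |a - c0| + |b - c0| := by
    have := abs_sub_le a c0 b
    rwa [abs_sub_comm c0 b] at this
  linarith

/-- a Hopf lemma for functions with the mean value property -/
theorem hopf {d : ℂ → ℝ} {ρ : ℝ} (hρ : 0 < ρ) (hd : ContinuousOn d (Metric.closedBall 0 ρ))
    (hm : ∀ z ∈ Metric.ball (0:ℂ) ρ, ∃ r0 : ℝ, 0 < r0 ∧ ∀ s, 0 < s → s < r0 →
      Real.circleAverage d z s = d z)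
    (hp : ∀ z ∈ Metric.closedBall (0:ℂ) ρ, 0 ≤ z.re → 0 ≤ d z)
    (hn : ∀ z ∈ Metric.closedBall (0:ℂ) ρ, z.re ≤ 0 → d z ≤ 0)
    (ho : ∀ ε : ℝ, 0 < ε → ∃ s0 : ℝ, 0 < s0 ∧ ∀ z : ℂ, ‖z‖ ≤ s0 → |d z| ≤ ε * ‖z‖) :
    ∀ z ∈ Metric.closedBall (0:ℂ) ρ, d z = 0 := by
  have hN0 : Real.circleAverage (fun z => z.re * d z) 0 ρ / ρ ^ 2 = 0 := by
    by_contra hne
    set N := Real.circleAverage (fun z => z.re * d z) 0 ρ / ρ ^ 2 with hN
    have hpos : 0 < |N| := abs_pos.2 hne
    obtain ⟨s0, hs0, h⟩ := ho (|N| / 2) (by positivity)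
    set s := min s0 ρ with hs
    have hs1 : 0 < s := lt_min hs0 hρ
    have h1 := moment_const hρ hd hm hs1 (min_le_right _ _)
    have hci : CircleIntegrable (fun z : ℂ => z.re * d z) 0 s := by
      apply ContinuousOn.circleIntegrable hs1.le
      apply ContinuousOn.mul (by fun_prop)
      exact hd.mono (Metric.sphere_subset_closedBall.trans
        (Metric.closedBall_subset_closedBall (min_le_right _ _)))
    have h2 : |Real.circleAverage (fun z => z.re * d z) 0 s| ≤ s * (|N| / 2 * s) := by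
      apply ca_abs_le hs1 _ hci
      intro w hw
      rw [mem_sphere_zero_iff_norm] at hw
      rw [abs_mul]
      have a1 : |w.re| ≤ s := by rw [← hw]; exact Complex.abs_re_le_norm w
      have a2 := h w (by rw [hw]; exact min_le_left _ _)
      rw [hw] at a2
      exact mul_le_mul a1 a2 (abs_nonneg _) hs1.le
    have h1' : |N| = |Real.circleAverage (fun z => z.re * d z) 0 s| / s ^ 2 := by
      rw [hN, ← h1, abs_div, abs_of_pos (by positivity : 0 < s ^ 2)]
    have h1'' : |Real.circleAverage (fun z => z.re * d z) 0 s| = |N| * s ^ 2 := by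
      rw [h1']; field_simp
    rw [h1''] at h2
    have h3 : |N| * s ^ 2 ≤ |N| / 2 * s ^ 2 := by
      refine h2.trans (le_of_eq ?_)
      ring
    have h4 := le_of_mul_le_mul_right h3 (by positivity)
    linarith
  have hall : ∀ s, 0 < s → s ≤ ρ → ∀ w ∈ Metric.sphere (0:ℂ) s, w.re * d w = 0 := by
    intro s hs hsρ w hw
    have h1 := moment_const hρ hd hm hs hsρ
    rw [hN0, div_eq_zero_iff] at h1
    have h2 : Real.circleAverage (fun z => z.re * d z) 0 s = 0 := by
      rcases h1 with h1 | h1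
      · exact h1
      · exact absurd h1 (by positivity)
    have hsub : Metric.sphere (0:ℂ) s ⊆ Metric.closedBall 0 ρ :=
      Metric.sphere_subset_closedBall.trans (Metric.closedBall_subset_closedBall hsρ)
    have hnn : ∀ z ∈ Metric.sphere (0:ℂ) s, 0 ≤ z.re * d z := by
      intro z hz
      rcases le_total 0 z.re with h | h
      · exact mul_nonneg h (hp z (hsub hz) h)
      · exact mul_nonneg_of_nonpos_of_nonpos h (hn z (hsub hz) h)
    by_contra hne
    have hwpos : 0 < w.re * d w := lt_of_le_of_ne (hnn w hw) (Ne.symm hne)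
    have h3 := ca_int (fun z => z.re * d z) 0 s
    rw [h2, mul_zero] at h3
    have hmem : ∀ θ : ℝ, mkC ((0:ℂ).re + s * Real.cos θ) ((0:ℂ).im + s * Real.sin θ) ∈ Metric.sphere (0:ℂ) s := by
      intro θ
      have e : mkC ((0:ℂ).re + s * Real.cos θ) ((0:ℂ).im + s * Real.sin θ) = circleMap 0 s θ := by
        apply Complex.ext
        · rw [cm_re, mkC_re]
        · rw [cm_im, mkC_im]
      rw [e]
      exact circleMap_mem_sphere 0 hs.le θ
    have hcont : Continuous (fun θ : ℝ => (fun z : ℂ => z.re * d z)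
        (mkC ((0:ℂ).re + s * Real.cos θ) ((0:ℂ).im + s * Real.sin θ))) := by
      have hc : ContinuousOn (fun z : ℂ => z.re * d z) (Metric.sphere 0 s) :=
        ContinuousOn.mul (by fun_prop) (hd.mono hsub)
      apply hc.comp_continuous _ hmem
      exact mkC_cont.comp (by fun_prop : Continuous (fun θ : ℝ =>
        (((0:ℂ).re + s * Real.cos θ, (0:ℂ).im + s * Real.sin θ) : ℝ × ℝ)))
    have h4 : (∫ θ in (0:ℝ)..2 * Real.pi, (0:ℝ)) < ∫ θ in (0:ℝ)..2 * Real.pi, (fun z : ℂ => z.re * d z)
        (mkC ((0:ℂ).re + s * Real.cos θ) ((0:ℂ).im + s * Real.sin θ)) := by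
      apply intervalIntegral.integral_lt_integral_of_continuousOn_of_le_of_exists_lt
        (by positivity) continuousOn_const hcont.continuousOn (fun θ _ => hnn _ (hmem θ))
      have h5 : w ∈ circleMap 0 s '' Ioc 0 (2 * Real.pi) := by
        rw [image_circleMap_Ioc, abs_of_pos hs]; exact hw
      obtain ⟨θ, hθ, hθw⟩ := h5
      refine ⟨θ, Ioc_subset_Icc_self hθ, ?_⟩
      have e : mkC ((0:ℂ).re + s * Real.cos θ) ((0:ℂ).im + s * Real.sin θ) = w := by
        rw [← hθw]
        apply Complex.ext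
        · rw [cm_re, mkC_re]
        · rw [cm_im, mkC_im]
      rw [e]
      exact hwpos
    rw [intervalIntegral.integral_zero] at h4
    linarith
  intro z hz
  by_cases hre : z.re = 0
  · exact le_antisymm (hn z hz hre.le) (hp z hz hre.ge)
  · have hz0 : 0 < ‖z‖ := norm_pos_iff.2 (fun h => hre (by rw [h]; simp))
    have := hall ‖z‖ hz0 (by rwa [mem_closedBall_zero_iff] at hz) z (mem_sphere_zero_iff_norm.2 rfl)
    exact (mul_eq_zero.1 this).resolve_left hre

end Pool.Agent.U591.LV
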