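import Pool.Agent.U591.LV.Core
import Pool.Agent.U591.LV.Hopf

set_option autoImplicit false

open MeasureTheory Set Filter Topology Complex InnerProductSpace

namespace Pool.Agent.U591.LV

variable {U : ℂ → ℝ} {E : Set ℝ}

theorem MU_cont_int (hU : Continuous U) (y a b : ℝ) :
    IntervalIntegrable (fun t => U (mkC t y)) volume a b := by
  apply Continuous.intervalIntegrable
  exact cont2 hU continuous_id continuous_const

theorem MU_odd (x y : ℝ) : MU U (mkC (-x) y) = - MU U (mkC x y) := by
  unfold MU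
  simp only [mkC_re, mkC_im, neg_neg]
  exact intervalIntegral.integral_symm _ _

/-- comparison at the level of centred integrals -/
theorem MU_le (D : Data U E) {b : ℝ}
    (hmain : ∀ c x y, 0 ≤ x → x ≤ 1 / 2 → ∀ f, Dens f → ∫ t, f t ≤ 2 * x →
      ∫ t, f t * U (mkC (c + t) y) ≤ MU (Ut b) (mkC x y)) {x : ℝ} (y : ℝ) (hx : 0 ≤ x)
    (hx1 : x ≤ 1 / 2) : MU U (mkC x y) ≤ MU (Ut b) (mkC x y) := by
  set S : Set ℝ := Icc (1 / 2 - x) (1 / 2 + x) with hS
  have hSI : S ⊆ Icc (0:ℝ) 1 := Icc_subset_Icc (by linarith) (by linarith)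
  have h := hmain (-(1/2)) x y hx hx1 (S.indicator fun _ => 1) ?_ ?_
  · have e1 : (fun t => S.indicator (fun _ => (1:ℝ)) t * U (mkC (-(1/2) + t) y))
        = S.indicator (fun t => U (mkC (-(1/2) + t) y)) := by
      ext t
      by_cases ht : t ∈ S
      · rw [indicator_of_mem ht, indicator_of_mem ht, one_mul]
      · rw [indicator_of_notMem ht, indicator_of_notMem ht, zero_mul]
    rw [e1, integral_indicator measurableSet_Icc, integral_Icc_eq_integral_Ioc,
      ← intervalIntegral.integral_of_le (by linarith),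
      intervalIntegral.integral_comp_add_left (fun t => U (mkC t y)) (-(1/2))] at h
    have e2 : -(1 / 2) + (1 / 2 - x) = -x := by ring
    have e3 : -(1 / 2) + (1 / 2 + x) = x := by ring
    rw [e2, e3] at h
    have e4 : MU U (mkC x y) = ∫ t in (-x)..x, U (mkC t y) := by
      unfold MU; simp only [mkC_re, mkC_im]
    rw [e4]; exact h
  · refine ⟨measurable_const.indicator measurableSet_Icc, fun t => ?_, fun t => ?_, fun t ht => ?_⟩
    · exact indicator_nonneg (fun _ _ => zero_le_one) t
    · by_cases h : t ∈ S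
      · rw [indicator_of_mem h]
      · rw [indicator_of_notMem h]; exact zero_le_one
    · exact indicator_of_notMem (fun h => ht (hSI h)) _
  · rw [integral_indicator_const _ measurableSet_Icc, smul_eq_mul, Real.volume_real_Icc]
    rw [max_eq_left (by linarith)]
    linarith

/-- pointwise bound at the origin -/
theorem point_le (D : Data U E) {g : ℝ} (hg0 : 0 < g) (hg : g < 1 / 2)
    (hle : ∀ x y, 0 ≤ x → x ≤ 1 / 2 → MU U (mkC x y) ≤ MU (Ut (Real.cos (Real.pi * g))) (mkC x y)) :
    U 0 ≤ Ut (Real.cos (Real.pi * g)) 0 := by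
  set b := Real.cos (Real.pi * g) with hb
  by_contra hcon
  push Not at hcon
  have hc : Continuous (fun t : ℝ => U (mkC t 0)) := cont2 D.cont continuous_id continuous_const
  have h0 : (0:ℂ) = mkC 0 0 := by simp [mkC]
  set m := (U 0 + Ut b 0) / 2 with hm
  have hlt : ∀ᶠ t in 𝓝 (0:ℝ), m < U (mkC t 0) := by
    apply hc.continuousAt.eventually_const_lt
    show m < U (mkC 0 0)
    rw [← h0]; linarith
  obtain ⟨r, hr, hball⟩ := Metric.eventually_nhds_iff.1 hlt
  set x := min (r / 2) (1 / 2) with hx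
  have hx0 : 0 < x := lt_min (by linarith) (by norm_num)
  have hx1 : x ≤ 1 / 2 := min_le_right _ _
  have hxr : x ≤ r / 2 := min_le_left _ _
  have h1 := hle x 0 hx0.le hx1
  have h2 := MUt_le hg0 hg hx0.le
  have h3 : 2 * x * m ≤ MU U (mkC x 0) := by
    have h4 : ∫ t in (-x)..x, m ≤ ∫ t in (-x)..x, U (mkC t 0) := by
      apply intervalIntegral.integral_mono_on (by linarith) (by simp) (MU_cont_int D.cont 0 _ _)
      intro t ht
      apply (hball _).le
      rw [Real.dist_eq, sub_zero, abs_lt]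
      constructor <;> linarith [ht.1, ht.2]
    rw [intervalIntegral.integral_const, smul_eq_mul] at h4
    have e4 : MU U (mkC x 0) = ∫ t in (-x)..x, U (mkC t 0) := by
      unfold MU; simp only [mkC_re, mkC_im]
    rw [e4]
    linarith
  have h4 : 2 * x * m ≤ 2 * x * Ut b 0 := h3.trans (h1.trans h2)
  have h5 := le_of_mul_le_mul_left h4 (by positivity)
  linarith

theorem mv_near (D : Data U E) {ρ : ℝ} (hρE : ∀ x : ℝ, |x| < ρ → x ∉ E) {z : ℂ}
    (hz : ‖z‖ < ρ) : ∃ r0 : ℝ, 0 < r0 ∧ ∀ s, 0 < s → s < r0 →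
      Real.circleAverage (MU U) z s = MU U z := by
  have hre := Complex.abs_re_le_norm z
  refine ⟨ρ - |z.re|, by linarith, fun s hs hs1 => ?_⟩
  apply MU_mv D.cont
  intro t ht
  have := D.mv (mkC t z.im) s hs (by
    intro w hw
    right
    apply hρE
    rw [Metric.mem_closedBall, dist_eq_norm] at hw
    have h1 := Complex.abs_re_le_norm (w - mkC t z.im)
    rw [sub_re, mkC_re] at h1
    have h2 : |w.re| ≤ |w.re - t| + |t| := by
      have := abs_add_le (w.re - t) t
      simpa using this
    linarith)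
  rwa [mkC_re, mkC_im] at this

theorem MU_deriv (hU : Continuous U) (x y : ℝ) :
    HasDerivAt (fun s => MU U (mkC s y)) (U (mkC x y) + U (mkC (-x) y)) x := by
  have hc : Continuous (fun t : ℝ => U (mkC t y)) := cont2 hU continuous_id continuous_const
  have h1 : ∀ s : ℝ, MU U (mkC s y) = (∫ t in (0:ℝ)..s, U (mkC t y)) - ∫ t in (0:ℝ)..(-s), U (mkC t y) := by
    intro s
    have e4 : MU U (mkC s y) = ∫ t in (-s)..s, U (mkC t y) := by
      unfold MU; simp only [mkC_re, mkC_im]
    rw [e4, ← intervalIntegral.integral_add_adjacent_intervals (MU_cont_int hU y (-s) 0)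
      (MU_cont_int hU y 0 s), intervalIntegral.integral_symm (0:ℝ) (-s)]
    ring
  have h2 : HasDerivAt (fun s => ∫ t in (0:ℝ)..s, U (mkC t y)) (U (mkC x y)) x :=
    intervalIntegral.integral_hasDerivAt_right (hc.intervalIntegrable _ _)
      (hc.stronglyMeasurableAtFilter _ _) hc.continuousAt
  have h3 : HasDerivAt (fun s => ∫ t in (0:ℝ)..s, U (mkC t y)) (U (mkC (-x) y)) (-x) :=
    intervalIntegral.integral_hasDerivAt_right (hc.intervalIntegrable _ _)
      (hc.stronglyMeasurableAtFilter _ _) hc.continuousAt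
  have h4 : HasDerivAt (fun s => ∫ t in (0:ℝ)..(-s), U (mkC t y)) (U (mkC (-x) y) * (-1)) x :=
    h3.comp x (hasDerivAt_neg x)
  have h5 := h2.sub h4
  have e : (fun s => MU U (mkC s y))
      = ((fun s => ∫ t in (0:ℝ)..s, U (mkC t y)) - fun s => ∫ t in (0:ℝ)..(-s), U (mkC t y)) := by
    ext s; exact h1 s
  have h6 : U (mkC x y) + U (mkC (-x) y) = U (mkC x y) - U (mkC (-x) y) * (-1) := by ring
  rw [e, h6]
  exact h5

/-- real analyticity of the reflected function in the upper half plane -/
theorem refl_analytic (D : Data U E) {z : ℂ} (hz : z.im ≠ 0) :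
    AnalyticAt ℝ (fun w : ℂ => U (mkC (-w.re) w.im)) z := by
  have h1 : AnalyticAt ℝ U (mkC (-z.re) z.im) := HarmonicAt.analyticAt (D.harm _ (Or.inl (by simpa using hz)))
  have h2 : AnalyticAt ℝ (fun w : ℂ => mkC (-w.re) w.im) z := by
    have e : (fun w : ℂ => mkC (-w.re) w.im) = fun w : ℂ => -(Complex.conjCLE w) := by
      ext w
      apply Complex.ext
      · simp
      · simp
    rw [e]
    exact (Complex.conjCLE.toContinuousLinearMap.analyticAt z).neg
  exact AnalyticAt.fun_comp h1 h2

/-- equality at the origin forces the symmetrised function to be extremal -/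
theorem uniq_fun (D : Data U E) (hsym : ∀ x y, U (mkC x (-y)) = U (mkC x y)) {g : ℝ}
    (hg0 : 0 < g) (hg : g < 1 / 2)
    (hle : ∀ x y, 0 ≤ x → x ≤ 1 / 2 → MU U (mkC x y) ≤ MU (Ut (Real.cos (Real.pi * g))) (mkC x y))
    (h0 : U 0 = Ut (Real.cos (Real.pi * g)) 0) :
    ∀ x y, U (mkC x y) + U (mkC (-x) y) = 2 * Ut (Real.cos (Real.pi * g)) (mkC x y) := by
  set b := Real.cos (Real.pi * g) with hb
  have hb0 := bpos hg0 hg
  have D' : Data (Ut b) (Et b) := Ut_data (bpos hg0 hg) (Real.cos_le_one (Real.pi * g))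
  have hz0 : (0:ℂ) = mkC 0 0 := by simp [mkC]
  have hT0 : 0 < Ut b 0 := by
    have h1 : Ut b 0 ≠ 0 := by
      rw [hz0, Ne, Ut_zero_iff hb0 (Real.cos_le_one _)]
      rintro ⟨_, h⟩
      exact notMem_Et hg0 hg (by simpa using hg0) h
    exact lt_of_le_of_ne (Ut_nn b 0) (Ne.symm h1)
  have h0E : (0:ℝ) ∉ E := by
    intro h
    have := D.zero 0 h
    rw [Complex.ofReal_zero] at this
    linarith
  -- radius
  obtain ⟨ρ1, hρ1, hρ1E⟩ := Metric.isOpen_iff.1 D.closed.isOpen_compl 0 h0E
  set ρ' := min ρ1 (min g (1 / 2)) with hρ'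
  have hρ'0 : 0 < ρ' := lt_min hρ1 (lt_min hg0 (by norm_num))
  have hE' : ∀ x : ℝ, |x| < ρ' → x ∉ E := by
    intro x hx
    apply hρ1E
    rw [Metric.mem_ball, Real.dist_eq, sub_zero]
    exact hx.trans_le (min_le_left _ _)
  have hT' : ∀ x : ℝ, |x| < ρ' → x ∉ Et b := by
    intro x hx
    exact notMem_Et hg0 hg (hx.trans_le ((min_le_right _ _).trans (min_le_left _ _)))
  set ρ := ρ' / 2 with hρ
  have hρ0 : 0 < ρ := by linarith
  have hρh : ρ' ≤ 1 / 2 := (min_le_right _ _).trans (min_le_right _ _)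
  set d : ℂ → ℝ := fun z => MU (Ut b) z - 1 * MU U z with hd
  have cM := MU_cont D.cont
  have cT := MU_cont D'.cont
  have hdc : Continuous d := by fun_prop
  have hdm : ∀ z ∈ Metric.ball (0:ℂ) ρ, ∃ r0 : ℝ, 0 < r0 ∧ ∀ s, 0 < s → s < r0 →
      Real.circleAverage d z s = d z := by
    intro z hz
    rw [mem_ball_zero_iff] at hz
    obtain ⟨r1, hr1, h1⟩ := mv_near D hE' (z := z) (by linarith)
    obtain ⟨r2, hr2, h2⟩ := mv_near D' hT' (z := z) (by linarith)
    refine ⟨min r1 r2, lt_min hr1 hr2, fun s hs hs1 => ?_⟩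
    rw [hd, ca_sub_mul (cT.continuousOn.circleIntegrable hs.le)
      (cM.continuousOn.circleIntegrable hs.le), h1 s hs (hs1.trans_le (min_le_left _ _)),
      h2 s hs (hs1.trans_le (min_le_right _ _))]
  have hdp : ∀ z ∈ Metric.closedBall (0:ℂ) ρ, 0 ≤ z.re → 0 ≤ d z := by
    intro z hz hre
    rw [mem_closedBall_zero_iff] at hz
    have h1 := Complex.abs_re_le_norm z
    rw [abs_of_nonneg hre] at h1
    have := hle z.re z.im hre (by linarith)
    rw [mkC_eta] at this
    simp only [hd]; linarith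
  have hdo : ∀ x y, d (mkC (-x) y) = -(d (mkC x y)) := by
    intro x y; simp only [hd, MU_odd]; ring
  have hdn : ∀ z ∈ Metric.closedBall (0:ℂ) ρ, z.re ≤ 0 → d z ≤ 0 := by
    intro z hz hre
    rw [mem_closedBall_zero_iff] at hz
    have h1 := Complex.abs_re_le_norm z
    rw [abs_of_nonpos hre] at h1
    have := hle (-z.re) z.im (by linarith) (by linarith)
    have e : z = mkC (-(-z.re)) z.im := by rw [neg_neg, mkC_eta]
    rw [e, hdo]
    simp only [hd]; linarith
  have hdo' : ∀ ε : ℝ, 0 < ε → ∃ s0 : ℝ, 0 < s0 ∧ ∀ z : ℂ, ‖z‖ ≤ s0 → |d z| ≤ ε * ‖z‖ := by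
    intro ε hε
    have hcc : Continuous (fun w => Ut b w - U w) := Ut_cont.sub D.cont
    have h1 : ∀ᶠ w in 𝓝 (0:ℂ), |Ut b w - U w| < ε / 2 := by
      apply hcc.abs.continuousAt.eventually_lt_const
      show |Ut b 0 - U 0| < ε / 2
      rw [h0, sub_self, abs_zero]; linarith
    obtain ⟨r, hr, hball⟩ := Metric.eventually_nhds_iff.1 h1
    refine ⟨r / 2, by linarith, fun z hz => ?_⟩
    have e1 : d z = ∫ t in (-z.re)..z.re, (Ut b (mkC t z.im) - U (mkC t z.im)) := by
      simp only [hd]
      unfold MU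
      rw [intervalIntegral.integral_sub (MU_cont_int D'.cont _ _ _) (MU_cont_int D.cont _ _ _)]
      ring
    have h2 : ‖∫ t in (-z.re)..z.re, (Ut b (mkC t z.im) - U (mkC t z.im))‖
        ≤ ε / 2 * |z.re - (-z.re)| := by
      apply intervalIntegral.norm_integral_le_of_norm_le_const
      intro t ht
      have ht' : |t| ≤ |z.re| := by
        rcases le_total 0 z.re with a | a
        · rw [uIoc_of_le (by linarith)] at ht
          rw [abs_of_nonneg a, abs_le]; exact ⟨ht.1.le, ht.2⟩
        · rw [uIoc_of_ge (by linarith)] at ht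
          rw [abs_of_nonpos a, abs_le, neg_neg]; exact ⟨ht.1.le, ht.2⟩
      apply (hball _).le
      rw [dist_zero_right]
      have h3 : ‖mkC t z.im‖ ≤ ‖z‖ := by
        have a1 := Complex.sq_norm (mkC t z.im)
        have a2 := Complex.sq_norm z
        rw [Complex.normSq_apply, mkC_re, mkC_im] at a1
        rw [Complex.normSq_apply] at a2
        have a3 : t * t ≤ z.re * z.re := by
          have := sq_le_sq.2 ht'; nlinarith
        have a4 : ‖mkC t z.im‖ ^ 2 ≤ ‖z‖ ^ 2 := by rw [a1, a2]; linarith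
        exact (pow_le_pow_iff_left₀ (norm_nonneg _) (norm_nonneg _) two_ne_zero).1 a4
      linarith
    rw [e1, ← Real.norm_eq_abs]
    refine h2.trans ?_
    have h4 : |z.re - (-z.re)| = 2 * |z.re| := by
      rw [sub_neg_eq_add, ← two_mul, abs_mul, abs_of_pos (by norm_num : (0:ℝ) < 2)]
    rw [h4]
    have := Complex.abs_re_le_norm z
    nlinarith
  have hzero := hopf hρ0 hdc.continuousOn hdm hdp hdn hdo'
  -- derivative
  set e : ℂ → ℝ := fun z => 2 * Ut b z - U z - U (mkC (-z.re) z.im) with he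
  have hec : Continuous e := by
    apply Continuous.sub
    · exact (continuous_const.mul Ut_cont).sub D.cont
    · exact cont2 D.cont (by fun_prop) (by fun_prop)
  have he0 : ∀ z ∈ Metric.ball (0:ℂ) ρ, e z = 0 := by
    intro z hz
    rw [mem_ball_zero_iff] at hz
    have h1 := (MU_deriv D'.cont z.re z.im).sub (MU_deriv D.cont z.re z.im)
    have h2 : (fun s => MU (Ut b) (mkC s z.im)) - (fun s => MU U (mkC s z.im)) =ᶠ[𝓝 z.re] fun _ => (0:ℝ) := by
      have hc1 : Continuous (fun s : ℝ => mkC s z.im) := mkC_cont.comp (by fun_prop : Continuous fun s : ℝ => ((s, z.im) : ℝ × ℝ))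
      have hop : IsOpen ((fun s : ℝ => mkC s z.im) ⁻¹' Metric.ball (0:ℂ) ρ) := Metric.isOpen_ball.preimage hc1
      have hmem : z.re ∈ ((fun s : ℝ => mkC s z.im) ⁻¹' Metric.ball (0:ℂ) ρ) := by
        show mkC z.re z.im ∈ Metric.ball (0:ℂ) ρ
        rw [mkC_eta, mem_ball_zero_iff]; exact hz
      filter_upwards [hop.mem_nhds hmem] with s hs
      have := hzero _ (Metric.ball_subset_closedBall hs)
      simp only [hd] at this
      show MU (Ut b) (mkC s z.im) - MU U (mkC s z.im) = 0
      linarith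
    have h3 := h1.unique ((hasDerivAt_const z.re (0:ℝ)).congr_of_eventuallyEq h2)
    rw [Ut_even, mkC_eta] at h3
    simp only [he]
    linarith
  -- identity theorem in the upper half plane
  have hup : ∀ z : ℂ, 0 < z.im → e z = 0 := by
    have han : AnalyticOnNhd ℝ e {z : ℂ | 0 < z.im} := by
      intro z hz
      have hz' : z.im ≠ 0 := ne_of_gt hz
      have a1 : AnalyticAt ℝ (Ut b) z := HarmonicAt.analyticAt (D'.harm z (Or.inl hz'))
      have a2 : AnalyticAt ℝ U z := HarmonicAt.analyticAt (D.harm z (Or.inl hz'))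
      have a3 := refl_analytic D hz'
      exact ((analyticAt_const.mul a1).sub a2).sub a3
    have hpre : IsPreconnected {z : ℂ | 0 < z.im} := by
      have : Convex ℝ {z : ℂ | 0 < z.im} := convex_halfSpace_im_gt 0
      exact this.isPreconnected
    have hmem : mkC 0 (ρ / 2) ∈ {z : ℂ | 0 < z.im} := by
      show 0 < (mkC 0 (ρ / 2)).im
      rw [mkC_im]; linarith
    have hev : e =ᶠ[𝓝 (mkC 0 (ρ / 2))] 0 := by
      have hmb : mkC 0 (ρ / 2) ∈ Metric.ball (0:ℂ) ρ := by
        rw [mem_ball_zero_iff]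
        have a1 := Complex.sq_norm (mkC 0 (ρ / 2))
        rw [Complex.normSq_apply, mkC_re, mkC_im] at a1
        have : ‖mkC 0 (ρ / 2)‖ ^ 2 < ρ ^ 2 := by rw [a1]; nlinarith
        exact (pow_lt_pow_iff_left₀ (norm_nonneg _) hρ0.le two_ne_zero).1 this
      filter_upwards [Metric.isOpen_ball.mem_nhds hmb] with z hz
      exact he0 z hz
    have := han.eqOn_zero_of_preconnected_of_eventuallyEq_zero hpre hmem hev
    intro z hz
    exact this hz
  have hall : ∀ z : ℂ, e z = 0 := by
    have hne : ∀ z : ℂ, z.im ≠ 0 → e z = 0 := by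
      intro z hz
      rcases lt_or_gt_of_ne hz with h | h
      · have h1 := hup (mkC z.re (-z.im)) (by simpa using h)
        simp only [he, mkC_re, mkC_im] at h1
        rw [hsym, hsym, Ut_symm, mkC_eta] at h1
        simp only [he]; exact h1
      · exact hup z h
    intro z
    by_cases hz : z.im = 0
    · have hcl : IsClosed {t : ℝ | e (mkC z.re t) = 0} :=
        isClosed_eq (cont2 hec continuous_const continuous_id) continuous_const
      have hsub : {t : ℝ | t ≠ 0} ⊆ {t : ℝ | e (mkC z.re t) = 0} := by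
        intro t ht
        exact hne _ (by simpa using ht)
      have h1 : (0:ℝ) ∈ closure {t : ℝ | t ≠ 0} := by
        have : Dense ({(0:ℝ)}ᶜ) := dense_compl_singleton 0
        exact this 0
      have h2 := closure_minimal hsub hcl h1
      have h3 : e (mkC z.re 0) = 0 := h2
      have h4 : mkC z.re 0 = z := by rw [← hz, mkC_eta]
      rw [h4] at h3
      exact h3
    · exact hne z hz
  intro x y
  have := hall (mkC x y)
  simp only [he, mkC_re, mkC_im] at this
  linarith

/-- equality at the origin forces the set to be the periodic one -/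
theorem uniq_set (D : Data U E) (hsym : ∀ x y, U (mkC x (-y)) = U (mkC x y))
    (hpos : ∀ z : ℂ, (z.im ≠ 0 ∨ z.re ∉ E) → 0 < U z) {g : ℝ}
    (hg0 : 0 < g) (hg : g < 1 / 2)
    (hle : ∀ x y, 0 ≤ x → x ≤ 1 / 2 → MU U (mkC x y) ≤ MU (Ut (Real.cos (Real.pi * g))) (mkC x y))
    (h0 : U 0 = Ut (Real.cos (Real.pi * g)) 0) :
    E = Et (Real.cos (Real.pi * g)) := by
  set b := Real.cos (Real.pi * g) with hb
  have hb0 := bpos hg0 hg
  have D' : Data (Ut b) (Et b) := Ut_data (bpos hg0 hg) (Real.cos_le_one (Real.pi * g))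
  have hfun := uniq_fun D hsym hg0 hg hle h0
  rw [← hb] at hfun
  apply Set.Subset.antisymm
  · intro x hx
    by_contra hxT
    have hU0 : U (mkC x 0) = 0 := by rw [mkC_zero]; exact D.zero x hx
    have hTp : 0 < Ut b (mkC x 0) := by
      have h1 : Ut b (mkC x 0) ≠ 0 := by
        rw [Ne, Ut_zero_iff hb0 (Real.cos_le_one _)]
        rintro ⟨_, h⟩
        exact hxT h
      exact lt_of_le_of_ne (Ut_nn b _) (Ne.symm h1)
    have h1 := hfun x 0
    rw [hU0, zero_add] at h1
    have hxE : -x ∉ E := by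
      intro h
      have := D.zero _ h
      rw [← mkC_zero] at this
      linarith
    obtain ⟨r1, hr1, hr1E⟩ := Metric.isOpen_iff.1 D.closed.isOpen_compl (-x) hxE
    obtain ⟨r2, hr2, hr2E⟩ := Metric.isOpen_iff.1 D'.closed.isOpen_compl x hxT
    set r := min r1 r2 / 2 with hr
    have hr0 : 0 < r := by have := lt_min hr1 hr2; linarith
    have hrr1 : r < r1 := by have := min_le_left r1 r2; linarith
    have hrr2 : r < r2 := by have := min_le_right r1 r2; linarith
    have m1 := D.mv (mkC (-x) 0) r hr0 (by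
      intro w hw
      right
      apply hr1E
      rw [Metric.mem_ball, Real.dist_eq]
      rw [Metric.mem_closedBall, dist_eq_norm] at hw
      have h1 := Complex.abs_re_le_norm (w - mkC (-x) 0)
      rw [sub_re, mkC_re] at h1
      linarith)
    have m2 := D'.mv (mkC x 0) r hr0 (by
      intro w hw
      right
      apply hr2E
      rw [Metric.mem_ball, Real.dist_eq]
      rw [Metric.mem_closedBall, dist_eq_norm] at hw
      have h1 := Complex.abs_re_le_norm (w - mkC x 0)
      rw [sub_re, mkC_re] at h1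
      linarith)
    simp only [mkC_re, mkC_im] at m1 m2
    have m3 := int_refl (fun a c => U (mkC (-x + a) (0 + c))) r
    have m4 : ∫ θ in (0:ℝ)..2 * Real.pi, U (mkC (x + r * Real.cos θ) (0 + r * Real.sin θ)) = 0 := by
      have e1 : ∀ θ : ℝ, U (mkC (x + r * Real.cos θ) (0 + r * Real.sin θ))
          = 2 * Ut b (mkC (x + r * Real.cos θ) (0 + r * Real.sin θ))
            - U (mkC (-x + -(r * Real.cos θ)) (0 + r * Real.sin θ)) := by
        intro θ
        have := hfun (x + r * Real.cos θ) (0 + r * Real.sin θ)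
        have e : -(x + r * Real.cos θ) = -x + -(r * Real.cos θ) := by ring
        rw [e] at this
        linarith
      simp only [e1]
      rw [intervalIntegral.integral_sub, intervalIntegral.integral_const_mul, m2, m3, m1, h1]
      · ring
      · exact (continuous_const.mul (cont2 Ut_cont (f := fun θ : ℝ => x + r * Real.cos θ)
          (g := fun θ : ℝ => 0 + r * Real.sin θ) (by fun_prop) (by fun_prop))).intervalIntegrable _ _
      · exact (cont2 D.cont (f := fun θ : ℝ => -x + -(r * Real.cos θ))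
          (g := fun θ : ℝ => 0 + r * Real.sin θ) (by fun_prop) (by fun_prop)).intervalIntegrable _ _
    have m5 : (∫ θ in (0:ℝ)..2 * Real.pi, (0:ℝ))
        < ∫ θ in (0:ℝ)..2 * Real.pi, U (mkC (x + r * Real.cos θ) (0 + r * Real.sin θ)) := by
      apply intervalIntegral.integral_lt_integral_of_continuousOn_of_le_of_exists_lt
        (by positivity) continuousOn_const
        (cont2 D.cont (f := fun θ : ℝ => x + r * Real.cos θ)
          (g := fun θ : ℝ => 0 + r * Real.sin θ) (by fun_prop) (by fun_prop)).continuousOn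
        (fun θ _ => D.nn _)
      refine ⟨Real.pi / 2, ⟨by positivity, by linarith [Real.pi_pos]⟩, ?_⟩
      apply hpos
      left
      rw [mkC_im, Real.sin_pi_div_two]
      linarith
    rw [intervalIntegral.integral_zero, m4] at m5
    exact lt_irrefl _ m5
  · intro x hx
    by_contra hxE
    have h1 := hfun x 0
    have h2 : Ut b (mkC x 0) = 0 := by
      rw [Ut_zero_iff hb0 (Real.cos_le_one _)]; exact ⟨rfl, hx⟩
    have h3 : 0 < U (mkC x 0) := hpos _ (Or.inr (by simpa using hxE))
    have h4 := D.nn (mkC (-x) 0)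
    rw [h2] at h1
    linarith

end Pool.Agent.U591.LV
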