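import Pool.Agent.U591.LV.Quad
import Pool.Agent.U591.LV.Uniq

set_option autoImplicit false

open MeasureTheory Set Filter Topology Complex InnerProductSpace

namespace Pool.Agent.U591.LV

variable {U : ℂ → ℝ} {E : Set ℝ}

theorem shift_mk (s y a : ℝ) : mkC s y + (a : ℂ) = mkC (s + a) y := by
  unfold mkC; push_cast; ring

/-- the comparison centred at an arbitrary real point -/
theorem centred (D : Data U E) (hsym : ∀ x y, U (mkC x (-y)) = U (mkC x y)) {g : ℝ}
    (hg0 : 0 < g) (hg : g < 1 / 2)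
    (hδ : ∀ a : ℝ, ENNReal.ofReal (1 - 2 * g) ≤ volume (E ∩ Icc a (a + 1)))
    (hlim : Tendsto (fun y : ℝ => U (mkC 0 y) / y) atTop (𝓝 1)) (x1 : ℝ) :
    ∀ x y, 0 ≤ x → x ≤ 1 / 2 → MU (fun z => U (z + (x1 : ℂ))) (mkC x y)
      ≤ MU (Ut (Real.cos (Real.pi * g))) (mkC x y) := by
  obtain ⟨C, hC⟩ := growth_final D hsym hg0 hg hδ hlim
  have hmain := core_main D hsym hg0 hg hC hδ
  intro x y hx0 hx1
  apply MU_le (D.shift x1) _ y hx0 hx1
  intro c x y hx0 hx1 f hf hfm
  have := hmain (c + x1) x y hx0 hx1 f hf hfm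
  refine le_trans (le_of_eq ?_) this
  congr 1
  ext t
  show f t * U (mkC (c + t) y + (x1 : ℂ)) = f t * U (mkC (c + x1 + t) y)
  rw [shift_mk]
  congr 3; ring

theorem bound_one (D : Data U E) (hsym : ∀ x y, U (mkC x (-y)) = U (mkC x y)) {g : ℝ}
    (hg0 : 0 < g) (hg : g < 1 / 2)
    (hδ : ∀ a : ℝ, ENNReal.ofReal (1 - 2 * g) ≤ volume (E ∩ Icc a (a + 1)))
    (hlim : Tendsto (fun y : ℝ => U (mkC 0 y) / y) atTop (𝓝 1)) (x1 : ℝ) :
    U (x1 : ℂ) ≤ Ut (Real.cos (Real.pi * g)) 0 := by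
  have h := point_le (D.shift x1) hg0 hg (centred D hsym hg0 hg hδ hlim x1)
  simpa using h

theorem eq_one (D : Data U E) (hsym : ∀ x y, U (mkC x (-y)) = U (mkC x y))
    (hpos : ∀ z : ℂ, (z.im ≠ 0 ∨ z.re ∉ E) → 0 < U z) {g : ℝ}
    (hg0 : 0 < g) (hg : g < 1 / 2)
    (hδ : ∀ a : ℝ, ENNReal.ofReal (1 - 2 * g) ≤ volume (E ∩ Icc a (a + 1)))
    (hlim : Tendsto (fun y : ℝ => U (mkC 0 y) / y) atTop (𝓝 1)) (x1 : ℝ)
    (heq : U (x1 : ℂ) = Ut (Real.cos (Real.pi * g)) 0) :
    (fun x : ℝ => x + x1) ⁻¹' E = Et (Real.cos (Real.pi * g)) := by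
  apply uniq_set (D.shift x1) _ _ hg0 hg (centred D hsym hg0 hg hδ hlim x1)
  · simpa using heq
  · intro x y
    show U (mkC x (-y) + (x1 : ℂ)) = U (mkC x y + (x1 : ℂ))
    rw [shift_mk, shift_mk, hsym]
  · intro z hz
    show 0 < U (z + (x1 : ℂ))
    apply hpos
    simpa using hz

/-- the extremal value -/
theorem Ut_value {δ : ℝ} (hδ0 : 0 < δ) (hδ1 : δ < 1) :
    Ut (Real.cos (Real.pi * ((1 - δ) / 2))) 0 = 1 / Real.pi * Real.log (Real.cot (Real.pi * δ / 4)) := by
  have hπ := Real.pi_pos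
  have hg0 : 0 < (1 - δ) / 2 := by linarith
  have hg : (1 - δ) / 2 < 1 / 2 := by linarith
  rw [Ut_origin (bpos hg0 hg) (Real.cos_le_one _)]
  congr 1
  set α := Real.pi * δ / 4 with hα
  have hα0 : 0 < α := by positivity
  have hα1 : α < Real.pi / 4 := by rw [hα]; nlinarith
  have hs : 0 < Real.sin α := Real.sin_pos_of_pos_of_lt_pi hα0 (by linarith)
  have hc : 0 < Real.cos α := Real.cos_pos_of_mem_Ioo ⟨by linarith, by linarith⟩
  have hb : Real.cos (Real.pi * ((1 - δ) / 2)) = 2 * Real.sin α * Real.cos α := by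
    rw [← Real.sin_two_mul, ← Real.cos_pi_div_two_sub]
    congr 1; rw [hα]; ring
  have hsc : Real.sin α < Real.cos α := by
    rw [← Real.cos_pi_div_two_sub]
    apply Real.cos_lt_cos_of_nonneg_of_le_pi <;> linarith
  rw [hb, Real.cot_eq_cos_div_sin]
  have h1 : 1 ≤ Real.cos α / Real.sin α := by rw [one_le_div hs]; exact hsc.le
  have h2 : 1 / (2 * Real.sin α * Real.cos α) = Real.cosh (Real.log (Real.cos α / Real.sin α)) := by
    rw [Real.cosh_log (by positivity)]
    have := Real.sin_sq_add_cos_sq α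
    field_simp
    linarith
  rw [h2, Real.arcosh_cosh (Real.log_nonneg h1)]

theorem abs_cos_int (x : ℝ) (n : ℤ) : |Real.cos (Real.pi * (x + n))| = |Real.cos (Real.pi * x)| := by
  have : Real.pi * (x + n) = Real.pi * x + n * Real.pi := by ring
  rw [this, Real.cos_add_int_mul_pi, abs_mul]
  have h : |((-1:ℝ)) ^ n| = 1 := by
    rw [abs_zpow, abs_neg, abs_one, one_zpow]
  rw [h, one_mul]

theorem Et_eq {g : ℝ} (hg0 : 0 < g) (hg : g < 1 / 2) :
    Et (Real.cos (Real.pi * g)) = ⋃ n : ℤ, Icc ((n : ℝ) + g) ((n : ℝ) + 1 - g) := by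
  ext x
  rw [mem_iUnion]
  have hper : ∀ (n : ℤ) (t : ℝ), t + n ∈ Et (Real.cos (Real.pi * g)) ↔ t ∈ Et (Real.cos (Real.pi * g)) := by
    intro n t
    show |Real.cos (Real.pi * (t + n))| ≤ _ ↔ |Real.cos (Real.pi * t)| ≤ _
    rw [abs_cos_int]
  constructor
  · intro hx
    set n := ⌊x⌋ with hn
    have h1 := Int.floor_le x
    have h2 := Int.lt_floor_add_one x
    rw [← hn] at h1 h2
    have hx' : (x - n) ∈ Et (Real.cos (Real.pi * g)) := by
      rw [← hper n]; simpa using hx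
    have hx'' : (x - n - 1) ∈ Et (Real.cos (Real.pi * g)) := by
      have := (hper (-1) (x - n)).2 hx'
      push_cast at this
      exact this
    refine ⟨n, ?_, ?_⟩
    · by_contra hc
      push Not at hc
      exact notMem_Et hg0 hg (x := x - n) (by rw [abs_lt]; constructor <;> linarith) hx'
    · by_contra hc
      push Not at hc
      exact notMem_Et hg0 hg (x := x - n - 1) (by rw [abs_lt]; constructor <;> linarith) hx''
  · rintro ⟨n, h1, h2⟩
    have : x - n ∈ Et (Real.cos (Real.pi * g)) := mem_Et hg0 hg (by linarith) (by linarith)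
    have h3 := (hper n (x - n)).2 this
    simpa using h3

/-- the measure of the extremal set in windows -/
theorem Et_vol {g : ℝ} (hg0 : 0 < g) (hg : g < 1 / 2) (a : ℝ) :
    ENNReal.ofReal (1 - 2 * g) ≤ volume (Et (Real.cos (Real.pi * g)) ∩ Icc a (a + 1)) := by
  set S := Et (Real.cos (Real.pi * g)) with hS
  have hSm : MeasurableSet S := (Et_closed _).measurableSet
  set h : ℝ → ℝ := S.indicator (fun _ => 1) with hh
  have hper : Function.Periodic h 1 := by
    intro x
    have : x + 1 ∈ S ↔ x ∈ S := by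
      show |Real.cos (Real.pi * (x + 1))| ≤ _ ↔ |Real.cos (Real.pi * x)| ≤ _
      have := abs_cos_int x 1
      push_cast at this
      rw [this]
    by_cases hx : x ∈ S
    · simp only [hh]; rw [indicator_of_mem hx, indicator_of_mem (this.2 hx)]
    · simp only [hh]; rw [indicator_of_notMem hx, indicator_of_notMem (fun h => hx (this.1 h))]
  have h1 := hper.intervalIntegral_add_eq a 0
  rw [zero_add] at h1
  have h2 : ∀ c : ℝ, ∫ t in c..c + 1, h t = volume.real (S ∩ Ioc c (c + 1)) := by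
    intro c
    rw [intervalIntegral.integral_of_le (by linarith), hh, integral_indicator_const _ hSm, smul_eq_mul,
      mul_one, measureReal_restrict_apply hSm]
  have h3 := h2 0
  rw [zero_add] at h3
  rw [h2, h3] at h1
  have h4 : 1 - 2 * g ≤ volume.real (S ∩ Ioc 0 1) := by
    have hsub : Icc g (1 - g) ⊆ S ∩ Ioc 0 1 := by
      intro t ht
      exact ⟨mem_Et hg0 hg ht.1 ht.2, by linarith [ht.1], by linarith [ht.2]⟩
    have := measureReal_mono (μ := volume) hsub (by
      exact ((measure_mono inter_subset_right).trans_lt (by rw [Real.volume_Ioc]; exact ENNReal.ofReal_lt_top)).ne)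
    rw [Real.volume_real_Icc] at this
    have h5 := le_max_left (1 - g - g) 0
    linarith
  rw [← h1] at h4
  have hfin : volume (S ∩ Ioc a (a + 1)) ≠ ⊤ :=
    ((measure_mono inter_subset_right).trans_lt (by rw [Real.volume_Ioc]; exact ENNReal.ofReal_lt_top)).ne
  have h5 : ENNReal.ofReal (1 - 2 * g) ≤ volume (S ∩ Ioc a (a + 1)) := by
    rw [ENNReal.ofReal_le_iff_le_toReal hfin]
    exact h4
  exact h5.trans (measure_mono (inter_subset_inter_right _ Ioc_subset_Icc_self))

theorem Ut_lim {b : ℝ} (hb : 0 < b) (hb1 : b ≤ 1) (x : ℝ) :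
    Tendsto (fun y : ℝ => Ut b (mkC x y) / y) atTop (𝓝 1) := by
  set C := (1 / Real.pi) * Real.log (4 / b) with hC
  have h1 : Tendsto (fun y : ℝ => 1 - 1 / y) atTop (𝓝 (1 - 0)) :=
    tendsto_const_nhds.sub (tendsto_const_nhds.div_atTop tendsto_id)
  have h2 : Tendsto (fun y : ℝ => 1 + C / y) atTop (𝓝 (1 + 0)) :=
    tendsto_const_nhds.add (tendsto_const_nhds.div_atTop tendsto_id)
  rw [sub_zero] at h1
  rw [add_zero] at h2
  apply tendsto_of_tendsto_of_tendsto_of_le_of_le' h1 h2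
  · filter_upwards [eventually_gt_atTop 0] with y hy
    have := Ut_low hb hb1 x y
    rw [abs_of_pos hy] at this
    rw [le_div_iff₀ hy]
    have e : (1 - 1 / y) * y = y - 1 := by field_simp
    linarith
  · filter_upwards [eventually_gt_atTop 0] with y hy
    have := Ut_up hb hb1 x y
    rw [abs_of_pos hy] at this
    rw [div_le_iff₀ hy]
    have e : (1 + C / y) * y = y + C := by field_simp
    linarith

theorem harm_scale {V : ℂ → ℝ} {z : ℂ} {c : ℝ} (hc : c ≠ 0) (h : HarmonicAt V ((c : ℂ) * z)) :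
    HarmonicAt (fun w => V ((c : ℂ) * w)) z := by
  have hop := isOpen_setOfPred_harmonicAt V
  obtain ⟨r, hr, hsub⟩ := Metric.isOpen_iff.1 hop _ h
  obtain ⟨F, hF, hFe⟩ := InnerProductSpace.HarmonicOnNhd.exists_analyticOnNhd_ball_re_eq
    (f := V) (z := (c : ℂ) * z) (R := r) (fun w hw => hsub hw)
  have h1 : AnalyticAt ℂ (fun w => F ((c : ℂ) * w)) z :=
    AnalyticAt.fun_comp (hF _ (Metric.mem_ball_self hr)) (by fun_prop)
  refine (harmonicAt_congr_nhds ?_).1 h1.harmonicAt_re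
  have hcont : Continuous (fun w : ℂ => (c : ℂ) * w) := by fun_prop
  filter_upwards [hcont.continuousAt.eventually_mem (Metric.ball_mem_nhds ((c : ℂ) * z) hr)] with w hw
  exact hFe hw

end Pool.Agent.U591.LV
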