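import Pool.Agent.U591.LV.Dens

set_option autoImplicit false

open MeasureTheory Set Filter Topology

namespace Pool.Agent.U591.LV

/-- dual functional -/
noncomputable def Hf (g : ℝ → ℝ) (m l : ℝ) : ℝ := m * l + ∫ t in (0:ℝ)..1, max (g t - l) 0

theorem Hf_upper {g f : ℝ → ℝ} (hg : Continuous g) (hf : Dens f) {m l : ℝ} (hm : ∫ t, f t ≤ m)
    (hl : 0 ≤ l) : ∫ t, f t * g t ≤ Hf g m l := by
  have hc : Continuous (fun t => max (g t - l) 0) := (hg.sub continuous_const).max continuous_const
  have h1 : Integrable (indicator (Icc (0:ℝ) 1) (fun t => max (g t - l) 0)) := by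
    rw [integrable_indicator_iff measurableSet_Icc]
    exact hc.continuousOn.integrableOn_Icc
  have h2 : ∫ t, f t * g t ≤ ∫ t, (l * f t + indicator (Icc (0:ℝ) 1) (fun t => max (g t - l) 0) t) := by
    apply integral_mono (hf.integrable_mul hg) ((hf.integrable.const_mul l).add h1)
    intro t
    show f t * g t ≤ l * f t + indicator (Icc (0:ℝ) 1) (fun t => max (g t - l) 0) t
    by_cases ht : t ∈ Icc (0:ℝ) 1
    · rw [indicator_of_mem ht]
      have a1 := hf.nn t
      have a2 := hf.le1 t
      have a3 : g t - l ≤ max (g t - l) 0 := le_max_left _ _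
      have a4 : 0 ≤ max (g t - l) 0 := le_max_right _ _
      nlinarith
    · rw [indicator_of_notMem ht, hf.supp t ht]
      simp
  refine h2.trans ?_
  rw [integral_add (hf.integrable.const_mul l) h1, integral_const_mul,
    integral_indicator measurableSet_Icc, Hf, intervalIntegral.integral_of_le zero_le_one,
    integral_Icc_eq_integral_Ioc]
  have := mul_le_mul_of_nonneg_left hm hl
  linarith

theorem Hf_mono_aux {g : ℝ → ℝ} (hg : Continuous g) (l l' : ℝ) :
    (∫ t in (0:ℝ)..1, max (g t - l) 0) - (∫ t in (0:ℝ)..1, max (g t - l') 0)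
      = ∫ t in Icc (0:ℝ) 1, (max (g t - l) 0 - max (g t - l') 0) := by
  have hc : ∀ l, Continuous (fun t => max (g t - l) 0) := fun l =>
    (hg.sub continuous_const).max continuous_const
  rw [intervalIntegral.integral_of_le zero_le_one, intervalIntegral.integral_of_le zero_le_one,
    integral_Icc_eq_integral_Ioc, integral_sub]
  · exact ((hc l).continuousOn.integrableOn_Icc).mono_set Ioc_subset_Icc_self
  · exact ((hc l').continuousOn.integrableOn_Icc).mono_set Ioc_subset_Icc_self

/-- the level of a minimiser -/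
theorem level {g : ℝ → ℝ} (hg : Continuous g) (hg0 : ∀ t, 0 ≤ g t) {m l : ℝ} (hm1 : m ≤ 1)
    (hl : 0 ≤ l) (hmin : ∀ l', 0 ≤ l' → Hf g m l ≤ Hf g m l') :
    volume.real {t | t ∈ Icc (0:ℝ) 1 ∧ l < g t} ≤ m ∧
    m ≤ volume.real {t | t ∈ Icc (0:ℝ) 1 ∧ l ≤ g t} := by
  have hfin : ∀ s : Set ℝ, s ⊆ Icc (0:ℝ) 1 → volume s ≠ ⊤ := fun s hs =>
    ((measure_mono hs).trans_lt (by simp)).ne
  have hmO : ∀ l, MeasurableSet {t | t ∈ Icc (0:ℝ) 1 ∧ l < g t} := fun l =>
    measurableSet_Icc.inter (measurableSet_lt measurable_const hg.measurable)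
  have hmC : ∀ l, MeasurableSet {t | t ∈ Icc (0:ℝ) 1 ∧ l ≤ g t} := fun l =>
    measurableSet_Icc.inter (measurableSet_le measurable_const hg.measurable)
  have hc : ∀ l, Continuous (fun t => max (g t - l) 0) := fun l =>
    (hg.sub continuous_const).max continuous_const
  constructor
  · -- upper
    have h1 : ∀ l', l < l' → volume.real {t | t ∈ Icc (0:ℝ) 1 ∧ l' ≤ g t} ≤ m := by
      intro l' hl'
      have h2 := hmin l' (hl.trans hl'.le)
      unfold Hf at h2
      have h3 := Hf_mono_aux hg l l'
      have h4 : (l' - l) * volume.real {t | t ∈ Icc (0:ℝ) 1 ∧ l' ≤ g t}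
          ≤ ∫ t in Icc (0:ℝ) 1, (max (g t - l) 0 - max (g t - l') 0) := by
        have h5 : ∫ t in Icc (0:ℝ) 1, indicator {t | t ∈ Icc (0:ℝ) 1 ∧ l' ≤ g t} (fun _ => l' - l) t
            = (l' - l) * volume.real {t | t ∈ Icc (0:ℝ) 1 ∧ l' ≤ g t} := by
          rw [setIntegral_indicator (hmC l'), setIntegral_const, smul_eq_mul, mul_comm]
          congr 2
          ext t
          exact ⟨fun h => h.2, fun h => ⟨h.1, h⟩⟩
        rw [← h5]
        apply setIntegral_mono_on
        · apply (integrable_indicator_iff (hmC l')).2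
          exact integrableOn_const (((Measure.restrict_apply_le _ _).trans_lt
            ((hfin _ (fun t ht => ht.1)).lt_top)).ne)
        · exact (((hc l).sub (hc l')).continuousOn.integrableOn_Icc)
        · exact measurableSet_Icc
        · intro t ht
          by_cases h6 : l' ≤ g t
          · rw [indicator_of_mem (show t ∈ {t | t ∈ Icc (0:ℝ) 1 ∧ l' ≤ g t} from ⟨ht, h6⟩)]
            rw [max_eq_left (by linarith), max_eq_left (by linarith)]; linarith
          · rw [indicator_of_notMem (fun h => h6 h.2)]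
            have : max (g t - l') 0 ≤ max (g t - l) 0 := max_le_max (by linarith) le_rfl
            linarith
      have h5 : (l' - l) * volume.real {t | t ∈ Icc (0:ℝ) 1 ∧ l' ≤ g t} ≤ (l' - l) * m := by
        linarith
      exact le_of_mul_le_mul_left h5 (by linarith)
    have hU : {t | t ∈ Icc (0:ℝ) 1 ∧ l < g t}
        = ⋃ n : ℕ, {t | t ∈ Icc (0:ℝ) 1 ∧ l + 1 / ((n:ℝ) + 1) ≤ g t} := by
      ext t
      constructor
      · intro h
        obtain ⟨n, hn⟩ := exists_nat_one_div_lt (show (0:ℝ) < g t - l from sub_pos.2 h.2)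
        exact mem_iUnion.2 ⟨n, h.1, by linarith⟩
      · intro h
        obtain ⟨n, hn⟩ := mem_iUnion.1 h
        have h6 : (0:ℝ) < 1 / ((n:ℝ) + 1) := by positivity
        exact ⟨hn.1, by linarith [hn.2]⟩
    have hmonoS : Monotone (fun n : ℕ => {t | t ∈ Icc (0:ℝ) 1 ∧ l + 1 / ((n:ℝ) + 1) ≤ g t}) := by
      intro n k hnk t ht
      refine ⟨ht.1, le_trans ?_ ht.2⟩
      have : 1 / ((k:ℝ) + 1) ≤ 1 / ((n:ℝ) + 1) := by
        apply one_div_le_one_div_of_le (by positivity)
        have : (n:ℝ) ≤ k := by exact_mod_cast hnk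
        linarith
      linarith
    have hlim := tendsto_measure_iUnion_atTop (μ := (volume : Measure ℝ)) hmonoS
    rw [← hU] at hlim
    have hlim2 := (ENNReal.tendsto_toReal (hfin _ (fun t ht => ht.1))).comp hlim
    refine le_of_tendsto hlim2 (Eventually.of_forall fun n => ?_)
    exact h1 _ (by have : (0:ℝ) < 1 / ((n:ℝ) + 1) := by positivity
                   linarith)
  · rcases hl.eq_or_lt with h0 | h0
    · have : {t | t ∈ Icc (0:ℝ) 1 ∧ l ≤ g t} = Icc (0:ℝ) 1 := by
        ext t; exact ⟨fun h => h.1, fun h => ⟨h, by rw [← h0]; exact hg0 t⟩⟩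
      rw [this]; simpa using hm1
    · have h1 : ∀ l', 0 ≤ l' → l' < l → m ≤ volume.real {t | t ∈ Icc (0:ℝ) 1 ∧ l' < g t} := by
        intro l' hl0 hl'
        have h2 := hmin l' hl0
        unfold Hf at h2
        have h3 := Hf_mono_aux hg l' l
        have h4 : ∫ t in Icc (0:ℝ) 1, (max (g t - l') 0 - max (g t - l) 0)
            ≤ (l - l') * volume.real {t | t ∈ Icc (0:ℝ) 1 ∧ l' < g t} := by
          have h5 : ∫ t in Icc (0:ℝ) 1, indicator {t | t ∈ Icc (0:ℝ) 1 ∧ l' < g t} (fun _ => l - l') t
              = (l - l') * volume.real {t | t ∈ Icc (0:ℝ) 1 ∧ l' < g t} := by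
            rw [setIntegral_indicator (hmO l'), setIntegral_const, smul_eq_mul, mul_comm]
            congr 2
            ext t
            exact ⟨fun h => h.2, fun h => ⟨h.1, h⟩⟩
          rw [← h5]
          apply setIntegral_mono_on
          · exact (((hc l').sub (hc l)).continuousOn.integrableOn_Icc)
          · apply (integrable_indicator_iff (hmO l')).2
            exact integrableOn_const (((Measure.restrict_apply_le _ _).trans_lt
              ((hfin _ (fun t ht => ht.1)).lt_top)).ne)
          · exact measurableSet_Icc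
          · intro t ht
            by_cases h6 : l' < g t
            · rw [indicator_of_mem (show t ∈ {t | t ∈ Icc (0:ℝ) 1 ∧ l' < g t} from ⟨ht, h6⟩)]
              rw [max_eq_left (show (0:ℝ) ≤ g t - l' by linarith)]
              have : g t - l ≤ max (g t - l) 0 := le_max_left _ _
              linarith
            · rw [indicator_of_notMem (fun h => h6 h.2)]
              rw [max_eq_right (show g t - l' ≤ 0 by linarith), max_eq_right (show g t - l ≤ 0 by linarith)]
              simp
        have h5 : (l - l') * m ≤ (l - l') * volume.real {t | t ∈ Icc (0:ℝ) 1 ∧ l' < g t} := by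
          linarith
        exact le_of_mul_le_mul_left h5 (by linarith)
      have hI : {t | t ∈ Icc (0:ℝ) 1 ∧ l ≤ g t}
          = ⋂ n : ℕ, {t | t ∈ Icc (0:ℝ) 1 ∧ l - l / ((n:ℝ) + 1) < g t} := by
        ext t
        constructor
        · intro h
          refine mem_iInter.2 fun n => ⟨h.1, ?_⟩
          have : 0 < l / ((n:ℝ) + 1) := by positivity
          linarith [h.2]
        · intro h
          have h' := fun n => mem_iInter.1 h n
          refine ⟨(h' 0).1, ?_⟩
          by_contra hlt
          push Not at hlt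
          obtain ⟨n, hn⟩ := exists_nat_one_div_lt (show (0:ℝ) < (l - g t) / l from
            div_pos (by linarith) h0)
          have h6 := (h' n).2
          have h7 : l / ((n:ℝ) + 1) = l * (1 / ((n:ℝ) + 1)) := by ring
          have h8 : l * (1 / ((n:ℝ) + 1)) < l * ((l - g t) / l) := mul_lt_mul_of_pos_left hn h0
          have h9 : l * ((l - g t) / l) = l - g t := by field_simp
          linarith
      have hanti : Antitone (fun n : ℕ => {t | t ∈ Icc (0:ℝ) 1 ∧ l - l / ((n:ℝ) + 1) < g t}) := by
        intro n k hnk t ht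
        refine ⟨ht.1, lt_of_le_of_lt ?_ ht.2⟩
        have : l / ((k:ℝ) + 1) ≤ l / ((n:ℝ) + 1) := by
          apply div_le_div_of_nonneg_left h0.le (by positivity)
          have : (n:ℝ) ≤ k := by exact_mod_cast hnk
          linarith
        linarith
      have hlim := tendsto_measure_iInter_atTop (μ := (volume : Measure ℝ))
        (fun n => (hmO _).nullMeasurableSet) hanti ⟨0, hfin _ (fun t ht => ht.1)⟩
      rw [← hI] at hlim
      have hlim2 := (ENNReal.tendsto_toReal (hfin _ (fun t ht => ht.1))).comp hlim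
      refine ge_of_tendsto hlim2 (Eventually.of_forall fun n => ?_)
      have h6 : l / ((n:ℝ) + 1) ≤ l := by
        apply div_le_self h0.le
        have : (0:ℝ) ≤ n := Nat.cast_nonneg n
        linarith
      have h7 : 0 < l / ((n:ℝ) + 1) := by positivity
      exact h1 _ (by linarith) (by linarith)

/-- two ordered intervals on which a density is one and zero -/
def Ord (f : ℝ → ℝ) (p q : ℝ) : Prop :=
  ∃ a b h : ℝ, 0 < h ∧ 0 ≤ a ∧ a + h ≤ b ∧ b + h ≤ 1 ∧ (∀ t ∈ Ioo a (a + h), f t = p) ∧
    (∀ t ∈ Ioo b (b + h), f t = q)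

theorem nbhd_interval {S : Set ℝ} (hS : IsOpen S) {t : ℝ} (ht : t ∈ Icc (0:ℝ) 1) (htS : t ∈ S) :
    ∃ a h : ℝ, 0 < h ∧ 0 ≤ a ∧ a + h ≤ 1 ∧ Ioo a (a + h) ⊆ S := by
  obtain ⟨ε, hε, hb⟩ := Metric.isOpen_iff.1 hS t htS
  rcases lt_or_ge t 1 with h1 | h1
  · refine ⟨t, min ε (1 - t), lt_min hε (by linarith), ht.1, ?_, ?_⟩
    · have := min_le_right ε (1 - t); linarith
    · intro s hs
      apply hb
      rw [Metric.mem_ball, Real.dist_eq, abs_lt]
      have := min_le_left ε (1 - t)
      constructor <;> linarith [hs.1, hs.2]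
  · have h2 : t = 1 := le_antisymm ht.2 h1
    refine ⟨1 - min ε 1, min ε 1, lt_min hε one_pos, ?_, by linarith, ?_⟩
    · have := min_le_right ε 1; linarith
    · intro s hs
      apply hb
      rw [Metric.mem_ball, Real.dist_eq, abs_lt]
      have := min_le_left ε 1
      constructor <;> linarith [hs.1, hs.2]

/-- existence of an optimal density with two ordered intervals -/
theorem opt_exists {g : ℝ → ℝ} (hg : Continuous g) (hg0 : ∀ t, 0 ≤ g t) {m l : ℝ} (hm0 : 0 < m)
    (hm1 : m < 1) (hl : 0 ≤ l) (hmin : ∀ l', 0 ≤ l' → Hf g m l ≤ Hf g m l')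
    (hflat : volume {t | t ∈ Icc (0:ℝ) 1 ∧ g t = l} ≠ 0 → ∀ t ∈ Icc (0:ℝ) 1, g t = l) :
    ∃ f : ℝ → ℝ, Dens f ∧ (∫ t, f t) = m ∧ (∫ t, f t * g t) = Hf g m l ∧
      (∀ t, g t < l → f t = 0) ∧ (Ord f 1 0 ∨ Ord f 0 1) := by
  obtain ⟨hp, hq⟩ := level hg hg0 hm1.le hl hmin
  have hfin : ∀ s : Set ℝ, s ⊆ Icc (0:ℝ) 1 → volume s ≠ ⊤ := fun s hs =>
    ((measure_mono hs).trans_lt (by simp)).ne
  have hmO : MeasurableSet {t | t ∈ Icc (0:ℝ) 1 ∧ l < g t} :=
    measurableSet_Icc.inter (measurableSet_lt measurable_const hg.measurable)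
  have hmE : MeasurableSet {t | t ∈ Icc (0:ℝ) 1 ∧ g t = l} :=
    measurableSet_Icc.inter (measurableSet_eq_fun hg.measurable measurable_const)
  by_cases hconst : ∀ t ∈ Icc (0:ℝ) 1, g t = l
  · -- constant case
    set f : ℝ → ℝ := indicator (Icc (0:ℝ) m) (fun _ => (1:ℝ)) with hf
    have hfD : Dens f := by
      refine ⟨measurable_const.indicator measurableSet_Icc, fun t => indicator_nonneg (fun _ _ => zero_le_one) t,
        fun t => indicator_le_self' (fun _ _ => zero_le_one) t, fun t ht => ?_⟩
      rw [hf]; exact indicator_of_notMem (fun h => ht ⟨h.1, h.2.trans hm1.le⟩) _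
    have hfi : (∫ t, f t) = m := by
      rw [hf, integral_indicator measurableSet_Icc]; simp [hm0.le]
    refine ⟨f, hfD, hfi, ?_, ?_, Or.inl ⟨0, m, min m (1 - m), lt_min hm0 (by linarith), le_rfl, ?_, ?_, ?_, ?_⟩⟩
    · have e1 : (fun t => f t * g t) = fun t => l * f t := by
        ext t
        by_cases ht : t ∈ Icc (0:ℝ) m
        · rw [hconst t ⟨ht.1, ht.2.trans hm1.le⟩]; ring
        · rw [hf, indicator_of_notMem ht]; simp
      rw [e1, integral_const_mul, hfi, Hf]
      have : ∫ t in (0:ℝ)..1, max (g t - l) 0 = 0 := by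
        rw [intervalIntegral.integral_congr (g := fun _ => (0:ℝ))]
        · simp
        · intro t ht
          rw [uIcc_of_le zero_le_one] at ht
          simp [hconst t ht]
      rw [this]; ring
    · intro t ht
      rw [hf]
      apply indicator_of_notMem
      intro h
      have := hconst t ⟨h.1, h.2.trans hm1.le⟩
      linarith
    · have := min_le_left m (1 - m); linarith
    · have := min_le_right m (1 - m); linarith
    · intro t ht
      rw [hf]; apply indicator_of_mem
      have := min_le_left m (1 - m)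
      exact ⟨ht.1.le, by linarith [ht.2]⟩
    · intro t ht
      rw [hf]; apply indicator_of_notMem
      exact fun h => absurd h.2 (not_le.2 ht.1)
  · have hnull : volume {t | t ∈ Icc (0:ℝ) 1 ∧ g t = l} = 0 := by
      by_contra h; exact hconst (hflat h)
    have hpm : volume.real {t | t ∈ Icc (0:ℝ) 1 ∧ l < g t} = m := by
      apply le_antisymm hp
      refine hq.trans (le_of_eq ?_)
      have hunion : {t | t ∈ Icc (0:ℝ) 1 ∧ l ≤ g t}
          = {t | t ∈ Icc (0:ℝ) 1 ∧ l < g t} ∪ {t | t ∈ Icc (0:ℝ) 1 ∧ g t = l} := by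
        ext t
        constructor
        · intro h
          rcases h.2.lt_or_eq with h' | h'
          · exact Or.inl ⟨h.1, h'⟩
          · exact Or.inr ⟨h.1, h'.symm⟩
        · rintro (h | h)
          · exact ⟨h.1, h.2.le⟩
          · exact ⟨h.1, h.2.ge⟩
      rw [hunion]
      unfold Measure.real
      congr 1
      apply le_antisymm
      · exact (measure_union_le _ _).trans (by rw [hnull, add_zero])
      · exact measure_mono subset_union_left
    set f : ℝ → ℝ := indicator {t | t ∈ Icc (0:ℝ) 1 ∧ l < g t} (fun _ => (1:ℝ)) with hf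
    have hfD : Dens f := by
      refine ⟨measurable_const.indicator hmO, fun t => indicator_nonneg (fun _ _ => zero_le_one) t,
        fun t => indicator_le_self' (fun _ _ => zero_le_one) t, fun t ht => ?_⟩
      rw [hf]; exact indicator_of_notMem (fun h => ht h.1) _
    have hfi : (∫ t, f t) = m := by
      rw [hf, integral_indicator hmO, setIntegral_const, smul_eq_mul, mul_one]; exact hpm
    have hfg : (∫ t, f t * g t) = Hf g m l := by
      have e1 : (fun t => f t * g t) = fun t => l * f t
          + indicator (Icc (0:ℝ) 1) (fun t => max (g t - l) 0) t := by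
        ext t
        by_cases ht : t ∈ Icc (0:ℝ) 1
        · rw [indicator_of_mem ht]
          by_cases h2 : l < g t
          · rw [hf, indicator_of_mem (show t ∈ {t | t ∈ Icc (0:ℝ) 1 ∧ l < g t} from ⟨ht, h2⟩),
              max_eq_left (by linarith)]; ring
          · rw [hf, indicator_of_notMem (fun h => h2 h.2), max_eq_right (by linarith)]; ring
        · rw [indicator_of_notMem ht, hf, indicator_of_notMem (fun h => ht h.1)]; ring
      have h1 : Integrable (indicator (Icc (0:ℝ) 1) (fun t => max (g t - l) 0)) := by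
        rw [integrable_indicator_iff measurableSet_Icc]
        exact ((hg.sub continuous_const).max continuous_const).continuousOn.integrableOn_Icc
      rw [e1, integral_add (hfD.integrable.const_mul l) h1, integral_const_mul, hfi,
        integral_indicator measurableSet_Icc, Hf, intervalIntegral.integral_of_le zero_le_one,
        integral_Icc_eq_integral_Ioc]
      ring
    refine ⟨f, hfD, hfi, hfg, ?_, ?_⟩
    · intro t ht
      rw [hf]; exact indicator_of_notMem (fun h => absurd h.2 (not_lt.2 ht.le)) _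
    · -- a point above, a point below
      have habove : ∃ t, t ∈ Icc (0:ℝ) 1 ∧ l < g t := by
        by_contra h
        push Not at h
        have : {t | t ∈ Icc (0:ℝ) 1 ∧ l < g t} = ∅ := by
          ext t; exact ⟨fun h' => absurd h'.2 (not_lt.2 (h t h'.1)), fun h' => h'.elim⟩
        rw [this] at hpm
        simp at hpm; linarith
      have hbelow : ∃ t, t ∈ Icc (0:ℝ) 1 ∧ g t < l := by
        by_contra h
        push Not at h
        have h3 : Icc (0:ℝ) 1 ⊆ {t | t ∈ Icc (0:ℝ) 1 ∧ l < g t} ∪ {t | t ∈ Icc (0:ℝ) 1 ∧ g t = l} := by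
          intro t ht
          rcases (h t ht).lt_or_eq with h' | h'
          · exact Or.inl ⟨ht, h'⟩
          · exact Or.inr ⟨ht, h'.symm⟩
        have h4 : volume (Icc (0:ℝ) 1) ≤ volume {t | t ∈ Icc (0:ℝ) 1 ∧ l < g t} :=
          (measure_mono h3).trans ((measure_union_le _ _).trans (by rw [hnull, add_zero]))
        have h5 : volume.real (Icc (0:ℝ) 1) ≤ volume.real {t | t ∈ Icc (0:ℝ) 1 ∧ l < g t} :=
          ENNReal.toReal_mono (hfin _ (fun t ht => ht.1)) h4
        rw [hpm] at h5
        simp at h5; linarith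
      obtain ⟨t1, ht1, hg1⟩ := habove
      obtain ⟨t2, ht2, hg2⟩ := hbelow
      obtain ⟨a, h1, h10, a0, a1, hI1⟩ := nbhd_interval (isOpen_lt continuous_const hg) ht1 hg1
      obtain ⟨b, h2, h20, b0, b1, hI2⟩ := nbhd_interval (isOpen_lt hg continuous_const) ht2 hg2
      set h := min h1 h2 with hh
      have hh0 : 0 < h := lt_min h10 h20
      have hA : ∀ t ∈ Ioo a (a + h), f t = 1 := by
        intro t ht
        have h3 : t ∈ Ioo a (a + h1) := ⟨ht.1, by linarith [ht.2, min_le_left h1 h2]⟩
        rw [hf]; apply indicator_of_mem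
        exact ⟨⟨by linarith [ht.1], by linarith [h3.2]⟩, hI1 h3⟩
      have hB : ∀ t ∈ Ioo b (b + h), f t = 0 := by
        intro t ht
        have h3 : t ∈ Ioo b (b + h2) := ⟨ht.1, by linarith [ht.2, min_le_right h1 h2]⟩
        rw [hf]; apply indicator_of_notMem
        intro h4
        have h5 : g t < l := hI2 h3
        exact absurd h4.2 (not_lt.2 h5.le)
      have hla := min_le_left h1 h2
      have hlb := min_le_right h1 h2
      rcases le_total a b with hab | hab
      · have : a + h ≤ b := by
          by_contra hc; push Not at hc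
          have hx : (b + (a + h)) / 2 ∈ Ioo a (a + h) := ⟨by linarith, by linarith⟩
          have hy : (b + (a + h)) / 2 ∈ Ioo b (b + h) := ⟨by linarith, by linarith⟩
          have := hA _ hx; have := hB _ hy; linarith
        exact Or.inl ⟨a, b, h, hh0, a0, this, by linarith, hA, hB⟩
      · have : b + h ≤ a := by
          by_contra hc; push Not at hc
          have hx : (a + (b + h)) / 2 ∈ Ioo a (a + h) := ⟨by linarith, by linarith⟩
          have hy : (a + (b + h)) / 2 ∈ Ioo b (b + h) := ⟨by linarith, by linarith⟩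
          have := hA _ hx; have := hB _ hy; linarith
        exact Or.inr ⟨b, a, h, hh0, b0, this, by linarith, hB, hA⟩

end Pool.Agent.U591.LV
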