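import Pool.Agent.U591.LV.Circ
import Pool.Agent.U591.LV.Opt

set_option autoImplicit false

open MeasureTheory Set Filter Topology Complex InnerProductSpace

namespace Pool.Agent.U591.LV

noncomputable def mkC (x y : ℝ) : ℂ := (x : ℂ) + (y : ℂ) * I

@[simp] theorem mkC_re (x y : ℝ) : (mkC x y).re = x := by simp [mkC]
@[simp] theorem mkC_im (x y : ℝ) : (mkC x y).im = y := by simp [mkC]

theorem mkC_eta (z : ℂ) : mkC z.re z.im = z := by
  apply Complex.ext <;> simp

theorem mkC_cont : Continuous (fun p : ℝ × ℝ => mkC p.1 p.2) := by unfold mkC; fun_prop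

theorem mkC_zero (x : ℝ) : mkC x 0 = (x : ℂ) := by simp [mkC]

/-- the data of the problem: a closed set on the line meeting every window of length one, and a
nonnegative continuous function, zero on the set, harmonic off it -/
structure Data (U : ℂ → ℝ) (E : Set ℝ) : Prop where
  cont : Continuous U
  nn : ∀ z, 0 ≤ U z
  zero : ∀ t ∈ E, U (t : ℂ) = 0
  harm : ∀ z : ℂ, (z.im ≠ 0 ∨ z.re ∉ E) → HarmonicAt U z
  closed : IsClosed E
  meets : ∀ a : ℝ, ∃ e ∈ E, a ≤ e ∧ e ≤ a + 1

variable {U : ℂ → ℝ} {E : Set ℝ}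

theorem Data.gcont (D : Data U E) (c y : ℝ) : Continuous (fun t : ℝ => U (mkC (c + t) y)) := by
  apply D.cont.comp
  exact mkC_cont.comp (by fun_prop : Continuous (fun t : ℝ => ((c + t, y) : ℝ × ℝ)))

theorem Data.analytic (D : Data U E) (c y t : ℝ) (h : y ≠ 0 ∨ c + t ∉ E) :
    AnalyticAt ℝ (fun t : ℝ => U (mkC (c + t) y)) t := by
  have h1 : HarmonicAt U (mkC (c + t) y) := D.harm _ (by simpa using h)
  have h2 : AnalyticAt ℝ U (mkC (c + t) y) := HarmonicAt.analyticAt h1
  have h3 : AnalyticAt ℝ (fun t : ℝ => mkC (c + t) y) t := by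
    unfold mkC
    have e : (fun t : ℝ => (((c + t : ℝ)) : ℂ) + (y : ℂ) * I)
        = fun t : ℝ => (Complex.ofRealCLM t) + ((c : ℂ) + (y : ℂ) * I) := by
      ext t; simp; ring
    rw [e]
    exact (Complex.ofRealCLM.analyticAt t).add analyticAt_const
  exact AnalyticAt.fun_comp h2 h3

theorem acc_of_measure {S : Set ℝ} (hS : S ⊆ Icc (0:ℝ) 1) (h : volume S ≠ 0) :
    ∃ t0 ∈ Icc (0:ℝ) 1, ∃ᶠ t in 𝓝[≠] t0, t ∈ S := by
  have hinf : S.Infinite := by
    intro hfin
    exact h (hfin.measure_zero _)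
  obtain ⟨t0, ht0, hacc⟩ := hinf.exists_accPt_of_subset_isCompact isCompact_Icc hS
  exact ⟨t0, ht0, accPt_iff_frequently_nhdsNE.1 hacc⟩

theorem Data.flat (D : Data U E) (c y l : ℝ) (hyl : y ≠ 0 ∨ 0 < l)
    (hv : volume {t | t ∈ Icc (0:ℝ) 1 ∧ U (mkC (c + t) y) = l} ≠ 0) :
    ∀ t ∈ Icc (0:ℝ) 1, U (mkC (c + t) y) = l := by
  obtain ⟨t0, ht0, hfr⟩ := acc_of_measure (fun t ht => ht.1) hv
  set h : ℝ → ℝ := fun t => U (mkC (c + t) y) with hh
  have hc : Continuous h := D.gcont c y
  have hfr' : ∃ᶠ t in 𝓝[≠] t0, h t - l = 0 := hfr.mono (fun t ht => by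
    have := ht.2; simp only [hh]; linarith)
  by_cases hy : y ≠ 0
  · have han : AnalyticOnNhd ℝ (fun t => h t - l) univ := fun t _ =>
      (D.analytic c y t (Or.inl hy)).sub analyticAt_const
    have := han.eqOn_zero_of_preconnected_of_frequently_eq_zero isPreconnected_univ (mem_univ t0) hfr'
    intro t _
    have h1 := this (mem_univ t)
    simp only [Pi.zero_apply] at h1
    linarith
  · push Not at hy
    subst hy
    have hl : 0 < l := by rcases hyl with h1 | h1; exact absurd rfl h1; exact h1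
    exfalso
    -- value at the accumulation point
    have hval : h t0 = l := by
      have hcl : IsClosed {t | h t = l} := isClosed_eq hc continuous_const
      have : t0 ∈ closure {t | h t = l} := by
        rw [mem_closure_iff_frequently]
        have h2 : ∃ᶠ t in 𝓝 t0, t ∈ {t | t ∈ Icc (0:ℝ) 1 ∧ U (mkC (c + t) 0) = l} :=
          hfr.filter_mono nhdsWithin_le_nhds
        exact h2.mono (fun t ht => ht.2)
      rwa [hcl.closure_eq] at this
    obtain ⟨e, heE, he1, he2⟩ := D.meets c
    -- nearest point of E between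
    set S : Set ℝ := uIcc t0 (e - c) ∩ {s | c + s ∈ E} with hS
    have hScl : IsCompact S := by
      apply isCompact_uIcc.inter_right
      exact D.closed.preimage (by fun_prop)
    have hSne : S.Nonempty := ⟨e - c, right_mem_uIcc, by
      show c + (e - c) ∈ E
      have : c + (e - c) = e := by ring
      rw [this]; exact heE⟩
    obtain ⟨s0, hs0, hmin⟩ := hScl.exists_isMinOn hSne
      (f := fun s => |s - t0|) (by fun_prop)
    have hs0E : c + s0 ∈ E := hs0.2
    have hz0 : h s0 = 0 := by
      simp only [hh]; rw [mkC_zero]; exact D.zero _ hs0E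
    have hne : s0 ≠ t0 := by
      intro h1; rw [h1] at hz0; rw [hz0] at hval; linarith
    -- the half-open segment
    set φ : ℝ → ℝ := fun τ => t0 + τ * (s0 - t0) with hφ
    have hseg : ∀ τ ∈ Ico (0:ℝ) 1, c + φ τ ∉ E := by
      intro τ hτ hE
      have h1 : φ τ ∈ S := by
        refine ⟨?_, hE⟩
        have : φ τ ∈ uIcc t0 s0 := by
          rcases le_total t0 s0 with h2 | h2
          · rw [uIcc_of_le h2]
            exact ⟨by simp only [hφ]; nlinarith [hτ.1], by simp only [hφ]; nlinarith [hτ.2]⟩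
          · rw [uIcc_of_ge h2]
            exact ⟨by simp only [hφ]; nlinarith [hτ.2], by simp only [hφ]; nlinarith [hτ.1]⟩
        exact uIcc_subset_uIcc_left hs0.1 this
      have h2 : |s0 - t0| ≤ |φ τ - t0| := hmin h1
      have h3 : φ τ - t0 = τ * (s0 - t0) := by simp only [hφ]; ring
      rw [h3, abs_mul, abs_of_nonneg hτ.1] at h2
      have h4 : 0 < |s0 - t0| := abs_pos.2 (sub_ne_zero.2 hne)
      nlinarith [hτ.2]
    have hanA : AnalyticOnNhd ℝ (fun τ => h (φ τ) - l) (Ico (0:ℝ) 1) := by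
      intro τ hτ
      have h1 : AnalyticAt ℝ h (φ τ) := D.analytic c 0 (φ τ) (Or.inr (hseg τ hτ))
      have h2 : AnalyticAt ℝ φ τ := by
        simp only [hφ]
        exact analyticAt_const.add (analyticAt_id.mul analyticAt_const)
      exact (AnalyticAt.fun_comp h1 h2).sub analyticAt_const
    -- frequently zero at 0
    have hfr0 : ∃ᶠ τ in 𝓝[≠] (0:ℝ), h (φ τ) - l = 0 := by
      have hs : s0 - t0 ≠ 0 := sub_ne_zero.2 hne
      set ψ : ℝ → ℝ := fun t => (t - t0) / (s0 - t0) with hψ
      have hψc : Tendsto ψ (𝓝[≠] t0) (𝓝[≠] (0:ℝ)) := by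
        apply tendsto_nhdsWithin_iff.2
        constructor
        · have : Tendsto ψ (𝓝 t0) (𝓝 (ψ t0)) := by
            apply Continuous.tendsto; simp only [hψ]; fun_prop
          have e0 : ψ t0 = 0 := by simp [hψ]
          rw [e0] at this
          exact this.mono_left nhdsWithin_le_nhds
        · filter_upwards [self_mem_nhdsWithin] with t ht
          simp only [hψ, mem_compl_iff, mem_singleton_iff, div_eq_zero_iff, not_or]
          exact ⟨sub_ne_zero.2 ht, hs⟩
      refine hψc.frequently (hfr'.mono fun t ht => ?_)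
      have : φ (ψ t) = t := by simp only [hφ, hψ]; field_simp; ring
      rw [this]; exact ht
    have hz := hanA.eqOn_zero_of_preconnected_of_frequently_eq_zero isPreconnected_Ico
      (left_mem_Ico.2 one_pos) hfr0
    have hlim1 : Tendsto (fun τ => h (φ τ)) (𝓝[<] (1:ℝ)) (𝓝 (h s0)) := by
      have : Continuous (fun τ => h (φ τ)) := hc.comp (by simp only [hφ]; fun_prop)
      have h1 := this.tendsto 1
      have e1 : φ 1 = s0 := by simp only [hφ]; ring
      rw [e1] at h1
      exact h1.mono_left nhdsWithin_le_nhds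
    have hlim2 : Tendsto (fun τ => h (φ τ)) (𝓝[<] (1:ℝ)) (𝓝 l) := by
      apply tendsto_const_nhds.congr'
      filter_upwards [Ico_mem_nhdsLT (zero_lt_one (α := ℝ))] with τ hτ
      have := hz hτ
      simp only [Pi.zero_apply] at this
      linarith
    have := tendsto_nhds_unique hlim1 hlim2
    rw [hz0] at this
    linarith

/-- mean value property of `U` at good points -/
theorem Data.mv (D : Data U E) (z : ℂ) (r : ℝ) (hr : 0 < r)
    (h : ∀ w ∈ Metric.closedBall z r, w.im ≠ 0 ∨ w.re ∉ E) :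
    ∫ θ in (0:ℝ)..2 * Real.pi, U (mkC (z.re + r * Real.cos θ) (z.im + r * Real.sin θ))
      = 2 * Real.pi * U z := by
  have h1 : HarmonicOnNhd U (Metric.closedBall z |r|) := by
    rw [abs_of_pos hr]; exact fun w hw => D.harm w (h w hw)
  have h2 := h1.circleAverage_eq
  rw [Real.circleAverage_def] at h2
  have h3 : ∀ θ : ℝ, circleMap z r θ = mkC (z.re + r * Real.cos θ) (z.im + r * Real.sin θ) := by
    intro θ
    apply Complex.ext
    · rw [cm_re, mkC_re]
    · rw [cm_im, mkC_im]
  simp only [h3] at h2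
  rw [← h2, smul_eq_mul]
  have := Real.pi_ne_zero
  field_simp

end Pool.Agent.U591.LV
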