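import Pool.Agent.U591.LV.Harn
import Pool.Agent.U591.LV.Approx
import Pool.Agent.U591.LV.Core

set_option autoImplicit false

open MeasureTheory Set Filter Topology Complex InnerProductSpace

namespace Pool.Agent.U591.LV

variable {U : ℂ → ℝ} {E : Set ℝ}

theorem good_open (hE : IsClosed E) : IsOpen {z : ℂ | z.im ≠ 0 ∨ z.re ∉ E} := by
  exact (isOpen_ne_fun Complex.continuous_im continuous_const).union
    (hE.isOpen_compl.preimage Complex.continuous_re)

theorem U_sub (D : Data U E) (z : ℂ) : ∃ r0 : ℝ, 0 < r0 ∧ ∀ s, 0 < s → s < r0 →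
    U z ≤ Real.circleAverage U z s := by
  by_cases hz : z.im ≠ 0 ∨ z.re ∉ E
  · obtain ⟨r0, hr0, h⟩ := mv_of_open (good_open D.closed) (fun w hw => D.harm w hw) (z := z) hz
    exact ⟨r0, hr0, fun s h1 h2 => (h s h1 h2).2.ge⟩
  · push Not at hz
    refine ⟨1, one_pos, fun s _ _ => ?_⟩
    have e : U z = 0 := by
      have h1 := D.zero z.re hz.2
      have h2 : ((z.re : ℝ) : ℂ) = z := by
        rw [← mkC_zero, ← hz.1, mkC_eta]
      rwa [h2] at h1
    rw [e]
    exact Real.circleAverage_nonneg_of_nonneg (fun w _ => D.nn w)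

theorem U_gsub (D : Data U E) (z : ℂ) {r : ℝ} (hr : 0 < r) : U z ≤ Real.circleAverage U z r :=
  global_sub hr D.cont.continuousOn (fun w _ => U_sub D w)

theorem fU_gsub (D : Data U E) (z : ℂ) {r : ℝ} (hr : 0 < r) :
    fU U z ≤ Real.circleAverage (fU U) z r :=
  fU_sub D.cont z r (fun _ _ => U_gsub D _ hr)

theorem fU_nn (D : Data U E) (z : ℂ) : 0 ≤ fU U z := by
  unfold fU
  exact intervalIntegral.integral_nonneg zero_le_one (fun t _ => D.nn _)

theorem fU_symm (hsym : ∀ x y, U (mkC x (-y)) = U (mkC x y)) (c y : ℝ) :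
    fU U (mkC c (-y)) = fU U (mkC c y) := by
  unfold fU; simp only [mkC_re, mkC_im, hsym]

theorem fU_abs (hsym : ∀ x y, U (mkC x (-y)) = U (mkC x y)) (c y : ℝ) :
    fU U (mkC c |y|) = fU U (mkC c y) := by
  rcases abs_choice y with h | h
  · rw [h]
  · rw [h, fU_symm hsym]

theorem axis_bound (D : Data U E) (hlim : Tendsto (fun y : ℝ => U (mkC 0 y) / y) atTop (𝓝 1)) :
    ∃ C1 : ℝ, 0 ≤ C1 ∧ ∀ y, 0 ≤ y → U (mkC 0 y) ≤ C1 * (1 + y) := by
  have h1 : ∀ᶠ y : ℝ in atTop, U (mkC 0 y) / y < 2 :=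
    hlim.eventually_lt_const (by norm_num)
  obtain ⟨Y0, hY0⟩ := (h1.and (eventually_gt_atTop 0)).exists_forall_of_atTop
  obtain ⟨C, hC⟩ := (isCompact_Icc (a := (0:ℝ)) (b := Y0)).exists_bound_of_continuousOn
    (cont2 D.cont continuous_const continuous_id : Continuous fun y : ℝ => U (mkC 0 y)).continuousOn
  refine ⟨max C 2, (by norm_num : (0:ℝ) ≤ 2).trans (le_max_right _ _), fun y hy => ?_⟩
  have hm1 : C ≤ max C 2 := le_max_left _ _
  have hm2 : 2 ≤ max C 2 := le_max_right _ _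
  rcases le_total y Y0 with h | h
  · have := hC y ⟨hy, h⟩
    have h2 := (le_abs_self _).trans this
    have : U (mkC 0 y) ≤ C := h2
    nlinarith
  · obtain ⟨h2, h3⟩ := hY0 y h
    rw [div_lt_iff₀ h3] at h2
    nlinarith

theorem growth_U (D : Data U E) {C1 : ℝ} (hC1 : 0 ≤ C1) (h : ∀ y, 0 ≤ y → U (mkC 0 y) ≤ C1 * (1 + y))
    {x y R : ℝ} (hy : 0 < y) (hR : 2 * |x| ≤ R) (hyR : y ≤ R) :
    U (mkC x y) ≤ 6 * R * (C1 * (1 + R)) / y := by
  have hR0 : 0 < R := lt_of_lt_of_le hy hyR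
  have hx0 := abs_nonneg x
  have e1 : ‖mkC x y - mkC x R‖ = R - y := by
    have e : mkC x y - mkC x R = ((y - R : ℝ) : ℂ) * I := by unfold mkC; push_cast; ring
    rw [e, norm_mul, Complex.norm_I, mul_one, Complex.norm_real, Real.norm_eq_abs,
      abs_of_nonpos (by linarith)]
    ring
  have e2 : ‖mkC x R - mkC 0 R‖ = |x| := by
    have e : mkC x R - mkC 0 R = ((x : ℝ) : ℂ) := by unfold mkC; push_cast; ring
    rw [e, Complex.norm_real, Real.norm_eq_abs]
  have h1 := harnack D (p := mkC x R) (w := mkC x y) (ρ := R) (by rw [mkC_im]) (by rw [e1]; linarith)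
  have h2 := harnack D (p := mkC 0 R) (w := mkC x R) (ρ := R) (by rw [mkC_im]) (by rw [e2]; linarith)
  rw [e1] at h1
  rw [e2] at h2
  have h3 : (R + |x|) / (R - |x|) ≤ 3 := by
    rw [div_le_iff₀ (by linarith)]; linarith
  have h4 : (R + (R - y)) / (R - (R - y)) ≤ 2 * R / y := by
    have : R - (R - y) = y := by ring
    rw [this]
    gcongr
    linarith
  have h5 : U (mkC x R) ≤ 3 * (C1 * (1 + R)) := by
    calc U (mkC x R) ≤ (R + |x|) / (R - |x|) * U (mkC 0 R) := h2
      _ ≤ 3 * (C1 * (1 + R)) := mul_le_mul h3 (h R hR0.le) (D.nn _) (by norm_num)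
  calc U (mkC x y) ≤ (R + (R - y)) / (R - (R - y)) * U (mkC x R) := h1
    _ ≤ 2 * R / y * (3 * (C1 * (1 + R))) := mul_le_mul h4 h5 (D.nn _) (by positivity)
    _ = 6 * R * (C1 * (1 + R)) / y := by ring

theorem growth_f (D : Data U E) (hsym : ∀ x y, U (mkC x (-y)) = U (mkC x y))
    (hlim : Tendsto (fun y : ℝ => U (mkC 0 y) / y) atTop (𝓝 1)) :
    ∃ C2 : ℝ, 0 < C2 ∧ ∀ c y, fU U (mkC c y) ≤ C2 * (1 + |c| + |y|) ^ 2 / (1 + |y|) := by
  obtain ⟨C1, hC1, h⟩ := axis_bound D hlim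
  refine ⟨960 * C1 + 1, by positivity, fun c y => ?_⟩
  rw [← fU_abs hsym]
  set a := |y| with ha
  have ha0 : 0 ≤ a := abs_nonneg y
  have hc0 := abs_nonneg c
  have h1 := window_le D c ha0
  set R := 4 * (1 + |c| + a) with hR
  have h2 := growth_U D hC1 h (x := c + 1 / 2) (y := a + 1) (R := R) (by linarith)
    (by have := abs_add_le c (1 / 2)
        rw [abs_of_pos (by norm_num : (0:ℝ) < 1 / 2)] at this
        linarith) (by linarith)
  have h3 : 8 * (6 * R * (C1 * (1 + R)) / (a + 1)) ≤ (960 * C1 + 1) * (1 + |c| + a) ^ 2 / (1 + a) := by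
    have e : 8 * (6 * R * (C1 * (1 + R)) / (a + 1)) = (48 * R * (C1 * (1 + R))) / (1 + a) := by
      rw [add_comm a 1]; ring
    rw [e]
    apply div_le_div_of_nonneg_right _ (by linarith)
    have h4 : 1 + R ≤ 5 * (1 + |c| + a) := by rw [hR]; linarith
    have h5 : 48 * R * (C1 * (1 + R)) ≤ 48 * R * (C1 * (5 * (1 + |c| + a))) := by
      apply mul_le_mul_of_nonneg_left _ (by positivity)
      exact mul_le_mul_of_nonneg_left h4 hC1
    have h6 : 48 * R * (C1 * (5 * (1 + |c| + a))) = 960 * C1 * (1 + |c| + a) ^ 2 := by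
      rw [hR]; ring
    have h7 : 0 ≤ (1 + |c| + a) ^ 2 := by positivity
    nlinarith
  linarith

/-- comparison of a submean function with a polynomial on a compact set -/
theorem cmp_poly {v : ℂ → ℝ} (hv : Continuous v) (hs : ∀ z r, 0 < r → v z ≤ Real.circleAverage v z r)
    (K B : Set ℂ) (hK : IsCompact K) (P : Polynomial ℂ)
    (hB : ∀ z ∈ K, z ∈ B → v z ≤ (P.eval z).re)
    (hin : ∀ z ∈ K, z ∉ B → ∃ r : ℝ, 0 < r ∧ Metric.sphere z r ⊆ K) :
    ∀ z ∈ K, v z ≤ (P.eval z).re := by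
  have hPc : Continuous (fun z : ℂ => (P.eval z).re) := Complex.continuous_re.comp P.continuous
  have key := maxP K hK B (fun z => v z - 1 * (P.eval z).re)
    (hv.sub (continuous_const.mul hPc)).continuousOn ?_ ?_
  · intro z hz
    have := key z hz
    linarith
  · intro z hz hzB
    have := hB z hz hzB
    linarith
  · intro z hz hzB
    obtain ⟨r, hr, hsub⟩ := hin z hz hzB
    refine ⟨r, hr, hsub, ?_⟩
    have hPm : Real.circleAverage (fun z : ℂ => (P.eval z).re) z r = (P.eval z).re := by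
      have := poly_mv P 0 1 z r
      simpa using this
    rw [ca_sub_mul (hv.continuousOn.circleIntegrable hr.le) (hPc.continuousOn.circleIntegrable hr.le),
      hPm]
    have := hs z r hr
    linarith

theorem sector_aux {v : ℂ → ℝ} (hv : Continuous v)
    (hs : ∀ z r, 0 < r → v z ≤ Real.circleAverage v z r) {C2 : ℝ} (hC2 : 0 < C2)
    (hg : ∀ c y, v (mkC c y) ≤ C2 * (1 + |c| + |y|) ^ 2 / (1 + |y|)) :
    ∀ x y, 0 ≤ x → |y| ≤ x / 2 → v (mkC x y) ≤ 5 * C2 * (1 + x) := by
  intro x y hx hy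
  apply le_of_forall_pos_le_add
  intro e he
  set ε : ℝ := e / (x ^ 3 + 1) with hε
  have hε0 : 0 < ε := by positivity
  set X : ℝ := x + 1 + 25 * C2 / ε with hX
  have hX1 : 1 ≤ X := by have : 0 ≤ 25 * C2 / ε := by positivity
                         linarith
  have hxX : x ≤ X := by have : 0 ≤ 25 * C2 / ε := by positivity
                         linarith
  have hXε : 25 * C2 ≤ ε * X := by
    have : 25 * C2 / ε ≤ X := by linarith
    rw [div_le_iff₀ hε0] at this; linarith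
  set P : Polynomial ℂ := Polynomial.C ((5 * C2 : ℝ) : ℂ) * (1 + Polynomial.X)
    + Polynomial.C ((ε : ℝ) : ℂ) * Polynomial.X ^ 3 with hP
  have hPe : ∀ z : ℂ, (P.eval z).re = 5 * C2 * (1 + z.re) + ε * (z.re ^ 3 - 3 * z.re * z.im ^ 2) := by
    intro z
    simp only [hP, Polynomial.eval_add, Polynomial.eval_mul, Polynomial.eval_C, Polynomial.eval_X,
      Polynomial.eval_one, Polynomial.eval_pow, add_re, Complex.re_ofReal_mul, one_re]
    have : z ^ 3 = z * z * z := by ring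
    rw [this]
    simp only [mul_re, mul_im]
    ring
  set K : Set ℂ := {z : ℂ | 0 ≤ z.re} ∩ ({z : ℂ | z.re ≤ X} ∩ {z : ℂ | |z.im| ≤ z.re / 2}) with hK
  have hKclosed : IsClosed K := by
    apply IsClosed.inter (isClosed_le continuous_const Complex.continuous_re)
    apply IsClosed.inter (isClosed_le Complex.continuous_re continuous_const)
    exact isClosed_le (Complex.continuous_im.abs) (Complex.continuous_re.div_const 2)
  have hKb : K ⊆ Metric.closedBall 0 (2 * X) := by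
    rintro z ⟨h1, h2, h3⟩
    have h1' : 0 ≤ z.re := h1
    have h2' : z.re ≤ X := h2
    have h3' : |z.im| ≤ z.re / 2 := h3
    rw [mem_closedBall_zero_iff]
    have := Complex.norm_le_abs_re_add_abs_im z
    rw [abs_of_nonneg h1'] at this
    linarith
  have hKc : IsCompact K := (isCompact_closedBall (0:ℂ) (2 * X)).of_isClosed_subset hKclosed hKb
  have key := cmp_poly hv hs K {z : ℂ | z.re = X ∨ |z.im| = z.re / 2} hKc P ?_ ?_ (mkC x y) ?_
  · rw [hPe, mkC_re, mkC_im] at key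
    have h1 : ε * (x ^ 3 - 3 * x * y ^ 2) ≤ e := by
      have h2 : x ^ 3 - 3 * x * y ^ 2 ≤ x ^ 3 + 1 := by
        have : 0 ≤ 3 * x * y ^ 2 := by positivity
        linarith
      have h3 : ε * (x ^ 3 + 1) = e := by rw [hε]; field_simp
      rw [← h3]
      exact mul_le_mul_of_nonneg_left h2 hε0.le
    linarith
  · rintro z ⟨h1, h2, h3⟩ hzB
    have h1' : 0 ≤ z.re := h1
    have h2' : z.re ≤ X := h2
    have h3' : |z.im| ≤ z.re / 2 := h3
    have hgz := hg z.re z.im
    rw [mkC_eta, abs_of_nonneg h1'] at hgz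
    rw [hPe]
    have him0 := abs_nonneg z.im
    have him2 : z.im ^ 2 ≤ z.re ^ 2 / 4 := by
      rw [← sq_abs z.im]; nlinarith
    have hcub : z.re ^ 3 / 4 ≤ z.re ^ 3 - 3 * z.re * z.im ^ 2 := by nlinarith
    rcases hzB with h | h
    · have h4 : C2 * (1 + z.re + |z.im|) ^ 2 / (1 + |z.im|) ≤ C2 * (1 + z.re + |z.im|) ^ 2 := by
        apply div_le_self (by positivity) (by linarith)
      have h5 : (1 + z.re + |z.im|) ^ 2 ≤ (5 / 2 * X) ^ 2 := by
        apply pow_le_pow_left₀ (by linarith)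
        rw [h] at h3' ⊢; linarith
      have h6 : C2 * (1 + z.re + |z.im|) ^ 2 ≤ C2 * (5 / 2 * X) ^ 2 := mul_le_mul_of_nonneg_left h5 hC2.le
      have h7 : C2 * (5 / 2 * X) ^ 2 ≤ ε * (z.re ^ 3 / 4) := by
        rw [h]
        have : 25 * C2 * X ^ 2 ≤ ε * X * X ^ 2 := mul_le_mul_of_nonneg_right hXε (by positivity)
        nlinarith
      have h8 : ε * (z.re ^ 3 / 4) ≤ ε * (z.re ^ 3 - 3 * z.re * z.im ^ 2) :=
        mul_le_mul_of_nonneg_left hcub hε0.le
      have h9 : 0 ≤ 5 * C2 * (1 + z.re) := by positivity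
      linarith
    · have h4 : C2 * (1 + z.re + |z.im|) ^ 2 / (1 + |z.im|) ≤ 5 * C2 * (1 + z.re) := by
        rw [div_le_iff₀ (by linarith), h]
        have : (1 + z.re + z.re / 2) ^ 2 ≤ 5 * (1 + z.re) * (1 + z.re / 2) := by nlinarith
        calc C2 * (1 + z.re + z.re / 2) ^ 2 ≤ C2 * (5 * (1 + z.re) * (1 + z.re / 2)) :=
              mul_le_mul_of_nonneg_left this hC2.le
          _ = 5 * C2 * (1 + z.re) * (1 + z.re / 2) := by ring
      have h5 : 0 ≤ ε * (z.re ^ 3 - 3 * z.re * z.im ^ 2) := by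
        apply mul_nonneg hε0.le
        have : 0 ≤ z.re ^ 3 / 4 := by positivity
        linarith
      linarith
  · rintro z ⟨h1, h2, h3⟩ hzB
    have h1' : 0 ≤ z.re := h1
    have h2' : z.re ≤ X := h2
    have h3' : |z.im| ≤ z.re / 2 := h3
    have hzB' : ¬(z.re = X ∨ |z.im| = z.re / 2) := hzB
    push Not at hzB'
    have h2'' : z.re < X := lt_of_le_of_ne h2' hzB'.1
    have h3'' : |z.im| < z.re / 2 := lt_of_le_of_ne h3' hzB'.2
    set r := min (X - z.re) ((z.re / 2 - |z.im|) / 2) with hr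
    have hr0 : 0 < r := lt_min (by linarith) (by linarith)
    have hr1 : r ≤ X - z.re := min_le_left _ _
    have hr2 : r ≤ (z.re / 2 - |z.im|) / 2 := min_le_right _ _
    refine ⟨r, hr0, fun w hw => ?_⟩
    rw [mem_sphere_iff_norm] at hw
    have a1 := Complex.abs_re_le_norm (w - z)
    have a2 := Complex.abs_im_le_norm (w - z)
    rw [hw, sub_re, abs_le] at a1
    rw [hw, sub_im] at a2
    have a3 : |w.im| ≤ |z.im| + r := by
      have := abs_add_le (w.im - z.im) z.im
      rw [sub_add_cancel] at this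
      linarith
    have him0 := abs_nonneg z.im
    refine ⟨?_, ?_, ?_⟩
    · show 0 ≤ w.re
      linarith [a1.1]
    · show w.re ≤ X
      linarith [a1.2]
    · show |w.im| ≤ w.re / 2
      linarith [a1.1]
  · refine ⟨?_, ?_, ?_⟩
    · show 0 ≤ (mkC x y).re
      rw [mkC_re]; exact hx
    · show (mkC x y).re ≤ X
      rw [mkC_re]; exact hxX
    · show |(mkC x y).im| ≤ (mkC x y).re / 2
      rw [mkC_re, mkC_im]; exact hy

/-- reflection in the imaginary axis -/
theorem ca_reflect (v : ℂ → ℝ) (z : ℂ) (r : ℝ) :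
    Real.circleAverage (fun w => v (mkC (-w.re) w.im)) z r
      = Real.circleAverage v (mkC (-z.re) z.im) r := by
  have hπ := Real.pi_pos
  have h1 := ca_int (fun w => v (mkC (-w.re) w.im)) z r
  have h2 := ca_int v (mkC (-z.re) z.im) r
  simp only [mkC_re, mkC_im] at h1 h2
  have h3 := int_refl (fun a b => v (mkC (-z.re + a) (z.im + b))) r
  have e : ∀ θ : ℝ, -(z.re + r * Real.cos θ) = -z.re + -(r * Real.cos θ) := by intro θ; ring
  simp only [e] at h1
  rw [h3, ← h2] at h1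
  exact mul_left_cancel₀ (by positivity) h1

theorem linear_growth (D : Data U E) (hsym : ∀ x y, U (mkC x (-y)) = U (mkC x y))
    (hlim : Tendsto (fun y : ℝ => U (mkC 0 y) / y) atTop (𝓝 1)) :
    ∃ A : ℝ, 0 < A ∧ ∀ c y, fU U (mkC c y) ≤ A * (1 + |c| + |y|) := by
  obtain ⟨C2, hC2, hg⟩ := growth_f D hsym hlim
  have hc := fU_cont D.cont
  have hs : ∀ z r, 0 < r → fU U z ≤ Real.circleAverage (fU U) z r := fun z r hr => fU_gsub D z hr
  have hc' : Continuous (fun w : ℂ => fU U (mkC (-w.re) w.im)) :=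
    hc.comp (mkC_cont.comp (by fun_prop : Continuous fun w : ℂ => ((-w.re, w.im) : ℝ × ℝ)))
  have hs' : ∀ z r, 0 < r → (fun w : ℂ => fU U (mkC (-w.re) w.im)) z
      ≤ Real.circleAverage (fun w : ℂ => fU U (mkC (-w.re) w.im)) z r := by
    intro z r hr
    rw [ca_reflect]
    exact fU_gsub D _ hr
  have hg' : ∀ c y, (fun w : ℂ => fU U (mkC (-w.re) w.im)) (mkC c y)
      ≤ C2 * (1 + |c| + |y|) ^ 2 / (1 + |y|) := by
    intro c y
    have := hg (-c) y
    rw [abs_neg] at this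
    simpa using this
  refine ⟨5 * C2, by positivity, fun c y => ?_⟩
  have hc0 := abs_nonneg c
  have hy0 := abs_nonneg y
  rcases le_total |y| (|c| / 2) with h | h
  · rcases le_total 0 c with h1 | h1
    · rw [abs_of_nonneg h1] at h ⊢
      have := sector_aux hc hs hC2 hg c y h1 h
      nlinarith
    · rw [abs_of_nonpos h1] at h ⊢
      have := sector_aux hc' hs' hC2 hg' (-c) y (by linarith) h
      simp only [mkC_re, mkC_im, neg_neg] at this
      nlinarith
  · have h1 := hg c y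
    have h2 : C2 * (1 + |c| + |y|) ^ 2 / (1 + |y|) ≤ 5 * C2 * (1 + |c| + |y|) := by
      rw [div_le_iff₀ (by linarith)]
      have h3 : 1 + |c| + |y| ≤ 5 * (1 + |y|) := by linarith
      have h4 : 0 ≤ C2 * (1 + |c| + |y|) := by positivity
      calc C2 * (1 + |c| + |y|) ^ 2 = C2 * (1 + |c| + |y|) * (1 + |c| + |y|) := by ring
        _ ≤ C2 * (1 + |c| + |y|) * (5 * (1 + |y|)) := mul_le_mul_of_nonneg_left h3 h4
        _ = 5 * C2 * (1 + |c| + |y|) * (1 + |y|) := by ring
    linarith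

end Pool.Agent.U591.LV
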