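import Pool.Agent.U591.LV.Mt

set_option autoImplicit false

open MeasureTheory Set Filter Topology Complex InnerProductSpace

namespace Pool.Agent.U591.LV

variable {U : ℂ → ℝ} {E : Set ℝ}

theorem HC (D : Data U E) {p : ℂ} {ρ : ℝ} (h : ρ ≤ p.im) :
    HarmonicContOnCl U (Metric.ball p ρ) := by
  apply HarmonicContOnCl.mk_ball
  · intro z hz
    apply D.harm
    left
    rw [Metric.mem_ball, dist_eq_norm] at hz
    have h1 := Complex.abs_im_le_norm (z - p)
    rw [sub_im] at h1
    have h2 := neg_abs_le (z.im - p.im)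
    have h3 : 0 < z.im := by linarith
    exact h3.ne'
  · exact D.cont.continuousOn

theorem kernel_cont {p w : ℂ} {ρ : ℝ} (hw : ‖w - p‖ < ρ) :
    ContinuousOn (poissonKernel p w) (Metric.sphere p ρ) := by
  unfold poissonKernel
  apply ContinuousOn.div (by fun_prop) (by fun_prop)
  intro z hz h
  rw [mem_sphere_iff_norm] at hz
  have h1 : ‖(z - p) - (w - p)‖ = 0 := by
    rcases pow_eq_zero_iff (two_ne_zero) |>.1 h with h2; exact h2
  have h2 := norm_sub_norm_le (z - p) (w - p)
  linarith

theorem kernel_ci (D : Data U E) {p w : ℂ} {ρ : ℝ} (hρ : 0 < ρ) (hw : ‖w - p‖ < ρ) :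
    CircleIntegrable (poissonKernel p w • U) p ρ := by
  apply ContinuousOn.circleIntegrable hρ.le
  exact (kernel_cont hw).mul D.cont.continuousOn

/-- Harnack inequality on discs in the closed upper half plane -/
theorem harnack (D : Data U E) {p w : ℂ} {ρ : ℝ} (h : ρ ≤ p.im) (hw : ‖w - p‖ < ρ) :
    U w ≤ (ρ + ‖w - p‖) / (ρ - ‖w - p‖) * U p := by
  have hρ : 0 < ρ := lt_of_le_of_lt (norm_nonneg _) hw
  have hwb : w ∈ Metric.ball p ρ := by rw [Metric.mem_ball, dist_eq_norm]; exact hw
  have h1 := (HC D h).circleAverage_poissonKernel_smul hwb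
  have hρ' : |ρ| = ρ := abs_of_pos hρ
  have h2 : Real.circleAverage U p ρ = U p := by
    apply InnerProductSpace.HarmonicContOnCl.circleAverage_eq
    rw [hρ']; exact HC D h
  have ciU : CircleIntegrable U p ρ := D.cont.continuousOn.circleIntegrable hρ.le
  have ciK : CircleIntegrable (fun z => (ρ + ‖w - p‖) / (ρ - ‖w - p‖) * U z) p ρ :=
    IntervalIntegrable.const_mul ciU _
  have h3 : Real.circleAverage (poissonKernel p w • U) p ρ
      ≤ Real.circleAverage (fun z => (ρ + ‖w - p‖) / (ρ - ‖w - p‖) * U z) p ρ := by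
    apply Real.circleAverage_mono (kernel_ci D hρ hw) ciK
    intro z hz
    rw [hρ', mem_sphere_iff_norm] at hz
    show poissonKernel p w z * U z ≤ _
    apply mul_le_mul_of_nonneg_right _ (D.nn z)
    rw [poissonKernel_def, hz]
    have a1 : ρ - ‖w - p‖ ≤ ‖(z - p) - (w - p)‖ := by
      have := norm_sub_norm_le (z - p) (w - p)
      rwa [hz] at this
    have a0 : 0 < ρ - ‖w - p‖ := by linarith
    have a2 : (ρ - ‖w - p‖) ^ 2 ≤ ‖(z - p) - (w - p)‖ ^ 2 := pow_le_pow_left₀ a0.le a1 2
    have a3 : 0 ≤ ρ ^ 2 - ‖w - p‖ ^ 2 := by nlinarith [norm_nonneg (w - p)]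
    calc (ρ ^ 2 - ‖w - p‖ ^ 2) / ‖(z - p) - (w - p)‖ ^ 2
        ≤ (ρ ^ 2 - ‖w - p‖ ^ 2) / (ρ - ‖w - p‖) ^ 2 := by gcongr
      _ = (ρ + ‖w - p‖) / (ρ - ‖w - p‖) := by
          rw [div_eq_div_iff (by positivity) (by positivity)]; ring
  have h4 : Real.circleAverage (fun z => (ρ + ‖w - p‖) / (ρ - ‖w - p‖) * U z) p ρ
      = (ρ + ‖w - p‖) / (ρ - ‖w - p‖) * U p := by
    have := Real.circleAverage_fun_smul (f := U) (a := (ρ + ‖w - p‖) / (ρ - ‖w - p‖)) (c := p) (R := ρ)
    simp only [smul_eq_mul] at this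
    rw [this, h2]
  rw [h1, h4] at h3
  exact h3

/-- tangent disc bound with fixed radius -/
theorem tangent (D : Data U E) (x : ℝ) {η M : ℝ} (hη : 0 ≤ η) (hM : 1 ≤ M) :
    (4 / 5) * (∫ s in (-(1/2:ℝ))..(1/2), U (mkC (x + s * Real.sinc (1 / M * s))
      (η + s * Real.sinc (1 / M * s / 2) * Real.sin (1 / M * s / 2))))
      ≤ 2 * Real.pi * U (mkC x (η + 1)) := by
  have hπ := Real.pi_gt_three
  have hM0 : 0 < M := by linarith
  set p := mkC x (η + M) with hp
  set w := mkC x (η + 1) with hw
  have hwp : ‖w - p‖ = M - 1 := by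
    have e : w - p = ((1 - M : ℝ) : ℂ) * I := by
      rw [hw, hp]; unfold mkC; push_cast; ring
    rw [e, norm_mul, Complex.norm_I, mul_one, Complex.norm_real, Real.norm_eq_abs,
      abs_of_nonpos (by linarith)]
    ring
  have hwlt : ‖w - p‖ < M := by rw [hwp]; linarith
  have h1 := (HC D (p := p) (ρ := M) (by rw [hp, mkC_im]; linarith)).circleAverage_poissonKernel_smul
    (w := w) (by rw [Metric.mem_ball, dist_eq_norm]; exact hwlt)
  have h2 := ca_int (poissonKernel p w • U) p M
  rw [h1] at h2
  have hmem : ∀ θ : ℝ, mkC (p.re + M * Real.cos θ) (p.im + M * Real.sin θ) ∈ Metric.sphere p M := by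
    intro θ
    have e : mkC (p.re + M * Real.cos θ) (p.im + M * Real.sin θ) = circleMap p M θ := by
      apply Complex.ext
      · rw [cm_re, mkC_re]
      · rw [cm_im, mkC_im]
    rw [e]
    exact circleMap_mem_sphere p hM0.le θ
  set F : ℝ → ℝ := fun θ => (poissonKernel p w • U) (mkC (p.re + M * Real.cos θ) (p.im + M * Real.sin θ)) with hF
  have hFc : Continuous F := by
    have hc : ContinuousOn (poissonKernel p w • U) (Metric.sphere p M) :=
      (kernel_cont hwlt).mul D.cont.continuousOn
    apply hc.comp_continuous _ hmem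
    exact mkC_cont.comp (by fun_prop : Continuous (fun θ : ℝ =>
      ((p.re + M * Real.cos θ, p.im + M * Real.sin θ) : ℝ × ℝ)))
  have hF0 : ∀ θ, 0 ≤ F θ := by
    intro θ
    show 0 ≤ poissonKernel p w _ * U _
    apply mul_nonneg _ (D.nn _)
    rw [poissonKernel_def]
    have := hmem θ
    rw [mem_sphere_iff_norm] at this
    rw [this, hwp]
    apply div_nonneg _ (by positivity)
    nlinarith
  -- restrict to the lower arc
  have h3 : (∫ θ in (3 * Real.pi / 2 - 1 / (2 * M))..(3 * Real.pi / 2 + 1 / (2 * M)), F θ)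
      ≤ ∫ θ in (0:ℝ)..2 * Real.pi, F θ := by
    have hM2 : 1 / (2 * M) ≤ 1 / 2 := by
      rw [div_le_div_iff₀ (by positivity) (by norm_num)]; linarith
    have hM3 : 0 < 1 / (2 * M) := by positivity
    apply intervalIntegral.integral_mono_interval (by linarith) (by linarith) (by linarith)
    · exact Eventually.of_forall hF0
    · exact hFc.intervalIntegrable _ _
  have h4 : (∫ θ in (3 * Real.pi / 2 - 1 / (2 * M))..(3 * Real.pi / 2 + 1 / (2 * M)), F θ)
      = ∫ s in (-(1/2:ℝ))..(1/2), (1 / M) * F (3 * Real.pi / 2 + 1 / M * s) := by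
    rw [intervalIntegral.integral_const_mul]
    rw [intervalIntegral.mul_integral_comp_add_mul]
    have a1 : 3 * Real.pi / 2 + 1 / M * (-(1/2)) = 3 * Real.pi / 2 - 1 / (2 * M) := by
      field_simp
      ring
    have a2 : 3 * Real.pi / 2 + 1 / M * (1/2) = 3 * Real.pi / 2 + 1 / (2 * M) := by
      field_simp
    rw [a1, a2]
  have h5 : (4 / 5) * (∫ s in (-(1/2:ℝ))..(1/2), U (mkC (x + s * Real.sinc (1 / M * s))
      (η + s * Real.sinc (1 / M * s / 2) * Real.sin (1 / M * s / 2))))
      ≤ ∫ s in (-(1/2:ℝ))..(1/2), (1 / M) * F (3 * Real.pi / 2 + 1 / M * s) := by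
    rw [← intervalIntegral.integral_const_mul]
    apply intervalIntegral.integral_mono_on (by norm_num)
    · apply Continuous.intervalIntegrable
      apply continuous_const.mul
      have hs : Continuous Real.sinc := Real.continuous_sinc
      exact cont2 D.cont
        (f := fun s : ℝ => x + s * Real.sinc (1 / M * s))
        (g := fun s : ℝ => η + s * Real.sinc (1 / M * s / 2) * Real.sin (1 / M * s / 2))
        (by fun_prop) (by fun_prop)
    · apply Continuous.intervalIntegrable
      exact continuous_const.mul (hFc.comp (by fun_prop))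
    · intro s hs
      have e1 : M * Real.sin (1 / M * s) = s * Real.sinc (1 / M * s) := by
        by_cases h0 : s = 0
        · simp [h0]
        · have : 1 / M * s ≠ 0 := by positivity
          rw [Real.sinc_of_ne_zero this]; field_simp
      have e2 : M * (1 - Real.cos (1 / M * s)) = s * Real.sinc (1 / M * s / 2) * Real.sin (1 / M * s / 2) := by
        have h1 : 1 - Real.cos (1 / M * s) = 2 * Real.sin (1 / M * s / 2) ^ 2 := by
          have := Real.cos_sq' (1 / M * s / 2)
          have h2 := Real.cos_two_mul (1 / M * s / 2)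
          have e : 2 * (1 / M * s / 2) = 1 / M * s := by ring
          rw [e] at h2
          linarith
        rw [h1]
        by_cases h0 : s = 0
        · simp [h0]
        · have : 1 / M * s / 2 ≠ 0 := by positivity
          rw [Real.sinc_of_ne_zero this]; field_simp
      have e3 : Real.cos (3 * Real.pi / 2 + 1 / M * s) = Real.sin (1 / M * s) := by
        have : 3 * Real.pi / 2 + 1 / M * s = (Real.pi + (Real.pi / 2 + 1 / M * s)) := by ring
        rw [this, Real.cos_pi_add_aux]
      have e4 : Real.sin (3 * Real.pi / 2 + 1 / M * s) = -Real.cos (1 / M * s) := by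
        have : 3 * Real.pi / 2 + 1 / M * s = (Real.pi + (Real.pi / 2 + 1 / M * s)) := by ring
        rw [this, Real.sin_pi_add_aux]
      have e5 : F (3 * Real.pi / 2 + 1 / M * s) = poissonKernel p w (mkC (x + s * Real.sinc (1 / M * s))
          (η + s * Real.sinc (1 / M * s / 2) * Real.sin (1 / M * s / 2)))
          * U (mkC (x + s * Real.sinc (1 / M * s))
          (η + s * Real.sinc (1 / M * s / 2) * Real.sin (1 / M * s / 2))) := by
        simp only [hF]
        rw [e3, e4, hp, mkC_re, mkC_im, e1]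
        have e6 : η + M + M * -Real.cos (1 / M * s) = η + M * (1 - Real.cos (1 / M * s)) := by ring
        rw [e6, e2]
        rfl
      rw [e5]
      set Z := mkC (x + s * Real.sinc (1 / M * s))
          (η + s * Real.sinc (1 / M * s / 2) * Real.sin (1 / M * s / 2)) with hZ
      have hZs : ‖Z - p‖ = M := by
        have := hmem (3 * Real.pi / 2 + 1 / M * s)
        rw [e3, e4] at this
        have e7 : mkC (p.re + M * Real.sin (1 / M * s)) (p.im + M * -Real.cos (1 / M * s)) = Z := by
          rw [hZ, hp, mkC_re, mkC_im, e1]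
          have e6 : η + M + M * -Real.cos (1 / M * s) = η + M * (1 - Real.cos (1 / M * s)) := by ring
          rw [e6, e2]
        rw [e7, mem_sphere_iff_norm] at this
        exact this
      have hZw : ‖(Z - p) - (w - p)‖ ^ 2 ≤ 5 / 4 := by
        have e8 : (Z - p) - (w - p) = mkC (M * Real.sin (1 / M * s)) (M * (1 - Real.cos (1 / M * s)) - 1) := by
          rw [e1, e2, hZ, hw]; unfold mkC; push_cast; ring
        rw [e8, Complex.sq_norm, Complex.normSq_apply, mkC_re, mkC_im]
        have hsabs : |s| ≤ 1 / 2 := by rw [abs_le]; exact ⟨by linarith [hs.1], hs.2⟩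
        have b1 : |M * Real.sin (1 / M * s)| ≤ 1 / 2 := by
          rw [abs_mul, abs_of_pos hM0]
          have : |Real.sin (1 / M * s)| ≤ |1 / M * s| := Real.abs_sin_le_abs
          rw [abs_mul, abs_of_pos (by positivity : 0 < 1 / M)] at this
          calc M * |Real.sin (1 / M * s)| ≤ M * (1 / M * |s|) := by gcongr
            _ = |s| := by field_simp
            _ ≤ 1 / 2 := hsabs
        have b2 : 0 ≤ M * (1 - Real.cos (1 / M * s)) := mul_nonneg hM0.le (by linarith [Real.cos_le_one (1 / M * s)])
        have b3 : M * (1 - Real.cos (1 / M * s)) ≤ 1 := by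
          have c1 := Real.one_sub_sq_div_two_le_cos (x := 1 / M * s)
          have c2 : M * (1 - Real.cos (1 / M * s)) ≤ M * ((1 / M * s) ^ 2 / 2) := by
            apply mul_le_mul_of_nonneg_left _ hM0.le; linarith
          have c3 : M * ((1 / M * s) ^ 2 / 2) = s ^ 2 / (2 * M) := by field_simp
          have c4 : s ^ 2 / (2 * M) ≤ 1 := by
            rw [div_le_one (by positivity)]
            have : s ^ 2 ≤ (1/2) ^ 2 := by rw [← sq_abs]; exact pow_le_pow_left₀ (abs_nonneg _) hsabs 2
            nlinarith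
          linarith
        have b4 := abs_le.1 b1
        nlinarith
      have hker : (4 / 5) * M ≤ poissonKernel p w Z := by
        rw [poissonKernel_def, hZs, hwp]
        have hpos : 0 < ‖(Z - p) - (w - p)‖ ^ 2 := by
          have := norm_sub_norm_le (Z - p) (w - p)
          rw [hZs, hwp] at this
          have : 0 < ‖(Z - p) - (w - p)‖ := by linarith
          positivity
        rw [le_div_iff₀ hpos]
        nlinarith
      have hU0 := D.nn Z
      calc 4 / 5 * U Z = (1 / M) * ((4 / 5 * M) * U Z) := by field_simp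
        _ ≤ (1 / M) * (poissonKernel p w Z * U Z) := by gcongr
  linarith
where
  Real.cos_pi_add_aux {t : ℝ} : Real.cos (Real.pi + (Real.pi / 2 + t)) = Real.sin t := by
    rw [add_comm, Real.cos_add_pi, add_comm (Real.pi / 2) t, Real.cos_add_pi_div_two, neg_neg]
  Real.sin_pi_add_aux {t : ℝ} : Real.sin (Real.pi + (Real.pi / 2 + t)) = -Real.cos t := by
    rw [add_comm, Real.sin_add_pi, add_comm (Real.pi / 2) t, Real.sin_add_pi_div_two]

/-- windows on a line are controlled by a point above -/
theorem window_le (D : Data U E) (c : ℝ) {y : ℝ} (hy : 0 ≤ y) :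
    fU U (mkC c y) ≤ 8 * U (mkC (c + 1 / 2) (y + 1)) := by
  set x := c + 1 / 2 with hx
  set J : ℝ → ℝ := fun e => ∫ s in (-(1/2:ℝ))..(1/2), U (mkC (x + s * Real.sinc (e * s))
      (y + s * Real.sinc (e * s / 2) * Real.sin (e * s / 2))) with hJ
  have hJc : Continuous J := by
    have hs : Continuous Real.sinc := Real.continuous_sinc
    have h2 : Continuous (Function.uncurry fun (e s : ℝ) => U (mkC (x + s * Real.sinc (e * s))
        (y + s * Real.sinc (e * s / 2) * Real.sin (e * s / 2)))) :=
      cont2 D.cont (f := fun p : ℝ × ℝ => x + p.2 * Real.sinc (p.1 * p.2))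
        (g := fun p : ℝ × ℝ => y + p.2 * Real.sinc (p.1 * p.2 / 2) * Real.sin (p.1 * p.2 / 2))
        (by fun_prop) (by fun_prop)
    exact intervalIntegral.continuous_parametric_intervalIntegral_of_continuous' h2 _ _
  have hbd : ∀ e : ℝ, 0 < e → e ≤ 1 → (4 / 5) * J e ≤ 2 * Real.pi * U (mkC x (y + 1)) := by
    intro e he he1
    have h1 := tangent D x hy (M := 1 / e) (by rw [le_div_iff₀ he]; linarith)
    have h2 : 1 / (1 / e) = e := by field_simp
    simp only [h2] at h1
    exact h1
  have hlim : (4 / 5) * J 0 ≤ 2 * Real.pi * U (mkC x (y + 1)) := by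
    have hcl : IsClosed {e : ℝ | (4 / 5) * J e ≤ 2 * Real.pi * U (mkC x (y + 1))} :=
      isClosed_le (continuous_const.mul hJc) continuous_const
    have hsub : Ioc (0:ℝ) 1 ⊆ {e : ℝ | (4 / 5) * J e ≤ 2 * Real.pi * U (mkC x (y + 1))} :=
      fun e he => hbd e he.1 he.2
    have h0 : (0:ℝ) ∈ closure (Ioc (0:ℝ) 1) := by
      rw [closure_Ioc (by norm_num)]; exact ⟨le_rfl, zero_le_one⟩
    exact closure_minimal hsub hcl h0
  have hJ0 : J 0 = fU U (mkC c y) := by
    simp only [hJ, zero_mul, zero_div, Real.sinc_zero, mul_one, Real.sin_zero, mul_zero, add_zero]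
    unfold fU
    simp only [mkC_re, mkC_im]
    rw [intervalIntegral.integral_comp_add_left (fun t => U (mkC t y)) x,
      intervalIntegral.integral_comp_add_left (fun t => U (mkC t y)) c, hx]
    congr 1 <;> ring
  rw [hJ0] at hlim
  have h8 : 2 * Real.pi * U (mkC x (y + 1)) ≤ (32 / 5) * U (mkC x (y + 1)) := by
    apply mul_le_mul_of_nonneg_right _ (D.nn _)
    have := Real.pi_lt_d2
    linarith
  linarith

end Pool.Agent.U591.LV
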