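import Pool.Agent.U591.LV.Flat

set_option autoImplicit false

open MeasureTheory Set Filter Topology Complex InnerProductSpace

namespace Pool.Agent.U591.LV

/-- the Green function of the complement of `[-1,1]` -/
noncomputable def hJ (w : ℂ) : ℝ := Real.arcosh ((‖w - 1‖ + ‖w + 1‖) / 2)

theorem hJ_arg (w : ℂ) : 1 ≤ (‖w - 1‖ + ‖w + 1‖) / 2 := by
  have h : ‖(w + 1) - (w - 1)‖ ≤ ‖w + 1‖ + ‖w - 1‖ := norm_sub_le _ _
  have e : (w + 1) - (w - 1) = 2 := by ring
  rw [e, Complex.norm_ofNat] at h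
  linarith

theorem hJ_cont : Continuous hJ := by
  unfold hJ
  exact Real.continuousOn_arcosh.comp_continuous (by fun_prop) (fun w => hJ_arg w)

theorem hJ_nn (w : ℂ) : 0 ≤ hJ w := Real.arcosh_nonneg (hJ_arg w)

theorem hJ_neg (w : ℂ) : hJ (-w) = hJ w := by
  unfold hJ
  have e1 : ‖-w - 1‖ = ‖w + 1‖ := by rw [← norm_neg]; congr 1; ring
  have e2 : ‖-w + 1‖ = ‖w - 1‖ := by rw [← norm_neg]; congr 1; ring
  rw [e1, e2, add_comm]

theorem hJ_conj (w : ℂ) : hJ ((starRingEnd ℂ) w) = hJ w := by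
  unfold hJ
  have e1 : ‖(starRingEnd ℂ) w - 1‖ = ‖w - 1‖ := by
    rw [← Complex.norm_conj (w - 1)]; simp
  have e2 : ‖(starRingEnd ℂ) w + 1‖ = ‖w + 1‖ := by
    rw [← Complex.norm_conj (w + 1)]; simp
  rw [e1, e2]

/-- Joukowski identity -/
theorem jouk_norm {lam w : ℂ} (h0 : lam ≠ 0) (h : lam + 1 / lam = 2 * w) :
    ‖w - 1‖ + ‖w + 1‖ = ‖lam‖ + 1 / ‖lam‖ := by
  have hn : 0 < ‖lam‖ := norm_pos_iff.2 h0
  have e1 : w - 1 = (lam - 1) ^ 2 / (2 * lam) := by
    have : w = (lam + 1 / lam) / 2 := by rw [h]; ring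
    rw [this]; field_simp; ring
  have e2 : w + 1 = (lam + 1) ^ 2 / (2 * lam) := by
    have : w = (lam + 1 / lam) / 2 := by rw [h]; ring
    rw [this]; field_simp; ring
  rw [e1, e2, norm_div, norm_div, norm_pow, norm_pow, norm_mul, Complex.norm_ofNat]
  have e3 : ‖lam - 1‖ ^ 2 + ‖lam + 1‖ ^ 2 = 2 * ‖lam‖ ^ 2 + 2 := by
    rw [Complex.sq_norm, Complex.sq_norm, Complex.sq_norm, Complex.normSq_apply,
      Complex.normSq_apply, Complex.normSq_apply]
    simp
    ring
  have e4 : ‖lam - 1‖ ^ 2 / (2 * ‖lam‖) + ‖lam + 1‖ ^ 2 / (2 * ‖lam‖)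
      = (‖lam - 1‖ ^ 2 + ‖lam + 1‖ ^ 2) / (2 * ‖lam‖) := by ring
  rw [e4, e3]
  field_simp

theorem hJ_eq {lam w : ℂ} (h0 : lam ≠ 0) (h : lam + 1 / lam = 2 * w) :
    hJ w = |Real.log ‖lam‖| := by
  have hn : 0 < ‖lam‖ := norm_pos_iff.2 h0
  unfold hJ
  rw [jouk_norm h0 h]
  have : (‖lam‖ + 1 / ‖lam‖) / 2 = Real.cosh |Real.log ‖lam‖| := by
    rw [Real.cosh_abs, Real.cosh_log hn]; ring
  rw [this, Real.arcosh_cosh (abs_nonneg _)]

/-- the branch of the inverse Joukowski map -/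
noncomputable def brJ (w : ℂ) : ℂ := w + Complex.exp ((Complex.log (w - 1) + Complex.log (w + 1)) / 2)

theorem brJ_spec {w : ℂ} (h1 : w - 1 ≠ 0) (h2 : w + 1 ≠ 0) :
    brJ w ≠ 0 ∧ brJ w + 1 / brJ w = 2 * w := by
  set s := Complex.exp ((Complex.log (w - 1) + Complex.log (w + 1)) / 2) with hs
  have hs2 : s ^ 2 = w ^ 2 - 1 := by
    rw [hs, ← Complex.exp_nat_mul]
    have : ((2:ℕ):ℂ) * ((Complex.log (w - 1) + Complex.log (w + 1)) / 2)
        = Complex.log (w - 1) + Complex.log (w + 1) := by push_cast; ring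
    rw [this, Complex.exp_add, Complex.exp_log h1, Complex.exp_log h2]
    ring
  have hb : brJ w = w + s := rfl
  have hprod : (w + s) * (w - s) = 1 := by
    have : (w + s) * (w - s) = w ^ 2 - s ^ 2 := by ring
    rw [this, hs2]; ring
  have hne : w + s ≠ 0 := by
    intro h; rw [h, zero_mul] at hprod; exact zero_ne_one hprod
  refine ⟨by rw [hb]; exact hne, ?_⟩
  rw [hb]
  have : 1 / (w + s) = w - s := by
    field_simp
    rw [← hprod]
  rw [this]; ring

theorem brJ_an {w : ℂ} (h1 : w - 1 ∈ Complex.slitPlane) (h2 : w + 1 ∈ Complex.slitPlane) :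
    AnalyticAt ℂ brJ w := by
  unfold brJ
  apply AnalyticAt.add analyticAt_id
  apply AnalyticAt.cexp
  apply AnalyticAt.div_const
  apply AnalyticAt.add
  · exact AnalyticAt.clog (by fun_prop) h1
  · exact AnalyticAt.clog (by fun_prop) h2

theorem hJ_harm_aux {G : ℂ → ℂ} {z0 : ℂ} (hG : AnalyticAt ℂ G z0)
    (h1 : G z0 - 1 ∈ Complex.slitPlane) :
    HarmonicAt (fun z => hJ (G z)) z0 := by
  have h2 : G z0 + 1 ∈ Complex.slitPlane := by
    rw [Complex.mem_slitPlane_iff] at h1 ⊢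
    rcases h1 with h | h
    · left; simp at h ⊢; linarith
    · right; simpa using h
  have hop : ∀ᶠ z in 𝓝 z0, G z - 1 ∈ Complex.slitPlane ∧ G z + 1 ∈ Complex.slitPlane := by
    have a1 : ∀ᶠ z in 𝓝 z0, G z - 1 ∈ Complex.slitPlane :=
      (hG.continuousAt.sub continuousAt_const).eventually_mem
        (Complex.isOpen_slitPlane.mem_nhds h1)
    have a2 : ∀ᶠ z in 𝓝 z0, G z + 1 ∈ Complex.slitPlane :=
      (hG.continuousAt.add continuousAt_const).eventually_mem
        (Complex.isOpen_slitPlane.mem_nhds h2)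
    exact a1.and a2
  have hsp : ∀ z : ℂ, z - 1 ∈ Complex.slitPlane → z + 1 ∈ Complex.slitPlane →
      brJ z ≠ 0 ∧ brJ z + 1 / brJ z = 2 * z := fun z a b =>
    brJ_spec (Complex.slitPlane_ne_zero a) (Complex.slitPlane_ne_zero b)
  obtain ⟨hne, hbe⟩ := hsp (G z0) h1 h2
  have hanal : AnalyticAt ℂ (fun z => brJ (G z)) z0 := AnalyticAt.fun_comp (brJ_an h1 h2) hG
  have hlog : HarmonicAt (fun z => Real.log ‖brJ (G z)‖) z0 := hanal.harmonicAt_log_norm hne
  set w := G z0 with hw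
  have hl0 : Real.log ‖brJ w‖ ≠ 0 := by
    intro h
    have hn : 0 < ‖brJ w‖ := norm_pos_iff.2 hne
    have h3 : ‖brJ w‖ = 1 := by
      rcases Real.log_eq_zero.1 h with h4 | h4 | h4 <;> linarith
    -- then w is real in [-1,1]
    have h5 : 1 / brJ w = (starRingEnd ℂ) (brJ w) := by
      have := Complex.inv_def (brJ w)
      rw [one_div, this, Complex.normSq_eq_norm_sq, h3]; simp
    rw [h5] at hbe
    have hre : w.re = (brJ w).re := by
      have := congrArg Complex.re hbe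
      simp at this; linarith
    have him : w.im = 0 := by
      have := congrArg Complex.im hbe
      simp at this; linarith
    rw [Complex.mem_slitPlane_iff] at h1
    rcases h1 with h6 | h6
    · have : (brJ w).re ≤ 1 := by rw [← h3]; exact Complex.re_le_norm _
      simp at h6; linarith
    · simp [him] at h6
  have hcont : ContinuousAt (fun z => Real.log ‖brJ (G z)‖) z0 := hlog.1.continuousAt
  rcases lt_or_gt_of_ne hl0 with h | h
  · have hneg : HarmonicAt (fun z => - Real.log ‖brJ (G z)‖) z0 := by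
      have := hlog.const_smul (c := (-1:ℝ))
      refine (harmonicAt_congr_nhds (Eventually.of_forall fun z => ?_)).1 this
      simp
    refine (harmonicAt_congr_nhds ?_).1 hneg
    filter_upwards [hop, hcont.eventually_lt continuousAt_const h] with z hz hz2
    rw [hJ_eq (hsp _ hz.1 hz.2).1 (hsp _ hz.1 hz.2).2, abs_of_neg hz2]
  · refine (harmonicAt_congr_nhds ?_).1 hlog
    filter_upwards [hop, continuousAt_const.eventually_lt hcont h] with z hz hz2
    rw [hJ_eq (hsp _ hz.1 hz.2).1 (hsp _ hz.1 hz.2).2, abs_of_pos hz2]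

/-- composition of the Green function with an analytic function is harmonic off `[-1,1]` -/
theorem hJ_harm {G : ℂ → ℂ} {z0 : ℂ} (hG : AnalyticAt ℂ G z0)
    (h1 : (G z0).im ≠ 0 ∨ 1 < |(G z0).re|) : HarmonicAt (fun z => hJ (G z)) z0 := by
  by_cases h : G z0 - 1 ∈ Complex.slitPlane
  · exact hJ_harm_aux hG h
  · have h2 : -(G z0) - 1 ∈ Complex.slitPlane := by
      rw [Complex.mem_slitPlane_iff] at h ⊢
      push Not at h
      simp only [sub_re, one_re, sub_im, one_im, sub_zero] at h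
      rcases h1 with h3 | h3
      · exact absurd h.2 h3
      · left
        simp only [sub_re, one_re, neg_re]
        rcases lt_abs.1 h3 with h4 | h4 <;> linarith [h.1]
    have := hJ_harm_aux (G := fun z => -(G z)) hG.neg h2
    simpa only [hJ_neg] using this

theorem hJ_zero_iff (w : ℂ) : hJ w = 0 ↔ w.im = 0 ∧ |w.re| ≤ 1 := by
  unfold hJ
  rw [Real.arcosh_eq_zero_iff (hJ_arg w)]
  constructor
  · intro h
    have h1 : |w.re - 1| ≤ ‖w - 1‖ := by
      have := Complex.abs_re_le_norm (w - 1); simpa using this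
    have h2 : |w.re + 1| ≤ ‖w + 1‖ := by
      have := Complex.abs_re_le_norm (w + 1); simpa using this
    have h3 : |w.re| ≤ 1 := by
      rw [abs_le]
      constructor
      · by_contra hc
        push Not at hc
        have a1 := neg_abs_le (w.re - 1)
        have a2 := neg_abs_le (w.re + 1)
        linarith
      · by_contra hc
        push Not at hc
        have a1 := le_abs_self (w.re - 1)
        have a2 := le_abs_self (w.re + 1)
        linarith
    refine ⟨?_, h3⟩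
    have h4 := abs_le.1 h3
    rw [abs_of_nonpos (by linarith)] at h1
    rw [abs_of_nonneg (by linarith)] at h2
    have h5 : ‖w - 1‖ = 1 - w.re := by linarith
    have h6 : ‖w - 1‖ ^ 2 = (1 - w.re) ^ 2 := by rw [h5]
    rw [Complex.sq_norm, Complex.normSq_apply] at h6
    simp at h6
    have : w.im * w.im = 0 := by nlinarith
    exact mul_self_eq_zero.1 this
  · rintro ⟨h1, h2⟩
    have hw : w = (w.re : ℂ) := by apply Complex.ext <;> simp [h1]
    have h4 := abs_le.1 h2
    have e1 : ‖w - 1‖ = 1 - w.re := by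
      rw [hw]
      have : ((w.re : ℂ) - 1) = ((w.re - 1 : ℝ) : ℂ) := by push_cast; ring
      rw [this, Complex.norm_real, Real.norm_eq_abs, Complex.ofReal_re, abs_of_nonpos (by linarith)]
      ring
    have e2 : ‖w + 1‖ = w.re + 1 := by
      rw [hw]
      have : ((w.re : ℂ) + 1) = ((w.re + 1 : ℝ) : ℂ) := by push_cast; ring
      rw [this, Complex.norm_real, Real.norm_eq_abs, Complex.ofReal_re, abs_of_nonneg (by linarith)]
    rw [e1, e2]; ring

theorem hJ_real_le {s r : ℝ} (hr : 1 ≤ r) (hs : |s| ≤ r) : hJ (s : ℂ) ≤ Real.arcosh r := by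
  unfold hJ
  rw [Real.arcosh_le_arcosh (by linarith [hJ_arg (s:ℂ)]) (by linarith)]
  have h1 : ‖(s:ℂ) - 1‖ = |s - 1| := by
    rw [← Complex.ofReal_one, ← Complex.ofReal_sub, Complex.norm_real, Real.norm_eq_abs]
  have h2 : ‖(s:ℂ) + 1‖ = |s + 1| := by
    rw [← Complex.ofReal_one, ← Complex.ofReal_add, Complex.norm_real, Real.norm_eq_abs]
  rw [h1, h2]
  have h3 := abs_le.1 hs
  rcases le_total 0 (s - 1) with a | a <;> rcases le_total 0 (s + 1) with b | b
  · rw [abs_of_nonneg a, abs_of_nonneg b]; linarith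
  · rw [abs_of_nonneg a, abs_of_nonpos b]; linarith
  · rw [abs_of_nonpos a, abs_of_nonneg b]; linarith
  · rw [abs_of_nonpos a, abs_of_nonpos b]; linarith

theorem hJ_real_eq {r : ℝ} (hr : 1 ≤ r) : hJ (r : ℂ) = Real.arcosh r := by
  unfold hJ
  have h1 : ‖(r:ℂ) - 1‖ = |r - 1| := by
    rw [← Complex.ofReal_one, ← Complex.ofReal_sub, Complex.norm_real, Real.norm_eq_abs]
  have h2 : ‖(r:ℂ) + 1‖ = |r + 1| := by
    rw [← Complex.ofReal_one, ← Complex.ofReal_add, Complex.norm_real, Real.norm_eq_abs]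
  rw [h1, h2, abs_of_nonneg (by linarith), abs_of_nonneg (by linarith)]
  congr 1; ring

/-- size bounds -/
theorem hJ_up (w : ℂ) : hJ w ≤ Real.log (2 * (‖w‖ + 1)) := by
  have h1 : (‖w - 1‖ + ‖w + 1‖) / 2 ≤ ‖w‖ + 1 := by
    have a := norm_sub_le w 1
    have b := norm_add_le w 1
    rw [norm_one] at a b
    linarith
  have h2 : Real.cosh (hJ w) = (‖w - 1‖ + ‖w + 1‖) / 2 := Real.cosh_arcosh (hJ_arg w)
  have h3 : Real.exp (hJ w) / 2 ≤ Real.cosh (hJ w) := by
    rw [Real.cosh_eq]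
    have := Real.exp_pos (-(hJ w))
    linarith
  rw [Real.le_log_iff_exp_le (by positivity)]
  linarith

theorem hJ_low (w : ℂ) (h : 0 < ‖w‖) : Real.log ‖w‖ ≤ hJ w := by
  have h1 : ‖w‖ ≤ (‖w - 1‖ + ‖w + 1‖) / 2 := by
    have a : ‖(w - 1) + (w + 1)‖ ≤ ‖w - 1‖ + ‖w + 1‖ := norm_add_le _ _
    have b : (w - 1) + (w + 1) = 2 * w := by ring
    rw [b, norm_mul, Complex.norm_ofNat] at a
    linarith
  have h2 : Real.cosh (hJ w) = (‖w - 1‖ + ‖w + 1‖) / 2 := Real.cosh_arcosh (hJ_arg w)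
  have h3 : Real.cosh (hJ w) ≤ Real.exp (hJ w) := by
    rw [Real.cosh_eq]
    have : Real.exp (-(hJ w)) ≤ Real.exp (hJ w) := Real.exp_le_exp.2 (by linarith [hJ_nn w])
    linarith
  rw [Real.log_le_iff_le_exp h]
  linarith

end Pool.Agent.U591.LV
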