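import Pool.Agent.U591.LV.Flat

set_option autoImplicit false

open MeasureTheory Set Filter Topology Complex InnerProductSpace

namespace Pool.Agent.U591.LV

variable {U : ℂ → ℝ} {E : Set ℝ}

/-- the restriction to a horizontal line -/
noncomputable def ln (U : ℂ → ℝ) (c y t : ℝ) : ℝ := U (mkC (c + t) y)

theorem ln_cont (hU : Continuous U) (c y : ℝ) : Continuous (ln U c y) := by
  apply hU.comp
  exact mkC_cont.comp (by fun_prop : Continuous (fun t : ℝ => ((c + t, y) : ℝ × ℝ)))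

theorem Hf_cont (hU : Continuous U) :
    Continuous (fun q : (ℝ × ℝ × ℝ) × ℝ => Hf (ln U q.1.1 q.1.2.2) (2 * q.1.2.1) q.2) := by
  unfold Hf
  apply Continuous.add (by fun_prop)
  apply intervalIntegral.continuous_parametric_intervalIntegral_of_continuous'
    (f := fun (q : (ℝ × ℝ × ℝ) × ℝ) (t : ℝ) => max (ln U q.1.1 q.1.2.2 t - q.2) 0)
  have h1 : Continuous (fun q : ((ℝ × ℝ × ℝ) × ℝ) × ℝ => ln U q.1.1.1 q.1.1.2.2 q.2) := by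
    unfold ln
    apply hU.comp
    exact mkC_cont.comp (by fun_prop :
      Continuous (fun q : ((ℝ × ℝ × ℝ) × ℝ) × ℝ => ((q.1.1.1 + q.2, q.1.1.2.2) : ℝ × ℝ)))
  exact (h1.sub (by fun_prop)).max continuous_const

/-- the windowed star function, in its dual form -/
noncomputable def Kf (U : ℂ → ℝ) (Λ : ℝ) (P : ℝ × ℝ × ℝ) : ℝ :=
  sInf ((fun l => Hf (ln U P.1 P.2.2) (2 * P.2.1) l) '' Icc 0 Λ)

theorem Kf_cont (hU : Continuous U) (Λ : ℝ) : Continuous (Kf U Λ) := by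
  unfold Kf
  exact IsCompact.continuous_sInf (f := fun (P : ℝ × ℝ × ℝ) (l : ℝ) =>
    Hf (ln U P.1 P.2.2) (2 * P.2.1) l) isCompact_Icc (Hf_cont hU)

theorem Hf_cont1 (hU : Continuous U) (P : ℝ × ℝ × ℝ) :
    Continuous (fun l => Hf (ln U P.1 P.2.2) (2 * P.2.1) l) :=
  (Hf_cont hU).comp (by fun_prop : Continuous (fun l : ℝ => ((P, l) : (ℝ × ℝ × ℝ) × ℝ)))

theorem Kf_le (hU : Continuous U) {Λ : ℝ} (P : ℝ × ℝ × ℝ) {l : ℝ} (hl : l ∈ Icc 0 Λ) :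
    Kf U Λ P ≤ Hf (ln U P.1 P.2.2) (2 * P.2.1) l := by
  exact csInf_le (isCompact_Icc.image (Hf_cont1 hU P)).bddBelow ⟨l, hl, rfl⟩

theorem Kf_min (hU : Continuous U) {Λ : ℝ} (hΛ : 0 ≤ Λ) (P : ℝ × ℝ × ℝ) :
    ∃ l ∈ Icc 0 Λ, Hf (ln U P.1 P.2.2) (2 * P.2.1) l = Kf U Λ P := by
  have hne : ((fun l => Hf (ln U P.1 P.2.2) (2 * P.2.1) l) '' Icc 0 Λ).Nonempty :=
    ⟨_, 0, left_mem_Icc.2 hΛ, rfl⟩
  have := (isCompact_Icc.image (Hf_cont1 hU P)).sInf_mem hne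
  obtain ⟨l, hl, he⟩ := this
  exact ⟨l, hl, he⟩

theorem le_Kf (hU : Continuous U) {Λ : ℝ} (hΛ : 0 ≤ Λ) {P : ℝ × ℝ × ℝ} {f : ℝ → ℝ} (hf : Dens f)
    (hm : ∫ t, f t ≤ 2 * P.2.1) : ∫ t, f t * U (mkC (P.1 + t) P.2.2) ≤ Kf U Λ P := by
  obtain ⟨l, hl, he⟩ := Kf_min hU hΛ P
  rw [← he]
  exact Hf_upper (ln_cont hU _ _) hf hm hl.1

theorem Kf_le_int (hU : Continuous U) (h0 : ∀ z, 0 ≤ U z) {Λ : ℝ} (hΛ : 0 ≤ Λ) (P : ℝ × ℝ × ℝ) :
    Kf U Λ P ≤ ∫ t in (0:ℝ)..1, U (mkC (P.1 + t) P.2.2) := by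
  refine (Kf_le hU P (left_mem_Icc.2 hΛ)).trans (le_of_eq ?_)
  unfold Hf ln
  simp only [mul_zero, zero_add, sub_zero]
  congr 1
  ext t
  exact max_eq_left (h0 _)

theorem Hf_large {g : ℝ → ℝ} {m l : ℝ} (h : ∀ t ∈ Icc (0:ℝ) 1, g t ≤ l) : Hf g m l = m * l := by
  unfold Hf
  have : ∫ t in (0:ℝ)..1, max (g t - l) 0 = 0 := by
    rw [intervalIntegral.integral_congr (g := fun _ => (0:ℝ))]
    · simp
    · intro t ht
      rw [uIcc_of_le zero_le_one] at ht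
      exact max_eq_right (by linarith [h t ht])
  rw [this, add_zero]

theorem Hf_shift (g : ℝ → ℝ) (m m' l : ℝ) : Hf g m' l = Hf g m l - (m - m') * l := by
  unfold Hf; ring

end Pool.Agent.U591.LV
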