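import Pool.Agent.U591.LV.Bdd

set_option autoImplicit false

open MeasureTheory Set Filter Topology Complex InnerProductSpace

namespace Pool.Agent.U591.LV

variable {U : ℂ → ℝ} {E : Set ℝ}

/-- superlinear harmonic penalty in the first quadrant -/
noncomputable def qq (z : ℂ) : ℝ :=
  (Complex.exp (Complex.log (1 + (1 - I) * z) / 2) * (1 + (1 - I) * z)).re

theorem qu_re (z : ℂ) : (1 + (1 - I) * z).re = 1 + z.re + z.im := by
  simp; ring

theorem qu_im (z : ℂ) : (1 + (1 - I) * z).im = z.im - z.re := by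
  simp; ring

theorem qu_slit {z : ℂ} (hz : 0 < 1 + z.re + z.im) : 1 + (1 - I) * z ∈ Complex.slitPlane := by
  rw [Complex.mem_slitPlane_iff, qu_re]; exact Or.inl hz

theorem qq_an {z : ℂ} (hz : 0 < 1 + z.re + z.im) :
    AnalyticAt ℂ (fun z : ℂ => Complex.exp (Complex.log (1 + (1 - I) * z) / 2) * (1 + (1 - I) * z)) z := by
  apply AnalyticAt.mul _ (by fun_prop)
  apply AnalyticAt.cexp
  apply AnalyticAt.div_const
  exact AnalyticAt.clog (by fun_prop) (qu_slit hz)

theorem qq_harm {z : ℂ} (hz : 0 < 1 + z.re + z.im) : HarmonicAt qq z := (qq_an hz).harmonicAt_re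

theorem qq_low {z : ℂ} (h1 : 0 ≤ z.re) (h2 : 0 ≤ z.im) :
    (1 / 2) * (1 + z.re + z.im) * Real.sqrt (1 + z.re + z.im) ≤ qq z := by
  set u : ℂ := 1 + (1 - I) * z with hu
  have hur : u.re = 1 + z.re + z.im := qu_re z
  have hui : u.im = z.im - z.re := qu_im z
  have hus : u ∈ Complex.slitPlane := qu_slit (by linarith)
  have hu0 := Complex.slitPlane_ne_zero hus
  set s := Complex.exp (Complex.log u / 2) with hs
  have hs2 : s ^ 2 = u := by
    rw [hs, ← Complex.exp_nat_mul]
    have : ((2:ℕ):ℂ) * (Complex.log u / 2) = Complex.log u := by push_cast; ring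
    rw [this, Complex.exp_log hu0]
  have hre : s.re = Real.sqrt ((‖u‖ + u.re) / 2) := sqrt_branch hus
  have hun : u.re ≤ ‖u‖ := Complex.re_le_norm u
  have hupos : 1 ≤ u.re := by rw [hur]; linarith
  have hsr : Real.sqrt u.re ≤ s.re := by
    rw [hre]; apply Real.sqrt_le_sqrt; linarith
  have hsr0 : 0 ≤ s.re := (Real.sqrt_nonneg _).trans hsr
  have e1 : ‖u‖ = s.re ^ 2 + s.im ^ 2 := by
    rw [← hs2, norm_pow, Complex.sq_norm, Complex.normSq_apply]; ring
  have e2 : u.re = s.re ^ 2 - s.im ^ 2 := by
    conv_lhs => rw [← hs2]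
    rw [sq, Complex.mul_re]; ring
  have hin : ‖u‖ ≤ 5 / 3 * u.re := by
    have h3 : ‖u‖ ^ 2 ≤ (5 / 3 * u.re) ^ 2 := by
      rw [Complex.sq_norm, Complex.normSq_apply]
      have : u.im * u.im ≤ u.re * u.re := by rw [hur, hui]; nlinarith
      nlinarith
    exact (pow_le_pow_iff_left₀ (norm_nonneg _) (by linarith) two_ne_zero).1 h3
  have him : s.im ^ 2 ≤ (s.re / 2) ^ 2 := by nlinarith
  have him' : |s.im| ≤ s.re / 2 := by
    have := sq_le_sq.1 him
    rwa [abs_of_nonneg (by linarith : 0 ≤ s.re / 2)] at this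
  have huim : |u.im| ≤ u.re := by
    rw [hui, hur, abs_le]; constructor <;> linarith
  have h4 : s.im * u.im ≤ s.re / 2 * u.re := by
    calc s.im * u.im ≤ |s.im * u.im| := le_abs_self _
      _ = |s.im| * |u.im| := abs_mul _ _
      _ ≤ s.re / 2 * u.re := mul_le_mul him' huim (abs_nonneg _) (by linarith)
  have h5 : qq z = s.re * u.re - s.im * u.im := by
    show (s * u).re = _
    rw [Complex.mul_re]
  rw [h5, ← hur]
  have h6 : 1 / 2 * u.re * Real.sqrt u.re ≤ 1 / 2 * u.re * s.re :=
    mul_le_mul_of_nonneg_left hsr (by linarith)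
  linarith

theorem quad_aux {v : ℂ → ℝ} (hv : Continuous v)
    (hs : ∀ z r, 0 < r → v z ≤ Real.circleAverage v z r) {A : ℝ} (hA : 0 < A)
    (hg : ∀ x y, 0 ≤ x → 0 ≤ y → v (mkC x y) ≤ A * (1 + x + y))
    (h1 : ∀ x, 0 ≤ x → v (mkC x 0) ≤ 0) (h2 : ∀ y, 0 ≤ y → v (mkC 0 y) ≤ 0) :
    ∀ x y, 0 ≤ x → 0 ≤ y → v (mkC x y) ≤ 0 := by
  intro x y hx hy
  apply le_of_forall_pos_le_add
  intro e he
  rw [zero_add]
  set δ : ℝ := e / (|qq (mkC x y)| + 1) with hδ
  have hδ0 : 0 < δ := by positivity
  set R : ℝ := (2 * A / δ) ^ 2 + x + y with hR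
  have hR0 : 0 ≤ R := by positivity
  have hRs : A * (1 + R) ≤ δ * ((1 / 2) * (1 + R) * Real.sqrt (1 + R)) := by
    have h3 : 2 * A / δ ≤ Real.sqrt (1 + R) := by
      apply Real.le_sqrt_of_sq_le
      rw [hR]; linarith
    rw [div_le_iff₀ hδ0] at h3
    nlinarith
  have hop : IsOpen {z : ℂ | 0 < 1 + z.re + z.im} :=
    isOpen_lt continuous_const ((continuous_const.add Complex.continuous_re).add Complex.continuous_im)
  have hqc : ContinuousOn qq {z : ℂ | 0 < 1 + z.re + z.im} := by
    intro z hz
    exact (qq_harm hz).1.continuousAt.continuousWithinAt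
  set K : Set ℂ := {z : ℂ | 0 ≤ z.re} ∩ ({z : ℂ | 0 ≤ z.im} ∩ {z : ℂ | z.re + z.im ≤ R}) with hK
  have hKclosed : IsClosed K := by
    apply IsClosed.inter (isClosed_le continuous_const Complex.continuous_re)
    exact IsClosed.inter (isClosed_le continuous_const Complex.continuous_im)
      (isClosed_le (Complex.continuous_re.add Complex.continuous_im) continuous_const)
  have hKb : K ⊆ Metric.closedBall 0 R := by
    rintro z ⟨a1, a2, a3⟩
    have a1' : 0 ≤ z.re := a1
    have a2' : 0 ≤ z.im := a2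
    have a3' : z.re + z.im ≤ R := a3
    rw [mem_closedBall_zero_iff]
    have := Complex.norm_le_abs_re_add_abs_im z
    rw [abs_of_nonneg a1', abs_of_nonneg a2'] at this
    linarith
  have hKc : IsCompact K := (isCompact_closedBall (0:ℂ) R).of_isClosed_subset hKclosed hKb
  have hKS : K ⊆ {z : ℂ | 0 < 1 + z.re + z.im} := by
    rintro z ⟨a1, a2, a3⟩
    have a1' : 0 ≤ z.re := a1
    have a2' : 0 ≤ z.im := a2
    show 0 < 1 + z.re + z.im
    linarith
  have key := maxP K hKc {z : ℂ | z.re = 0 ∨ z.im = 0 ∨ z.re + z.im = R}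
    (fun z => v z - δ * qq z) (hv.continuousOn.sub (continuousOn_const.mul (hqc.mono hKS))) ?_ ?_
    (mkC x y) ?_
  · have h3 : δ * qq (mkC x y) ≤ e := by
      have h4 : qq (mkC x y) ≤ |qq (mkC x y)| + 1 := by
        have := le_abs_self (qq (mkC x y)); linarith
      have h5 : δ * (|qq (mkC x y)| + 1) = e := by rw [hδ]; field_simp
      rw [← h5]
      exact mul_le_mul_of_nonneg_left h4 hδ0.le
    linarith
  · rintro z ⟨a1, a2, a3⟩ hzB
    have a1' : 0 ≤ z.re := a1
    have a2' : 0 ≤ z.im := a2
    have a3' : z.re + z.im ≤ R := a3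
    have hq := qq_low a1' a2'
    have hq0 : 0 ≤ (1 / 2) * (1 + z.re + z.im) * Real.sqrt (1 + z.re + z.im) := by positivity
    rcases hzB with h | h | h
    · have := h2 z.im a2'
      have e1 : mkC 0 z.im = z := by rw [← h, mkC_eta]
      rw [e1] at this
      have : 0 ≤ δ * qq z := mul_nonneg hδ0.le (by linarith)
      linarith
    · have := h1 z.re a1'
      have e1 : mkC z.re 0 = z := by rw [← h, mkC_eta]
      rw [e1] at this
      have : 0 ≤ δ * qq z := mul_nonneg hδ0.le (by linarith)
      linarith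
    · have h3 := hg z.re z.im a1' a2'
      rw [mkC_eta] at h3
      have e1 : 1 + z.re + z.im = 1 + R := by linarith
      rw [e1] at h3 hq
      have : δ * ((1 / 2) * (1 + R) * Real.sqrt (1 + R)) ≤ δ * qq z := mul_le_mul_of_nonneg_left hq hδ0.le
      linarith
  · rintro z ⟨a1, a2, a3⟩ hzB
    have a1' : 0 ≤ z.re := a1
    have a2' : 0 ≤ z.im := a2
    have a3' : z.re + z.im ≤ R := a3
    have hzB' : ¬(z.re = 0 ∨ z.im = 0 ∨ z.re + z.im = R) := hzB
    push Not at hzB'
    have g1 : 0 < z.re := lt_of_le_of_ne a1' (Ne.symm hzB'.1)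
    have g2 : 0 < z.im := lt_of_le_of_ne a2' (Ne.symm hzB'.2.1)
    have g3 : z.re + z.im < R := lt_of_le_of_ne a3' hzB'.2.2
    set r := min (min z.re z.im) ((R - (z.re + z.im)) / 2) with hr
    have hr0 : 0 < r := lt_min (lt_min g1 g2) (by linarith)
    have hr1 : r ≤ z.re := (min_le_left _ _).trans (min_le_left _ _)
    have hr2 : r ≤ z.im := (min_le_left _ _).trans (min_le_right _ _)
    have hr3 : r ≤ (R - (z.re + z.im)) / 2 := min_le_right _ _
    have hball : ∀ w ∈ Metric.closedBall z r, w ∈ K := by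
      intro w hw
      rw [mem_closedBall_iff_norm] at hw
      have b1 := (Complex.abs_re_le_norm (w - z)).trans hw
      have b2 := (Complex.abs_im_le_norm (w - z)).trans hw
      rw [sub_re, abs_le] at b1
      rw [sub_im, abs_le] at b2
      refine ⟨?_, ?_, ?_⟩
      · show 0 ≤ w.re
        linarith [b1.1]
      · show 0 ≤ w.im
        linarith [b2.1]
      · show w.re + w.im ≤ R
        linarith [b1.2, b2.2]
    refine ⟨r, hr0, fun w hw => hball w (Metric.sphere_subset_closedBall hw), ?_⟩
    have hqm : Real.circleAverage qq z r = qq z := by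
      have hh : HarmonicOnNhd qq (Metric.closedBall z |r|) := by
        rw [abs_of_pos hr0]
        intro w hw
        exact qq_harm (hKS (hball w hw))
      exact hh.circleAverage_eq
    have cq : CircleIntegrable qq z r := by
      apply ContinuousOn.circleIntegrable hr0.le
      exact hqc.mono (fun w hw => hKS (hball w (Metric.sphere_subset_closedBall hw)))
    rw [ca_sub_mul (hv.continuousOn.circleIntegrable hr0.le) cq, hqm]
    have := hs z r hr0
    linarith
  · refine ⟨?_, ?_, ?_⟩
    · show 0 ≤ (mkC x y).re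
      rw [mkC_re]; exact hx
    · show 0 ≤ (mkC x y).im
      rw [mkC_im]; exact hy
    · show (mkC x y).re + (mkC x y).im ≤ R
      rw [mkC_re, mkC_im, hR]
      have : 0 ≤ (2 * A / δ) ^ 2 := by positivity
      linarith

/-- window averages along the imaginary axis -/
theorem axis_asym (D : Data U E) (hlim : Tendsto (fun y : ℝ => U (mkC 0 y) / y) atTop (𝓝 1))
    {ε : ℝ} (hε : 0 < ε) : ∃ C : ℝ, 0 ≤ C ∧ ∀ y, 0 ≤ y → fU U (mkC 0 y) ≤ C + (1 + ε) * y := by
  have hpt : ∀ y, 1 < y → fU U (mkC 0 y) ≤ (y + 1) / (y - 1) * U (mkC 0 y) := by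
    intro y hy
    unfold fU
    simp only [mkC_re, mkC_im]
    have h1 : ∫ t in (0:ℝ)..1, U (mkC (0 + t) y) ≤ ∫ t in (0:ℝ)..1, (y + 1) / (y - 1) * U (mkC 0 y) := by
      apply intervalIntegral.integral_mono_on zero_le_one
      · exact (D.gcont 0 y).intervalIntegrable _ _
      · simp
      · intro t ht
        have e1 : ‖mkC (0 + t) y - mkC 0 y‖ = t := by
          have e : mkC (0 + t) y - mkC 0 y = ((t : ℝ) : ℂ) := by unfold mkC; push_cast; ring
          rw [e, Complex.norm_real, Real.norm_eq_abs, abs_of_nonneg ht.1]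
        have h2 := harnack D (p := mkC 0 y) (w := mkC (0 + t) y) (ρ := y) (by rw [mkC_im])
          (by rw [e1]; linarith [ht.2])
        rw [e1] at h2
        refine h2.trans ?_
        apply mul_le_mul_of_nonneg_right _ (D.nn _)
        rw [div_le_div_iff₀ (by linarith [ht.2]) (by linarith)]
        nlinarith [ht.1, ht.2]
    simpa using h1
  have hlim2 : Tendsto (fun y : ℝ => (y + 1) / (y - 1) * (U (mkC 0 y) / y)) atTop (𝓝 (1 * 1)) := by
    apply Tendsto.mul _ hlim
    have h1 : Tendsto (fun y : ℝ => 1 + 2 / (y - 1)) atTop (𝓝 (1 + 0)) := by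
      apply Tendsto.const_add
      apply Tendsto.div_atTop tendsto_const_nhds
      exact tendsto_atTop_add_const_right _ _ tendsto_id
    rw [add_zero] at h1
    apply h1.congr'
    filter_upwards [eventually_gt_atTop 1] with y hy
    have : y - 1 ≠ 0 := by linarith
    field_simp
    ring
  rw [one_mul] at hlim2
  have h1 : ∀ᶠ y : ℝ in atTop, (y + 1) / (y - 1) * (U (mkC 0 y) / y) < 1 + ε :=
    hlim2.eventually_lt_const (by linarith)
  obtain ⟨Y0, hY0⟩ := (h1.and (eventually_gt_atTop 1)).exists_forall_of_atTop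
  obtain ⟨C, hC⟩ := (isCompact_Icc (a := (0:ℝ)) (b := Y0)).exists_bound_of_continuousOn
    (((fU_cont D.cont).comp (mkC_cont.comp (by fun_prop : Continuous fun y : ℝ => ((0, y) : ℝ × ℝ))) :
      Continuous fun y : ℝ => fU U (mkC 0 y))).continuousOn
  refine ⟨max C 0, le_max_right _ _, fun y hy => ?_⟩
  rcases le_total y Y0 with h | h
  · have := hC y ⟨hy, h⟩
    have h2 : fU U (mkC 0 y) ≤ C := (le_abs_self _).trans this
    have h3 : C ≤ max C 0 := le_max_left _ _
    have : 0 ≤ (1 + ε) * y := by positivity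
    linarith
  · obtain ⟨h2, h3⟩ := hY0 y h
    have h4 := hpt y h3
    have hy0 : 0 < y := by linarith
    have h5 : (y + 1) / (y - 1) * U (mkC 0 y) ≤ (1 + ε) * y := by
      have e : (y + 1) / (y - 1) * U (mkC 0 y) = (y + 1) / (y - 1) * (U (mkC 0 y) / y) * y := by
        field_simp
      rw [e]
      exact mul_le_mul_of_nonneg_right h2.le hy0.le
    have h6 : 0 ≤ max C 0 := le_max_right _ _
    linarith

/-- the growth theorem for window averages -/
theorem growth_final (D : Data U E) (hsym : ∀ x y, U (mkC x (-y)) = U (mkC x y)) {g : ℝ}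
    (hg0 : 0 < g) (hg : g < 1 / 2)
    (hδ : ∀ a : ℝ, ENNReal.ofReal (1 - 2 * g) ≤ volume (E ∩ Icc a (a + 1)))
    (hlim : Tendsto (fun y : ℝ => U (mkC 0 y) / y) atTop (𝓝 1)) :
    ∃ C : ℝ, ∀ c y, fU U (mkC c y) ≤ C + |y| := by
  obtain ⟨A, hA, hlin⟩ := linear_growth D hsym hlim
  obtain ⟨m, hm0, hm⟩ := axis_bdd D hsym hg0 hg hδ hlim
  have hc := fU_cont D.cont
  refine ⟨m, fun c y => ?_⟩
  rw [← fU_abs hsym]
  have hy := abs_nonneg y
  set a := |y| with ha
  clear_value a
  have himcont : Continuous (fun z : ℂ => z.im) := Complex.continuous_im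
  -- for each epsilon
  have key : ∀ ε : ℝ, 0 < ε → fU U (mkC c a) ≤ m + (1 + ε) * a := by
    intro ε hε
    obtain ⟨C, hC0, hC⟩ := axis_asym D hlim hε
    set C' := max m C with hC'
    have hmC : m ≤ C' := le_max_left _ _
    have hCC : C ≤ C' := le_max_right _ _
    have hC'0 : 0 ≤ C' := hm0.trans hmC
    set H : ℂ → ℝ := fun z => 0 * z.re ^ 2 + 0 * z.im ^ 2 + 0 * z.re + (1 + ε) * z.im + C' with hH
    have hHc : Continuous H := by fun_prop
    have hHm : ∀ z r, Real.circleAverage H z r = H z := by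
      intro z r
      have := ca_quad 0 0 0 (1 + ε) C' z r
      rw [hH, this]; ring
    have hHe : ∀ x y, H (mkC x y) = (1 + ε) * y + C' := by
      intro x y; simp only [hH, mkC_re, mkC_im]; ring
    -- right quadrant
    have hR : ∀ x y, 0 ≤ x → 0 ≤ y → fU U (mkC x y) ≤ (1 + ε) * y + C' := by
      intro x y hx hy
      have h := quad_aux (v := fun z => fU U z - 1 * H z) (by fun_prop) (fun z r hr => by
        rw [ca_sub_mul (hc.continuousOn.circleIntegrable hr.le)
          (hHc.continuousOn.circleIntegrable hr.le), hHm]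
        have := fU_gsub D z hr
        linarith) hA (fun x y hx hy => by
        rw [hHe]
        have := hlin x y
        rw [abs_of_nonneg hx, abs_of_nonneg hy] at this
        have : 0 ≤ (1 + ε) * y := by positivity
        linarith) (fun x hx => by
        rw [hHe]
        have := hm x
        linarith) (fun y hy => by
        rw [hHe]
        have := hC y hy
        linarith) x y hx hy
      rw [hHe] at h
      linarith
    have hL : ∀ x y, 0 ≤ x → 0 ≤ y → fU U (mkC (-x) y) ≤ (1 + ε) * y + C' := by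
      intro x y hx hy
      have hc' : Continuous (fun w : ℂ => fU U (mkC (-w.re) w.im)) :=
        hc.comp (mkC_cont.comp (by fun_prop : Continuous fun w : ℂ => ((-w.re, w.im) : ℝ × ℝ)))
      have h := quad_aux (v := fun z => (fun w : ℂ => fU U (mkC (-w.re) w.im)) z - 1 * H z)
        (hc'.sub (continuous_const.mul hHc)) (fun z r hr => by
        rw [ca_sub_mul (hc'.continuousOn.circleIntegrable hr.le)
          (hHc.continuousOn.circleIntegrable hr.le), hHm, ca_reflect]
        have := fU_gsub D (mkC (-z.re) z.im) hr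
        linarith) hA (fun x y hx hy => by
        rw [hHe]
        simp only [mkC_re, mkC_im]
        have := hlin (-x) y
        rw [abs_neg, abs_of_nonneg hx, abs_of_nonneg hy] at this
        have : 0 ≤ (1 + ε) * y := by positivity
        linarith) (fun x hx => by
        rw [hHe]
        simp only [mkC_re, mkC_im]
        have := hm (-x)
        linarith) (fun y hy => by
        rw [hHe]
        simp only [mkC_re, mkC_im, neg_zero]
        have := hC y hy
        linarith) x y hx hy
      rw [hHe] at h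
      simp only [mkC_re, mkC_im] at h
      linarith
    have hall : ∀ x y, 0 ≤ y → fU U (mkC x y) ≤ (1 + ε) * y + C' := by
      intro x y hy
      rcases le_total 0 x with h | h
      · exact hR x y h hy
      · have := hL (-x) y (by linarith) hy
        rwa [neg_neg] at this
    set G : ℂ → ℝ := fun z => 0 * z.re ^ 2 + 0 * z.im ^ 2 + 0 * z.re + (1 + ε) * z.im + m with hG
    have hGc : Continuous G := by fun_prop
    have hGm : ∀ z r, Real.circleAverage G z r = G z := by
      intro z r
      have := ca_quad 0 0 0 (1 + ε) m z r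
      rw [hG, this]; ring
    have h := PL_half (fun z => fU U z - 1 * G z) (by fun_prop) (fun z hz => ⟨1, one_pos, fun r hr _ => by
        rw [ca_sub_mul (hc.continuousOn.circleIntegrable hr.le)
          (hGc.continuousOn.circleIntegrable hr.le), hGm]
        have := fU_gsub D z hr
        linarith⟩) (C' - m) (fun z hz => by
        have := hall z.re z.im hz
        rw [mkC_eta] at this
        simp only [hG]
        linarith) (fun z hz => by
        have := hm z.re
        have e1 : mkC z.re 0 = z := by rw [← hz, mkC_eta]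
        rw [e1] at this
        simp only [hG]
        rw [hz]
        linarith) (mkC c a) (by simpa using hy)
    simp only [hG, mkC_re, mkC_im] at h
    linarith
  apply le_of_forall_pos_le_add
  intro e he
  have h1 := key (e / (a + 1)) (by positivity)
  have h2 : e / (a + 1) * a ≤ e := by
    rw [div_mul_eq_mul_div, div_le_iff₀ (by linarith)]
    nlinarith
  linarith

end Pool.Agent.U591.LV
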