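import Pool.Agent.U591.LV.Kf

set_option autoImplicit false

open MeasureTheory Set Filter Topology Complex InnerProductSpace

namespace Pool.Agent.U591.LV

variable {U : ℂ → ℝ} {E : Set ℝ}

theorem fub_int {f : ℝ → ℝ} (hf : Dens f) {V : ℝ × ℝ → ℝ} (hV : Continuous V) {a b : ℝ}
    (hab : a ≤ b) :
    Integrable (Function.uncurry fun (θ t : ℝ) => f t * V (θ, t))
      ((volume.restrict (Ioc a b)).prod volume) := by
  obtain ⟨C, hC⟩ := (isCompact_Icc (a := a) (b := b) |>.prod (isCompact_Icc (a := (0:ℝ)) (b := 1))).exists_bound_of_continuousOn hV.continuousOn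
  have h1 : Integrable (indicator (Ioc a b ×ˢ Icc (0:ℝ) 1) (fun _ => C))
      ((volume.restrict (Ioc a b)).prod (volume : Measure ℝ)) := by
    rw [integrable_indicator_iff (measurableSet_Ioc.prod measurableSet_Icc)]
    refine integrableOn_const ?_ (by simp)
    rw [Measure.prod_prod]
    apply ENNReal.mul_ne_top
    · rw [Measure.restrict_apply measurableSet_Ioc]; simp
    · simp
  refine Integrable.mono' h1 ?_ ?_
  · exact ((hf.meas.comp measurable_snd).mul hV.measurable).aestronglyMeasurable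
  · have hae : ∀ᵐ p : ℝ × ℝ ∂((volume.restrict (Ioc a b)).prod volume), p.1 ∈ Ioc a b := by
      have : ∀ᵐ x ∂(volume.restrict (Ioc a b)), x ∈ Ioc a b := ae_restrict_mem measurableSet_Ioc
      exact Measure.quasiMeasurePreserving_fst.ae this
    filter_upwards [hae] with p hp
    obtain ⟨θ, t⟩ := p
    show ‖f t * V (θ, t)‖ ≤ _
    by_cases ht : t ∈ Icc (0:ℝ) 1
    · rw [indicator_of_mem (show (θ, t) ∈ Ioc a b ×ˢ Icc (0:ℝ) 1 from ⟨hp, ht⟩), norm_mul,
        Real.norm_eq_abs (f t), abs_of_nonneg (hf.nn t)]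
      calc f t * ‖V (θ, t)‖ ≤ 1 * ‖V (θ, t)‖ := mul_le_mul_of_nonneg_right (hf.le1 t) (norm_nonneg _)
        _ ≤ C := by rw [one_mul]; exact hC _ ⟨Ioc_subset_Icc_self hp, ht⟩
    · rw [indicator_of_notMem (fun h => ht h.2), hf.supp t ht]; simp

theorem fub {f : ℝ → ℝ} (hf : Dens f) {V : ℝ × ℝ → ℝ} (hV : Continuous V) {a b : ℝ}
    (hab : a ≤ b) :
    (∫ θ in a..b, ∫ t, f t * V (θ, t)) = ∫ t, f t * ∫ θ in a..b, V (θ, t) := by
  rw [intervalIntegral.integral_of_le hab]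
  rw [integral_integral_swap (fub_int hf hV hab)]
  congr 1
  ext t
  rw [intervalIntegral.integral_of_le hab, integral_const_mul]

theorem fub_ii {f : ℝ → ℝ} (hf : Dens f) {V : ℝ × ℝ → ℝ} (hV : Continuous V) {a b : ℝ}
    (hab : a ≤ b) : IntervalIntegrable (fun θ => ∫ t, f t * V (θ, t)) volume a b := by
  rw [intervalIntegrable_iff_integrableOn_Ioc_of_le hab]
  exact (fub_int hf hV hab).integral_prod_left

/-- the key comparison of a point with its horizontal neighbours -/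
theorem ord_pair {f : ℝ → ℝ} (hf : Dens f) (hord : Ord f 1 0 ∨ Ord f 0 1) :
    ∃ ρ0 : ℝ, 0 < ρ0 ∧ ∀ ρ : ℝ, 0 < ρ → ρ ≤ ρ0 → ∀ (U : ℂ → ℝ), Continuous U →
      ∀ (Λ c x y : ℝ), 0 ≤ Λ → (∫ t, f t) = 2 * x →
      (∫ t, f t * (U (mkC (c + t - ρ) y) + U (mkC (c + t + ρ) y)) ≤
          Kf U Λ (c - ρ, x + ρ, y) + Kf U Λ (c + ρ, x - ρ, y)) ∨
      (∫ t, f t * (U (mkC (c + t - ρ) y) + U (mkC (c + t + ρ) y)) ≤
          Kf U Λ (c + ρ, x + ρ, y) + Kf U Λ (c - ρ, x - ρ, y)) := by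
  rcases hord with ⟨a, b, h, h0, ha, hab, hb, h1, h2⟩ | ⟨a, b, h, h0, ha, hab, hb, h1, h2⟩
  · refine ⟨h / 4, by positivity, fun ρ hρ0 hρ U hU Λ c x y hΛ hx => Or.inl ?_⟩
    obtain ⟨f1, f2, d1, d2, i1, i2, hu⟩ := split1 hf h0 ha hab hb h1 h2 hρ0 (by linarith)
    have := hu (fun t => U (mkC (c + t) y)) (ln_cont hU c y)
    have e1 : (∫ t, f t * (U (mkC (c + t - ρ) y) + U (mkC (c + t + ρ) y)))
        = ∫ t, f t * (U (mkC (c + (t - ρ)) y) + U (mkC (c + (t + ρ)) y)) := by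
      congr 1; ext t; rw [add_sub_assoc, add_assoc]
    rw [e1, ← this]
    apply add_le_add
    · have e2 : (∫ t, f1 t * U (mkC (c + (t - ρ)) y)) = ∫ t, f1 t * U (mkC (c - ρ + t) y) := by
        congr 1; ext t; congr 3; ring
      rw [e2]
      exact le_Kf hU hΛ (P := (c - ρ, x + ρ, y)) d1 (by rw [i1, hx]; linarith)
    · have e2 : (∫ t, f2 t * U (mkC (c + (t + ρ)) y)) = ∫ t, f2 t * U (mkC (c + ρ + t) y) := by
        congr 1; ext t; congr 3; ring
      rw [e2]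
      exact le_Kf hU hΛ (P := (c + ρ, x - ρ, y)) d2 (by rw [i2, hx]; linarith)
  · refine ⟨h / 4, by positivity, fun ρ hρ0 hρ U hU Λ c x y hΛ hx => Or.inr ?_⟩
    obtain ⟨f1, f2, d1, d2, i1, i2, hu⟩ := split2 hf h0 ha hab hb h1 h2 hρ0 (by linarith)
    have := hu (fun t => U (mkC (c + t) y)) (ln_cont hU c y)
    have e1 : (∫ t, f t * (U (mkC (c + t - ρ) y) + U (mkC (c + t + ρ) y)))
        = ∫ t, f t * (U (mkC (c + (t - ρ)) y) + U (mkC (c + (t + ρ)) y)) := by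
      congr 1; ext t; rw [add_sub_assoc, add_assoc]
    rw [e1, ← this]
    apply add_le_add
    · have e2 : (∫ t, f1 t * U (mkC (c + (t + ρ)) y)) = ∫ t, f1 t * U (mkC (c + ρ + t) y) := by
        congr 1; ext t; congr 3; ring
      rw [e2]
      exact le_Kf hU hΛ (P := (c + ρ, x + ρ, y)) d1 (by rw [i1, hx]; linarith)
    · have e2 : (∫ t, f2 t * U (mkC (c + (t - ρ)) y)) = ∫ t, f2 t * U (mkC (c - ρ + t) y) := by
        congr 1; ext t; congr 3; ring
      rw [e2]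
      exact le_Kf hU hΛ (P := (c - ρ, x - ρ, y)) d2 (by rw [i2, hx]; linarith)

set_option maxHeartbeats 4000000 in
/-- the comparison principle for the windowed star function -/
theorem star (D : Data U E) {g0 L Y k : ℝ} (hL : 0 < L) (hY : 0 < Y) (hk : 0 ≤ k) (Θ : ℂ → ℝ)
    (hΘ : ContinuousOn Θ {z | 0 ≤ z.re ∧ z.re ≤ 1 / 2})
    (H1 : ∀ c y, |c| ≤ L → |y| ≤ Y →
      ∫ t in (0:ℝ)..1, U (mkC (c + t) y) ≤ Θ (mkC (1 / 2) y) + k * c ^ 2)
    (H2 : ∀ c x, |c| ≤ L → g0 ≤ x → 0 ≤ x → x ≤ 1 / 2 →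
      ∫ t in (0:ℝ)..1, U (mkC (c + t) 0) ≤ Θ (mkC x 0) + k * c ^ 2)
    (H3 : ∀ y, |y| ≤ Y → 0 ≤ Θ (mkC 0 y))
    (H4 : ∀ c x y, |c| ≤ L → 0 ≤ x → x ≤ 1 / 2 → |y| = Y →
      ∫ t in (0:ℝ)..1, U (mkC (c + t) y) ≤ Θ (mkC x y) + k * c ^ 2)
    (H5 : ∀ c x y, |c| = L → 0 ≤ x → x ≤ 1 / 2 → |y| ≤ Y →
      ∫ t in (0:ℝ)..1, U (mkC (c + t) y) ≤ Θ (mkC x y) + k * c ^ 2)
    (H6 : ∀ z : ℂ, 0 < z.re → z.re < 1 / 2 → |z.im| < Y → (z.im ≠ 0 ∨ z.re < g0) →
      ∃ r0 : ℝ, 0 < r0 ∧ ∀ r, 0 < r → r < r0 → Real.circleAverage Θ z r + k * r ^ 2 / 2 < Θ z)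
    (H7 : ∀ x, 0 < x → x < g0 → x < 1 / 2 →
      ∃ c1 : ℝ, 0 < c1 ∧ ∀ s, 0 ≤ s → s ≤ x → Θ (mkC (x - s) 0) ≤ Θ (mkC x 0) - c1 * s) :
    ∀ c x y, |c| ≤ L → 0 ≤ x → x ≤ 1 / 2 → |y| ≤ Y → ∀ f, Dens f → ∫ t, f t ≤ 2 * x →
      ∫ t, f t * U (mkC (c + t) y) ≤ Θ (mkC x y) + k * c ^ 2 := by
  have hU := D.cont
  -- bound of U
  obtain ⟨Λ, hΛ0, hΛ⟩ : ∃ Λ : ℝ, 0 ≤ Λ ∧ ∀ s y, |s| ≤ L + 1 → |y| ≤ Y → U (mkC s y) ≤ Λ := by
    obtain ⟨C, hC⟩ := ((isCompact_Icc (a := -(L + 1)) (b := L + 1)).prod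
      (isCompact_Icc (a := -Y) (b := Y))).exists_bound_of_continuousOn
      (hU.comp mkC_cont).continuousOn
    refine ⟨max C 0, le_max_right _ _, fun s y hs hy => ?_⟩
    have := hC (s, y) ⟨⟨by linarith [(abs_le.1 hs).1], (abs_le.1 hs).2⟩,
      ⟨(abs_le.1 hy).1, (abs_le.1 hy).2⟩⟩
    exact ((le_abs_self _).trans this).trans (le_max_left _ _)
  have hΛ' : ∀ c y, |c| ≤ L → |y| ≤ Y → ∀ t ∈ Icc (0:ℝ) 1, ln U c y t ≤ Λ := by
    intro c y hc hy t ht
    apply hΛ _ _ _ hy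
    rw [abs_le] at hc ⊢
    constructor <;> linarith [hc.1, hc.2, ht.1, ht.2]
  intro c1 x1 y1 hc1 hx10 hx11 hy1 f1 hf1 hm1
  by_contra hcon
  push Not at hcon
  set Box : Set (ℝ × ℝ × ℝ) := Icc (-L) L ×ˢ Icc 0 (1/2) ×ˢ Icc (-Y) Y with hBox
  have hBoxc : IsCompact Box := isCompact_Icc.prod (isCompact_Icc.prod isCompact_Icc)
  set Ψ : ℝ × ℝ × ℝ → ℝ := fun P => Kf U Λ P - (Θ (mkC P.2.1 P.2.2) + k * P.1 ^ 2) with hΨ
  have hΘc : ContinuousOn (fun P : ℝ × ℝ × ℝ => Θ (mkC P.2.1 P.2.2)) Box := by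
    apply hΘ.comp (t := {z | 0 ≤ z.re ∧ z.re ≤ 1 / 2})
    · exact (mkC_cont.comp continuous_snd).continuousOn
    · rintro ⟨c, x, y⟩ ⟨_, hx, _⟩
      show 0 ≤ (mkC x y).re ∧ (mkC x y).re ≤ 1 / 2
      rw [mkC_re]; exact hx
  have hΨc : ContinuousOn Ψ Box := by
    apply (Kf_cont hU Λ).continuousOn.sub
    exact hΘc.add (by fun_prop)
  have hP1 : ((c1, x1, y1) : ℝ × ℝ × ℝ) ∈ Box :=
    ⟨⟨(abs_le.1 hc1).1, (abs_le.1 hc1).2⟩, ⟨hx10, hx11⟩, ⟨(abs_le.1 hy1).1, (abs_le.1 hy1).2⟩⟩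
  obtain ⟨⟨c0, x0, y0⟩, hP0, hmax⟩ := hBoxc.exists_isMaxOn ⟨_, hP1⟩ hΨc
  have hmax' : ∀ P ∈ Box, Ψ P ≤ Ψ (c0, x0, y0) := fun P hP => hmax hP
  set μ : ℝ := Ψ (c0, x0, y0) with hμ
  have hμ0 : 0 < μ := by
    refine lt_of_lt_of_le ?_ (hmax' _ hP1)
    have := le_Kf hU hΛ0 (P := (c1, x1, y1)) hf1 hm1
    simp only [hΨ]
    simp only at this
    linarith
  have hc0 : |c0| ≤ L := abs_le.2 ⟨hP0.1.1, hP0.1.2⟩
  have hx00 : 0 ≤ x0 := hP0.2.1.1
  have hx01 : x0 ≤ 1 / 2 := hP0.2.1.2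
  have hy0 : |y0| ≤ Y := abs_le.2 ⟨hP0.2.2.1, hP0.2.2.2⟩
  have hB : ∀ c x y, |c| ≤ L → 0 ≤ x → x ≤ 1 / 2 → |y| ≤ Y →
      Kf U Λ (c, x, y) ≤ Θ (mkC x y) + k * c ^ 2 + μ := by
    intro c x y hc hx0 hx1 hy
    have := hmax' (c, x, y) ⟨⟨(abs_le.1 hc).1, (abs_le.1 hc).2⟩, ⟨hx0, hx1⟩,
      ⟨(abs_le.1 hy).1, (abs_le.1 hy).2⟩⟩
    simp only [hΨ] at this
    rw [← hμ] at *
    linarith
  have hKP : Kf U Λ (c0, x0, y0) = Θ (mkC x0 y0) + k * c0 ^ 2 + μ := by
    rw [hμ]; simp only [hΨ]; ring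
  -- not on the boundary
  have hint := Kf_le_int hU D.nn hΛ0 (c0, x0, y0)
  simp only at hint
  have hx0pos : 0 < x0 := by
    rcases hx00.eq_or_lt with h | h
    · exfalso
      have h1 := Kf_le hU (c0, x0, y0) (right_mem_Icc.2 hΛ0)
      simp only at h1
      rw [Hf_large (hΛ' c0 y0 hc0 hy0), ← h] at h1
      have h2 := H3 y0 hy0
      rw [← h] at hKP
      have h3 : 0 ≤ k * c0 ^ 2 := by positivity
      linarith
    · exact h
  have hx0lt : x0 < 1 / 2 := by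
    rcases hx01.lt_or_eq with h | h
    · exact h
    · exfalso
      have := H1 c0 y0 hc0 hy0
      rw [← h] at this; linarith
  have hy0lt : |y0| < Y := by
    rcases hy0.lt_or_eq with h | h
    · exact h
    · exfalso; have := H4 c0 x0 y0 hc0 hx00 hx01 h; linarith
  have hc0lt : |c0| < L := by
    rcases hc0.lt_or_eq with h | h
    · exact h
    · exfalso; have := H5 c0 x0 y0 h hx00 hx01 hy0; linarith
  have hD0 : y0 ≠ 0 ∨ x0 < g0 := by
    by_contra h
    push Not at h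
    have h1 := H2 c0 x0 hc0 h.2 hx00 hx01
    rw [h.1] at hint hKP
    linarith
  -- the level
  obtain ⟨l, hlm, hlK, hlpos⟩ : ∃ l ∈ Icc 0 Λ, Hf (ln U c0 y0) (2 * x0) l = Kf U Λ (c0, x0, y0) ∧
      (y0 ≠ 0 ∨ 0 < l) := by
    by_cases hy : y0 ≠ 0
    · obtain ⟨l, hl, he⟩ := Kf_min hU hΛ0 (c0, x0, y0)
      exact ⟨l, hl, he, Or.inl hy⟩
    · push Not at hy
      subst hy
      have hxg : x0 < g0 := by rcases hD0 with h | h; exact absurd rfl h; exact h
      obtain ⟨e1, he1, hΘd⟩ := H7 x0 hx0pos hxg hx0lt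
      have key : ∀ s, 0 < s → s ≤ x0 → ∃ ls ∈ Icc (e1 / 2) Λ,
          Hf (ln U c0 0) (2 * x0) ls ≤ Kf U Λ (c0, x0, 0) + 2 * s * Λ := by
        intro s hs0 hs1
        obtain ⟨ls, hls, hle⟩ := Kf_min hU hΛ0 (c0, x0 - s, 0)
        simp only at hle
        have a1 := hB c0 (x0 - s) 0 hc0 (by linarith) (by linarith) (by simpa using hY.le)
        have a2 := hΘd s hs0.le hs1
        have a3 := Hf_shift (ln U c0 0) (2 * x0) (2 * (x0 - s)) ls
        have a4 := Kf_le hU (c0, x0, 0) hls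
        simp only at a4
        have a5 : (2 * x0 - 2 * (x0 - s)) * ls = 2 * s * ls := by ring
        rw [a5] at a3
        have a6 : e1 * s ≤ 2 * s * ls := by linarith
        have a7 : e1 / 2 ≤ ls := by
          by_contra hlt
          push Not at hlt
          nlinarith
        refine ⟨ls, ⟨a7, hls.2⟩, ?_⟩
        have a8 : 2 * s * ls ≤ 2 * s * Λ := by
          apply mul_le_mul_of_nonneg_left hls.2 (by positivity)
        have a9 : 0 < e1 * s := by positivity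
        linarith
      obtain ⟨l1, hl1, _⟩ := key x0 hx0pos le_rfl
      obtain ⟨l, hl, hlmin⟩ := (isCompact_Icc (a := e1 / 2) (b := Λ)).exists_isMinOn ⟨l1, hl1⟩
        (Hf_cont1 hU (c0, x0, 0)).continuousOn
      have hl0 : 0 < l := by linarith [hl.1]
      refine ⟨l, ⟨hl0.le, hl.2⟩, ?_, Or.inr hl0⟩
      apply le_antisymm
      · apply le_of_forall_pos_le_add
        intro ε hε
        set s := min x0 (ε / (2 * Λ + 1)) with hs
        have hs0 : 0 < s := lt_min hx0pos (by positivity)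
        obtain ⟨ls, hls, hle⟩ := key s hs0 (min_le_left _ _)
        have h1 : Hf (ln U c0 0) (2 * x0) l ≤ Hf (ln U c0 0) (2 * x0) ls := hlmin hls
        have h2 : 2 * s * Λ ≤ ε := by
          have h3 : s ≤ ε / (2 * Λ + 1) := min_le_right _ _
          have h4 : s * (2 * Λ + 1) ≤ ε := by
            rwa [le_div_iff₀ (by positivity)] at h3
          nlinarith
        linarith
      · exact Kf_le hU (c0, x0, 0) ⟨hl0.le, hl.2⟩
  -- the optimal density
  have hmin : ∀ l', 0 ≤ l' → Hf (ln U c0 y0) (2 * x0) l ≤ Hf (ln U c0 y0) (2 * x0) l' := by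
    intro l' hl'
    rw [hlK]
    rcases le_total l' Λ with h | h
    · exact Kf_le hU (c0, x0, y0) ⟨hl', h⟩
    · have h1 := Kf_le hU (c0, x0, y0) (right_mem_Icc.2 hΛ0)
      simp only at h1
      rw [Hf_large (hΛ' c0 y0 hc0 hy0)] at h1
      rw [Hf_large (fun t ht => (hΛ' c0 y0 hc0 hy0 t ht).trans h)]
      have : 2 * x0 * Λ ≤ 2 * x0 * l' := mul_le_mul_of_nonneg_left h (by positivity)
      linarith
  obtain ⟨f, hf, hfm, hfK, hfz, hord⟩ := opt_exists (ln_cont hU c0 y0) (fun t => D.nn _)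
    (m := 2 * x0) (l := l) (by linarith) (by linarith) hlm.1 hmin
    (fun hv => D.flat c0 y0 l hlpos hv)
  rw [hlK] at hfK
  -- distance
  obtain ⟨δ0, hδ0, hδ⟩ : ∃ δ0 : ℝ, 0 < δ0 ∧ ∀ t, f t ≠ 0 → ∀ r, r < δ0 →
      ∀ w ∈ Metric.closedBall (mkC (c0 + t) y0) r, w.im ≠ 0 ∨ w.re ∉ E := by
    by_cases hy : y0 ≠ 0
    · refine ⟨|y0|, abs_pos.2 hy, fun t _ r hr w hw => Or.inl ?_⟩
      intro h0
      rw [Metric.mem_closedBall, dist_eq_norm] at hw
      have h1 := Complex.abs_im_le_norm (w - mkC (c0 + t) y0)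
      rw [Complex.sub_im, mkC_im, h0, zero_sub, abs_neg] at h1
      linarith
    · push Not at hy
      subst hy
      have hl0 : 0 < l := by rcases hlpos with h | h; exact absurd rfl h; exact h
      set T : Set ℝ := (fun t => c0 + t) '' (Icc (0:ℝ) 1 ∩ {t | l ≤ ln U c0 0 t}) with hT
      have hTc : IsCompact T := by
        apply IsCompact.image _ (by fun_prop)
        exact isCompact_Icc.inter_right (isClosed_le continuous_const (ln_cont hU c0 0))
      have hdis : Disjoint T E := by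
        rw [Set.disjoint_left]
        rintro _ ⟨t, ht, rfl⟩ hE
        have h1 : ln U c0 0 t = 0 := by
          unfold ln; rw [mkC_zero]; exact D.zero _ hE
        have h2 : l ≤ ln U c0 0 t := ht.2
        linarith
      obtain ⟨r1, hr1, hr1'⟩ := Metric.exists_pos_forall_lt_edist hTc D.closed hdis
      refine ⟨r1, by exact_mod_cast hr1, fun t ht r hr w hw => Or.inr ?_⟩
      intro hwE
      have htT : c0 + t ∈ T := by
        refine ⟨t, ⟨?_, ?_⟩, rfl⟩
        · by_contra h; exact ht (hf.supp t h)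
        · show l ≤ ln U c0 0 t
          by_contra h; push Not at h; exact ht (hfz t h)
      have h2 := hr1' _ htT _ hwE
      rw [edist_dist, Real.dist_eq] at h2
      have h3 : (r1 : ℝ) < |c0 + t - w.re| := by
        have := (ENNReal.lt_ofReal_iff_toReal_lt (by simp)).1 h2
        simpa using this
      rw [Metric.mem_closedBall, dist_eq_norm] at hw
      have h1 := Complex.abs_re_le_norm (w - mkC (c0 + t) 0)
      rw [Complex.sub_re, mkC_re, abs_sub_comm] at h1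
      linarith
  obtain ⟨ρ0, hρ0, hpair⟩ := ord_pair hf hord
  obtain ⟨r0, hr0, hmean⟩ := H6 (mkC x0 y0) (by simpa using hx0pos) (by simpa using hx0lt)
    (by simpa using hy0lt) (by simpa using hD0)
  -- the radius
  obtain ⟨r, hr, hra, hrb, hrc, hrd, hre, hrf, hrg⟩ : ∃ r : ℝ, 0 < r ∧ r < r0 ∧ r < ρ0 ∧ r < x0 ∧
      r < 1 / 2 - x0 ∧ r < L - |c0| ∧ r < Y - |y0| ∧ r < δ0 := by
    have hpos : 0 < min (min (min r0 ρ0) (min x0 (1 / 2 - x0))) (min (min (L - |c0|) (Y - |y0|)) δ0) := by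
      refine lt_min (lt_min (lt_min hr0 hρ0) (lt_min hx0pos (by linarith)))
        (lt_min (lt_min (by linarith) (by linarith)) hδ0)
    set q := min (min (min r0 ρ0) (min x0 (1 / 2 - x0))) (min (min (L - |c0|) (Y - |y0|)) δ0) with hq
    have hq1 : q ≤ min (min r0 ρ0) (min x0 (1 / 2 - x0)) := min_le_left _ _
    have hq2 : q ≤ min (min (L - |c0|) (Y - |y0|)) δ0 := min_le_right _ _
    have a1 := hq1.trans (min_le_left _ _)
    have a2 := hq1.trans (min_le_right _ _)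
    have a3 := hq2.trans (min_le_left _ _)
    have a4 := hq2.trans (min_le_right _ _)
    have b1 := a1.trans (min_le_left _ _)
    have b2 := a1.trans (min_le_right _ _)
    have b3 := a2.trans (min_le_left _ _)
    have b4 := a2.trans (min_le_right _ _)
    have b5 := a3.trans (min_le_left _ _)
    have b6 := a3.trans (min_le_right _ _)
    refine ⟨q / 2, by linarith, ?_, ?_, ?_, ?_, ?_, ?_, ?_⟩ <;> linarith
  -- pointwise inequality
  have hpt : ∀ ρ s, 0 ≤ ρ → ρ ≤ r → |s| ≤ r →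
      ∫ t, f t * (U (mkC (c0 + t - ρ) (y0 + s)) + U (mkC (c0 + t + ρ) (y0 + s)))
      ≤ Θ (mkC (x0 + ρ) (y0 + s)) + Θ (mkC (x0 - ρ) (y0 + s)) + 2 * k * c0 ^ 2 + 2 * k * ρ ^ 2
        + 2 * μ := by
    intro ρ s hρ hρr hs
    have hys : |y0 + s| ≤ Y := (abs_add_le _ _).trans (by linarith)
    have hcp : |c0 + ρ| ≤ L := (abs_add_le _ _).trans (by rw [abs_of_nonneg hρ]; linarith)
    have hcm : |c0 - ρ| ≤ L := (abs_sub _ _).trans (by rw [abs_of_nonneg hρ]; linarith)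
    rcases hρ.eq_or_lt with h | h
    · rw [← h]
      simp only [sub_zero, add_zero]
      have h1 := le_Kf hU hΛ0 (P := (c0, x0, y0 + s)) hf hfm.le
      simp only at h1
      have h2 := hB c0 x0 (y0 + s) hc0 hx00 hx01 hys
      have e1 : ∫ t, f t * (U (mkC (c0 + t) (y0 + s)) + U (mkC (c0 + t) (y0 + s)))
          = 2 * ∫ t, f t * U (mkC (c0 + t) (y0 + s)) := by
        rw [← integral_const_mul]; congr 1; ext t; ring
      rw [e1]
      nlinarith
    · rcases hpair ρ h (by linarith) U hU Λ c0 x0 (y0 + s) hΛ0 hfm with h1 | h1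
      · have h2 := hB (c0 - ρ) (x0 + ρ) (y0 + s) hcm (by linarith) (by linarith) hys
        have h3 := hB (c0 + ρ) (x0 - ρ) (y0 + s) hcp (by linarith) (by linarith) hys
        have : k * (c0 - ρ) ^ 2 + k * (c0 + ρ) ^ 2 = 2 * k * c0 ^ 2 + 2 * k * ρ ^ 2 := by ring
        linarith
      · have h2 := hB (c0 + ρ) (x0 + ρ) (y0 + s) hcp (by linarith) (by linarith) hys
        have h3 := hB (c0 - ρ) (x0 - ρ) (y0 + s) hcm (by linarith) (by linarith) hys
        have : k * (c0 - ρ) ^ 2 + k * (c0 + ρ) ^ 2 = 2 * k * c0 ^ 2 + 2 * k * ρ ^ 2 := by ring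
        linarith
  have hpt2 : ∀ ρ s, |ρ| ≤ r → |s| ≤ r →
      ∫ t, f t * (U (mkC (c0 + t - ρ) (y0 + s)) + U (mkC (c0 + t + ρ) (y0 + s)))
      ≤ Θ (mkC (x0 + ρ) (y0 + s)) + Θ (mkC (x0 - ρ) (y0 + s)) + 2 * k * c0 ^ 2 + 2 * k * ρ ^ 2
        + 2 * μ := by
    intro ρ s hρ hs
    rcases le_total 0 ρ with h | h
    · exact hpt ρ s h (by rwa [abs_of_nonneg h] at hρ) hs
    · have := hpt (-ρ) s (by linarith) (by rwa [abs_of_nonpos h] at hρ) hs
      have e1 : ∫ t, f t * (U (mkC (c0 + t - ρ) (y0 + s)) + U (mkC (c0 + t + ρ) (y0 + s)))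
          = ∫ t, f t * (U (mkC (c0 + t - -ρ) (y0 + s)) + U (mkC (c0 + t + -ρ) (y0 + s))) := by
        congr 1; ext t; rw [sub_neg_eq_add, ← sub_eq_add_neg]; ring
      rw [e1]
      rw [sub_neg_eq_add, ← sub_eq_add_neg] at this
      have e2 : (-ρ) ^ 2 = ρ ^ 2 := by ring
      rw [e2] at this
      linarith
  -- integrate over the circle
  have hπ := Real.pi_pos
  set V : ℝ × ℝ → ℝ := fun p => U (mkC (c0 + p.2 - r * Real.cos p.1) (y0 + r * Real.sin p.1))
    + U (mkC (c0 + p.2 + r * Real.cos p.1) (y0 + r * Real.sin p.1)) with hV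
  have hVc : Continuous V := by
    apply Continuous.add
    · apply hU.comp
      exact mkC_cont.comp (by fun_prop : Continuous (fun p : ℝ × ℝ =>
        ((c0 + p.2 - r * Real.cos p.1, y0 + r * Real.sin p.1) : ℝ × ℝ)))
    · apply hU.comp
      exact mkC_cont.comp (by fun_prop : Continuous (fun p : ℝ × ℝ =>
        ((c0 + p.2 + r * Real.cos p.1, y0 + r * Real.sin p.1) : ℝ × ℝ)))
  have hLHS : (∫ θ in (0:ℝ)..2 * Real.pi, ∫ t, f t * V (θ, t)) = 4 * Real.pi * Kf U Λ (c0, x0, y0) := by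
    rw [fub hf hVc (by positivity), ← hfK]
    have e1 : (fun t => f t * ∫ θ in (0:ℝ)..2 * Real.pi, V (θ, t))
        = fun t => 4 * Real.pi * (f t * ln U c0 y0 t) := by
      ext t
      by_cases hft : f t = 0
      · rw [hft]; ring
      · have hmv := D.mv (mkC (c0 + t) y0) r hr (hδ t hft r hrg)
        simp only [mkC_re, mkC_im] at hmv
        have h1 : ∫ θ in (0:ℝ)..2 * Real.pi, V (θ, t)
            = (∫ θ in (0:ℝ)..2 * Real.pi, U (mkC (c0 + t - r * Real.cos θ) (y0 + r * Real.sin θ)))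
              + ∫ θ in (0:ℝ)..2 * Real.pi, U (mkC (c0 + t + r * Real.cos θ) (y0 + r * Real.sin θ)) := by
          simp only [hV]
          apply intervalIntegral.integral_add
          · apply Continuous.intervalIntegrable
            apply hU.comp
            exact mkC_cont.comp (by fun_prop : Continuous (fun θ : ℝ =>
              ((c0 + t - r * Real.cos θ, y0 + r * Real.sin θ) : ℝ × ℝ)))
          · apply Continuous.intervalIntegrable
            apply hU.comp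
            exact mkC_cont.comp (by fun_prop : Continuous (fun θ : ℝ =>
              ((c0 + t + r * Real.cos θ, y0 + r * Real.sin θ) : ℝ × ℝ)))
        have h2 := int_refl (fun a b => U (mkC (c0 + t + a) (y0 + b))) r
        simp only [← sub_eq_add_neg] at h2
        rw [h1, h2, hmv]
        unfold ln
        ring
    rw [e1, integral_const_mul]
  have hRHSc : ∀ σ : ℝ, |σ| ≤ 1 → ContinuousOn (fun θ : ℝ =>
      Θ (mkC (x0 + σ * (r * Real.cos θ)) (y0 + r * Real.sin θ))) univ := by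
    intro σ hσ
    apply hΘ.comp (t := {z | 0 ≤ z.re ∧ z.re ≤ 1 / 2})
    · exact (mkC_cont.comp (by fun_prop : Continuous (fun θ : ℝ =>
        ((x0 + σ * (r * Real.cos θ), y0 + r * Real.sin θ) : ℝ × ℝ)))).continuousOn
    · intro θ _
      show 0 ≤ (mkC _ _).re ∧ (mkC _ _).re ≤ 1 / 2
      rw [mkC_re]
      have h1 : |σ * (r * Real.cos θ)| ≤ r := by
        rw [abs_mul, abs_mul, abs_of_pos hr]
        have := Real.abs_cos_le_one θ
        calc |σ| * (r * |Real.cos θ|) ≤ 1 * (r * 1) := by gcongr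
          _ = r := by ring
      have := abs_le.1 h1
      constructor <;> linarith
  have hmeanI : (∫ θ in (0:ℝ)..2 * Real.pi, Θ (mkC (x0 + r * Real.cos θ) (y0 + r * Real.sin θ)))
      = 2 * Real.pi * Real.circleAverage Θ (mkC x0 y0) r := by
    rw [Real.circleAverage_def, smul_eq_mul]
    have h3 : ∀ θ : ℝ, circleMap (mkC x0 y0) r θ = mkC (x0 + r * Real.cos θ) (y0 + r * Real.sin θ) := by
      intro θ
      apply Complex.ext
      · rw [cm_re, mkC_re, mkC_re]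
      · rw [cm_im, mkC_im, mkC_im]
    simp only [h3]
    field_simp
  have hle : (∫ θ in (0:ℝ)..2 * Real.pi, ∫ t, f t * V (θ, t))
      ≤ ∫ θ in (0:ℝ)..2 * Real.pi, (Θ (mkC (x0 + r * Real.cos θ) (y0 + r * Real.sin θ))
        + Θ (mkC (x0 + -(r * Real.cos θ)) (y0 + r * Real.sin θ))
        + (2 * k * c0 ^ 2 + 2 * μ + 2 * k * r ^ 2 * Real.cos θ ^ 2)) := by
    apply intervalIntegral.integral_mono_on (by positivity) (fub_ii hf hVc (by positivity))
    · apply ContinuousOn.intervalIntegrable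
      apply ContinuousOn.mono _ (subset_univ _)
      have c1 := hRHSc 1 (by simp)
      have c2 := hRHSc (-1) (by simp)
      simp only [one_mul, neg_one_mul] at c1 c2
      exact (c1.add c2).add (by fun_prop)
    · intro θ _
      have h1 : |r * Real.cos θ| ≤ r := by
        rw [abs_mul, abs_of_pos hr]
        have := Real.abs_cos_le_one θ
        nlinarith
      have h2 : |r * Real.sin θ| ≤ r := by
        rw [abs_mul, abs_of_pos hr]
        have := Real.abs_sin_le_one θ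
        nlinarith
      have h3 := hpt2 (r * Real.cos θ) (r * Real.sin θ) h1 h2
      simp only [hV]
      rw [← sub_eq_add_neg]
      have e3 : 2 * k * (r * Real.cos θ) ^ 2 = 2 * k * r ^ 2 * Real.cos θ ^ 2 := by ring
      linarith
  have hRHS : (∫ θ in (0:ℝ)..2 * Real.pi, (Θ (mkC (x0 + r * Real.cos θ) (y0 + r * Real.sin θ))
        + Θ (mkC (x0 + -(r * Real.cos θ)) (y0 + r * Real.sin θ))
        + (2 * k * c0 ^ 2 + 2 * μ + 2 * k * r ^ 2 * Real.cos θ ^ 2)))
      = 4 * Real.pi * (Real.circleAverage Θ (mkC x0 y0) r + k * c0 ^ 2 + μ + k * r ^ 2 / 2) := by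
    have c1 := hRHSc 1 (by simp)
    have c2 := hRHSc (-1) (by simp)
    simp only [one_mul, neg_one_mul] at c1 c2
    have i1 : IntervalIntegrable (fun θ : ℝ => Θ (mkC (x0 + r * Real.cos θ) (y0 + r * Real.sin θ)))
        volume 0 (2 * Real.pi) := (c1.mono (subset_univ _)).intervalIntegrable
    have i2 : IntervalIntegrable (fun θ : ℝ => Θ (mkC (x0 + -(r * Real.cos θ)) (y0 + r * Real.sin θ)))
        volume 0 (2 * Real.pi) := (c2.mono (subset_univ _)).intervalIntegrable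
    have i3 : IntervalIntegrable (fun θ : ℝ => 2 * k * c0 ^ 2 + 2 * μ + 2 * k * r ^ 2 * Real.cos θ ^ 2)
        volume 0 (2 * Real.pi) := by
      apply Continuous.intervalIntegrable; fun_prop
    rw [intervalIntegral.integral_add (i1.add i2) i3, intervalIntegral.integral_add i1 i2]
    have h2 := int_refl (fun a b => Θ (mkC (x0 + a) (y0 + b))) r
    rw [h2, hmeanI]
    have h4 : ∫ θ in (0:ℝ)..2 * Real.pi, (2 * k * c0 ^ 2 + 2 * μ + 2 * k * r ^ 2 * Real.cos θ ^ 2)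
        = 2 * Real.pi * (2 * k * c0 ^ 2 + 2 * μ) + 2 * k * r ^ 2 * Real.pi := by
      rw [intervalIntegral.integral_add (by simp) (by apply Continuous.intervalIntegrable; fun_prop),
        intervalIntegral.integral_const_mul, integral_cos_sq]
      simp
      ring
    rw [h4]
    ring
  have hmr := hmean r hr hra
  rw [hLHS, hRHS, hKP] at hle
  have h5 := le_of_mul_le_mul_left hle (by positivity)
  linarith

end Pool.Agent.U591.LV
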